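import Pool.Agent.N892.AC.Aff

/-!
Circles.
-/

set_option autoImplicit false

namespace Pool.Agent.N892.AC

open H984N Metric Set
open scoped ENNReal NNReal

/-- The unit circle. -/
def ci : Set ℂ := {z | ‖z‖ = 1}

theorem exp_dist_le (a b : ℝ) :
    dist (Complex.exp (Complex.I * a)) (Complex.exp (Complex.I * b)) ≤ |a - b| := by
  rw [dist_eq_norm]
  have e : Complex.exp (Complex.I * a) - Complex.exp (Complex.I * b) =
      Complex.exp (Complex.I * b) * (Complex.exp (Complex.I * ((a - b : ℝ) : ℂ)) - 1) := by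
    rw [mul_sub, mul_one, ← Complex.exp_add]
    congr 2
    push_cast; ring
  rw [e, norm_mul]
  have h1 : ‖Complex.exp (Complex.I * b)‖ = 1 := by
    rw [mul_comm]; exact Complex.norm_exp_ofReal_mul_I b
  rw [h1, one_mul]
  have := Real.norm_exp_I_mul_ofReal_sub_one_le (x := a - b)
  rwa [Real.norm_eq_abs] at this

theorem exp_dist_ge {θ : ℝ} (h : |θ| ≤ Real.pi) :
    2 / Real.pi * |θ| ≤ dist (Complex.exp (Complex.I * θ)) 1 := by
  rw [dist_eq_norm, Complex.norm_exp_I_mul_ofReal_sub_one]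
  rw [norm_mul, Real.norm_eq_abs, Real.norm_eq_abs, abs_two]
  have h1 : |θ / 2| ≤ Real.pi / 2 := by
    rw [abs_div, abs_two]; linarith
  have h2 := Real.mul_abs_le_abs_sin h1
  rw [abs_div, abs_two] at h2
  linarith

theorem circle_reg : Reg ci 1 := by
  classical
  intro ε hε
  refine ⟨11, ?_⟩
  intro x r h hr hr1 hh
  have hh0 : 0 < h := hr.trans_le hh
  rcases (ci ∩ closedBall x h).eq_empty_or_nonempty with h0 | ⟨w, hw, hwx⟩
  · refine ⟨∅, ?_, by rw [h0]; exact empty_subset _⟩
    rw [Finset.card_empty]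
    push_cast
    positivity
  set P : ℕ := ⌊4 * h / r⌋₊ + 1 with hP
  refine ⟨(Finset.Icc (-(P:ℤ)) P).image (fun k : ℤ => w * Complex.exp (Complex.I * ((r * k : ℝ) : ℂ))),
    ?_, ?_⟩
  · have h1 : (((Finset.Icc (-(P:ℤ)) P).image
        (fun k : ℤ => w * Complex.exp (Complex.I * ((r * k : ℝ) : ℂ)))).card : ℝ) ≤
        ((Finset.Icc (-(P:ℤ)) P).card : ℝ) := by exact_mod_cast Finset.card_image_le
    refine h1.trans ?_
    rw [Int.card_Icc]
    have e : (P + 1 - -(P:ℤ)).toNat = 2 * P + 1 := by omega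
    rw [e, Real.rpow_one]
    push_cast
    have h2 : (P : ℝ) ≤ 4 * h / r + 1 := by
      rw [hP]; push_cast
      have := Nat.floor_le (show 0 ≤ 4 * h / r by positivity)
      linarith
    have h3 : 1 ≤ h / r := by rwa [le_div_iff₀ hr, one_mul]
    have h4 : 4 * h / r = 4 * (h / r) := by ring
    have h5 : 1 ≤ r ^ (-ε) := Real.one_le_rpow_of_pos_of_le_one_of_nonpos hr hr1 (by linarith)
    rw [h4] at h2
    have h6 : 11 * (h / r) ≤ 11 * r ^ (-ε) * (h / r) := by nlinarith
    linarith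
  · rintro z ⟨hz, hzx⟩
    have hw1 : ‖w‖ = 1 := hw
    have hz1 : ‖z‖ = 1 := hz
    have hw0 : w ≠ 0 := by rw [← norm_ne_zero_iff, hw1]; exact one_ne_zero
    set θ : ℝ := Complex.arg (z / w) with hθ
    have hzw : ‖z / w‖ = 1 := by rw [norm_div, hz1, hw1, div_one]
    have hexp : Complex.exp (Complex.I * (θ : ℂ)) = z / w := by
      have := Complex.norm_mul_exp_arg_mul_I (z / w)
      rw [hzw, Complex.ofReal_one, one_mul] at this
      rw [mul_comm]; exact this
    have hθπ : |θ| ≤ Real.pi := Complex.abs_arg_le_pi _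
    have hd : dist (Complex.exp (Complex.I * (θ:ℂ))) 1 ≤ 2 * h := by
      rw [hexp, dist_eq_norm]
      have e : z / w - 1 = (z - w) / w := by field_simp
      rw [e, norm_div, hw1, div_one, ← dist_eq_norm]
      have := dist_triangle_right z w x
      have a1 : dist z x ≤ h := hzx
      have a2 : dist w x ≤ h := hwx
      linarith
    have hθh : |θ| ≤ 4 * h := by
      have h1 := (exp_dist_ge hθπ).trans hd
      have hπ := Real.pi_pos
      have hπ4 := Real.pi_le_four
      rw [div_mul_eq_mul_div, div_le_iff₀ hπ] at h1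
      nlinarith
    set k : ℤ := ⌊θ / r⌋ with hk
    have k1 := Int.floor_le (θ / r)
    have k2 := (Int.lt_floor_add_one (θ / r)).le
    rw [← hk] at k1 k2
    rw [le_div_iff₀ hr] at k1
    rw [div_le_iff₀ hr] at k2
    refine mem_iUnion₂.2 ⟨w * Complex.exp (Complex.I * ((r * k : ℝ) : ℂ)),
      Finset.mem_image.2 ⟨k, ?_, rfl⟩, ?_⟩
    · have e : ((⌊4 * h / r⌋₊ : ℕ) : ℤ) = ⌊4 * h / r⌋ := Int.natCast_floor_eq_floor (by positivity)
      rw [abs_le] at hθh
      rw [Finset.mem_Icc, hP]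
      push_cast
      rw [e, hk]
      constructor
      · apply Int.le_floor.2
        push_cast
        have h1 := Int.lt_floor_add_one (4 * h / r)
        have h2 : -(4 * h / r) ≤ θ / r := by
          rw [← neg_div]; exact div_le_div_of_nonneg_right hθh.1 hr.le
        linarith
      · have : ⌊θ / r⌋ ≤ ⌊4 * h / r⌋ := Int.floor_le_floor (div_le_div_of_nonneg_right hθh.2 hr.le)
        omega
    · rw [mem_closedBall]
      have ez : z = w * Complex.exp (Complex.I * (θ:ℂ)) := by rw [hexp]; field_simp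
      rw [ez, dist_eq_norm, ← mul_sub, norm_mul, hw1, one_mul, ← dist_eq_norm]
      refine (exp_dist_le _ _).trans ?_
      rw [abs_le]
      constructor <;> linarith

theorem circle_copy (z0 : ℂ) {ρ : ℝ} (hρ : 0 < ρ) :
    aff ρ 0 z0 '' ci = {z | dist z z0 = ρ} := by
  ext z
  constructor
  · rintro ⟨w, hw, rfl⟩
    have hw1 : ‖w‖ = 1 := hw
    show dist (aff ρ 0 z0 w) z0 = ρ
    unfold aff
    rw [dist_eq_norm, zero_mul, add_zero, add_sub_cancel_right, norm_mul, hw1, mul_one,
      Complex.norm_real, Real.norm_eq_abs, abs_of_pos hρ]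
  · intro hz
    have hz' : dist z z0 = ρ := hz
    rw [dist_eq_norm] at hz'
    have hρ' : (ρ : ℂ) ≠ 0 := by exact_mod_cast hρ.ne'
    refine ⟨(z - z0) / ρ, ?_, ?_⟩
    · show ‖(z - z0) / ρ‖ = 1
      rw [norm_div, hz', Complex.norm_real, Real.norm_eq_abs, abs_of_pos hρ, div_self hρ.ne']
    · unfold aff
      field_simp
      ring

variable {R : Rect} {f : C(unitInterval, ℂ)}

/-- The distance from `z0` and the circles with centre `z0`. -/
theorem foot_circle (z0 : ℂ) {κ η m : ℝ} (hκ : 0 < κ) (hη : 0 < η) (hm1 : 1 / η ≤ m)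
    (hm2 : ‖z0‖ + (R.A + R.B + R.H + 1) ≤ m) :
    Foot R (Cop ci m) f (fun z => dist z z0) {s | f s ∈ Dep R κ ∧ η ≤ dist (f s) z0}
      (κ / 2) := by
  rintro s0 ⟨hs0, hs0'⟩
  have hρ : 0 < dist (f s0) z0 := hη.trans_le hs0'
  refine ⟨{z | dist z z0 = dist (f s0) z0}, ?_, ?_⟩
  · refine ⟨(dist (f s0) z0 : ℝ), 0, z0, ?_, ?_, ?_, ?_, (circle_copy z0 hρ).symm⟩
    · rw [Complex.norm_real, Real.norm_eq_abs, abs_of_pos hρ]
      have := D_norm R (dep_sub R hκ hs0)
      rw [dist_eq_norm]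
      refine (norm_sub_le _ _).trans ?_
      linarith
    · rw [norm_zero]
      exact le_trans (by positivity) hm1
    · have := R.hA; have := R.hB; have := R.hH
      linarith
    · rw [norm_zero, sub_zero, Complex.norm_real, Real.norm_eq_abs, abs_of_pos hρ, abs_of_pos hρ]
      refine le_trans ?_ hs0'
      have hm0 : 0 < m := lt_of_lt_of_le (by positivity) hm1
      rw [div_le_iff₀ hm0]
      rw [div_le_iff₀ hη] at hm1
      linarith
  · rintro s ⟨hs, hs'⟩ d hd hdκ h
    have hσ : 0 < dist (f s) z0 := hη.trans_le hs'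
    set c : ℝ := dist (f s0) z0 / dist (f s) z0 with hc
    have hσ' : ((dist (f s) z0 : ℝ) : ℂ) ≠ 0 := by exact_mod_cast hσ.ne'
    have hc0 : 0 < c := by positivity
    have hcd : c * dist (f s) z0 = dist (f s0) z0 := by rw [hc]; field_simp
    have hdist : dist (f s) (z0 + (c:ℂ) * (f s - z0)) ≤ d := by
      rw [dist_eq_norm]
      have e : f s - (z0 + (c:ℂ) * (f s - z0)) = ((1 - c : ℝ) : ℂ) * (f s - z0) := by
        push_cast; ring
      rw [e, norm_mul, Complex.norm_real, Real.norm_eq_abs, ← dist_eq_norm]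
      have e2 : |1 - c| * dist (f s) z0 = |dist (f s) z0 - dist (f s0) z0| := by
        rw [← abs_of_pos hσ, ← abs_mul, abs_of_pos hσ]
        congr 1
        rw [← hcd]; ring
      rw [e2]; exact h
    refine ⟨z0 + (c:ℂ) * (f s - z0), ⟨?_, ?_⟩, hdist⟩
    · show dist (z0 + (c:ℂ) * (f s - z0)) z0 = dist (f s0) z0
      rw [dist_eq_norm, add_sub_cancel_left, norm_mul, Complex.norm_real, Real.norm_eq_abs,
        abs_of_pos hc0, ← dist_eq_norm, hcd]
    · apply dep_sub R (κ := κ - d) (by linarith)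
      apply dep_near R (W := d) (y := f s)
      · rw [sub_add_cancel]; exact hs
      · rw [dist_comm]; exact hdist

end Pool.Agent.N892.AC
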