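import Pool.Agent.N892.AC.Pack
import Pool.Agent.N892.AC.Circ

/-!
The properties of the scaling limits, almost surely.
-/

set_option autoImplicit false

namespace Pool.Agent.N892.AC

open H984N MeasureTheory Filter Topology Set
open scoped ENNReal NNReal

theorem hol_comp {f : C(unitInterval, ℂ)} {g : ℂ → ℝ} (hg : ∀ z w, |g z - g w| ≤ dist z w)
    (h : Hol f) : Hol (fun s => g (f s)) := by
  intro β hβ hβ1
  obtain ⟨Λ, hΛ⟩ := h β hβ hβ1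
  refine ⟨Λ, fun s t => ?_⟩
  rw [Real.dist_eq]
  exact (hg _ _).trans (hΛ s t)

theorem hol_graph {G : unitInterval → ℝ} (h : Hol G) : Hol (fun s => (s, G s)) := by
  intro β hβ hβ1
  obtain ⟨Λ, hΛ⟩ := h β hβ hβ1
  refine ⟨max Λ 1, fun s t => ?_⟩
  rw [Prod.dist_eq]
  have h0 : 0 ≤ |(s:ℝ) - t| ^ β := by positivity
  refine max_le ?_ ((hΛ s t).trans (mul_le_mul_of_nonneg_right (le_max_left _ _) h0))
  have h1 : |(s:ℝ) - t| ≤ 1 := by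
    rw [abs_le]
    have := s.2.1; have := s.2.2; have := t.2.1; have := t.2.2
    constructor <;> linarith
  calc dist s t = |(s:ℝ) - t| ^ (1:ℝ) := (Real.rpow_one _).symm
    _ ≤ |(s:ℝ) - t| ^ β :=
        Real.rpow_le_rpow_of_exponent_ge_of_imp (abs_nonneg _) h1 (by linarith) (by
          intro _ h; exact absurd h one_ne_zero)
    _ ≤ max Λ 1 * |(s:ℝ) - t| ^ β := by
        have := le_max_right Λ 1
        nlinarith

theorem st_mono {R : Rect} {κ κ' : ℝ} (h : κ' ≤ κ) (S : Set ℂ) (x : ℂ) (r ρ : ℝ)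
    (f : C(unitInterval, ℂ)) : St R κ S x r ρ f ⊆ St R κ' S x r ρ f :=
  fun _ hs => ⟨dep_anti R h hs.1, hs.2⟩

/-- The scaling limits have the properties used above. -/
theorem good_ae {C : ℝ} (hC : 0 < C) (hU : H342P.TwoUp C (1/4)) (R : Rect) {δ : ℕ → ℝ}
    (hδ : ∀ i, 0 < δ i) (hlim : Tendsto δ atTop (𝓝 0))
    {μ : ProbabilityMeasure X} (hμ : Tendsto (fun i => R.law (δ i)) atTop (𝓝 μ))
    (hpos : ∀ᵐ p ∂(μ : Measure X), 0 < p.2 ∧ Hol p.1)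
    {𝓢 : Set (Set ℂ)} {a : ℝ} (hE : Ent R 𝓢 a) (ha : 1/2 < a) (ha2 : a ≤ 2) :
    ∀ᵐ p ∂(μ : Measure X), Good R 𝓢 a p.1 := by
  have h : ∀ᵐ p ∂(μ : Measure X), ∀ n m : ℕ, 0 < p.2 → ∃ Λ : ℝ, 0 < Λ ∧ ∀ S ∈ 𝓢,
      ∀ (x : ℂ) (r ρ : ℝ), 0 < r → r ≤ ρ → ρ ≤ 1 →
      p.2 * (volume (St R (1 / ((n:ℝ) + 1)) S x r ρ p.1)).toReal ≤
        Λ * (r ^ (2 - a - 1 / ((m:ℝ) + 1)) * ρ ^ (a - 1/4)) := by
    rw [ae_all_iff]; intro n
    rw [ae_all_iff]; intro m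
    exact strip hC hU R hδ hlim hμ hE (by positivity) ha ha2 (by positivity)
  filter_upwards [h, hpos] with p hp ⟨hT, hH⟩
  refine ⟨hH, fun κ ε hκ hε => ?_⟩
  obtain ⟨n, hn⟩ := exists_nat_one_div_lt hκ
  obtain ⟨m, hm⟩ := exists_nat_one_div_lt hε
  obtain ⟨Λ, hΛ, hst⟩ := hp n m hT
  refine ⟨Λ / p.2, by positivity, fun S hS x r ρ hr hrρ hρ => ?_⟩
  have hρ0 : 0 < ρ := hr.trans_le hrρ
  have h1 := hst S hS x r ρ hr hrρ hρ
  have h2 : (volume (St R κ S x r ρ p.1)).toReal ≤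
      (volume (St R (1 / ((n:ℝ) + 1)) S x r ρ p.1)).toReal :=
    ENNReal.toReal_mono (measure_ne_top _ _) (measure_mono (st_mono hn.le S x r ρ p.1))
  have h3 : r ^ (2 - a - 1 / ((m:ℝ) + 1)) ≤ r ^ (2 - a - ε) :=
    Real.rpow_le_rpow_of_exponent_ge hr (hrρ.trans hρ) (by linarith)
  have h4 : p.2 * (volume (St R κ S x r ρ p.1)).toReal ≤ Λ * (r ^ (2 - a - ε) * ρ ^ (a - 1/4)) := by
    calc p.2 * (volume (St R κ S x r ρ p.1)).toReal
        ≤ p.2 * (volume (St R (1 / ((n:ℝ) + 1)) S x r ρ p.1)).toReal :=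
          mul_le_mul_of_nonneg_left h2 hT.le
      _ ≤ Λ * (r ^ (2 - a - 1 / ((m:ℝ) + 1)) * ρ ^ (a - 1/4)) := h1
      _ ≤ _ := by gcongr
  rw [div_mul_eq_mul_div, le_div_iff₀ hT]
  linarith

/-- The curve is a weak limit of the exploration path in the rectangle. -/
def IsLimit (R : Rect) (μ : ProbabilityMeasure X) : Prop :=
  ∃ δ : ℕ → ℝ, (∀ i, 0 < δ i) ∧ Tendsto δ atTop (𝓝 0) ∧
    Tendsto (fun i => R.law (δ i)) atTop (𝓝 μ)

end Pool.Agent.N892.AC
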