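import Pool.Agent.N892.AC.Up

/-!
The family of the affine copies of a regular set has finite entropy.
-/

set_option autoImplicit false

namespace Pool.Agent.N892.AC

open H984N Metric Set
open scoped ENNReal NNReal

/-- `S` is regular with exponent `a` (quasi-Assouad dimension at most `a`, uniformly): for every
`ε > 0` there is `K` such that for all `0 < r ≤ 1` and `h ≥ r` the part of `S` in every disc of
radius `h` is covered by at most `K r ^ (-ε) (h/r) ^ a` discs of radius `r`. -/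
def Reg (S : Set ℂ) (a : ℝ) : Prop :=
  ∀ ε : ℝ, 0 < ε → ∃ K : ℝ, ∀ (x : ℂ) (r h : ℝ), 0 < r → r ≤ 1 → r ≤ h →
    ∃ T : Finset ℂ, (T.card : ℝ) ≤ K * r ^ (-ε) * (h / r) ^ a ∧
      S ∩ closedBall x h ⊆ ⋃ y ∈ T, closedBall y r

theorem Reg.mono {S : Set ℂ} {a a' : ℝ} (h : Reg S a) (ha : a ≤ a') : Reg S a' := by
  intro ε hε
  obtain ⟨K, hK⟩ := h ε hε
  refine ⟨max K 0, fun x r h' hr hr1 hh => ?_⟩
  obtain ⟨T, h1, h2⟩ := hK x r h' hr hr1 hh
  have hp : 0 < h' / r := div_pos (hr.trans_le hh) hr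
  refine ⟨T, h1.trans ?_, h2⟩
  calc K * r ^ (-ε) * (h' / r) ^ a ≤ max K 0 * r ^ (-ε) * (h' / r) ^ a := by
        gcongr; exact le_max_left _ _
    _ ≤ max K 0 * r ^ (-ε) * (h' / r) ^ a' := by
        have : 0 ≤ max K 0 := le_max_right _ _
        apply mul_le_mul_of_nonneg_left _ (by positivity)
        exact Real.rpow_le_rpow_of_exponent_le (by rwa [le_div_iff₀ hr, one_mul]) ha

/-- Rounding to the grid `η ℤ[i]`. -/
noncomputable def gp (η : ℝ) (k : ℤ × ℤ) : ℂ := ⟨η * k.1, η * k.2⟩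

/-- The grid square of a point. -/
noncomputable def gi (η : ℝ) (z : ℂ) : ℤ × ℤ := (⌊z.re / η⌋, ⌊z.im / η⌋)

theorem gi_bd {η : ℝ} (hη : 0 < η) (z : ℂ) :
    (η * (gi η z).1 ≤ z.re ∧ z.re ≤ η * (gi η z).1 + η) ∧
    (η * (gi η z).2 ≤ z.im ∧ z.im ≤ η * (gi η z).2 + η) := by
  have f1 := Int.floor_le (z.re / η)
  have f2 := (Int.lt_floor_add_one (z.re / η)).le
  have f3 := Int.floor_le (z.im / η)
  have f4 := (Int.lt_floor_add_one (z.im / η)).le
  rw [le_div_iff₀ hη] at f1 f3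
  rw [div_le_iff₀ hη] at f2 f4
  unfold gi
  refine ⟨⟨?_, ?_⟩, ?_, ?_⟩ <;> dsimp only <;> nlinarith

theorem gp_dist {η : ℝ} (hη : 0 < η) (z : ℂ) : dist z (gp η (gi η z)) ≤ 2 * η := by
  rw [dist_eq_norm]
  refine (Complex.norm_le_abs_re_add_abs_im _).trans ?_
  obtain ⟨⟨a1, a2⟩, a3, a4⟩ := gi_bd hη z
  rw [Complex.sub_re, Complex.sub_im]
  have h1 : |z.re - (gp η (gi η z)).re| ≤ η := by
    rw [abs_le]; unfold gp; constructor <;> dsimp only <;> linarith
  have h2 : |z.im - (gp η (gi η z)).im| ≤ η := by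
    rw [abs_le]; unfold gp; constructor <;> dsimp only <;> linarith
  linarith

theorem gi_dist {η : ℝ} (hη : 0 < η) {z w : ℂ} (h : gi η z = gi η w) : dist z w ≤ 2 * η := by
  rw [dist_eq_norm]
  refine (Complex.norm_le_abs_re_add_abs_im _).trans ?_
  obtain ⟨⟨a1, a2⟩, a3, a4⟩ := gi_bd hη z
  obtain ⟨⟨b1, b2⟩, b3, b4⟩ := gi_bd hη w
  rw [h] at a1 a2 a3 a4
  rw [Complex.sub_re, Complex.sub_im]
  have h1 : |z.re - w.re| ≤ η := by rw [abs_le]; constructor <;> linarith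
  have h2 : |z.im - w.im| ≤ η := by rw [abs_le]; constructor <;> linarith
  linarith

/-- The box of grid indices. -/
noncomputable def gbox (P : ℕ) : Finset (ℤ × ℤ) := Finset.Icc (-(P:ℤ)) P ×ˢ Finset.Icc (-(P:ℤ)) P

theorem gbox_card (P : ℕ) : ((gbox P).card : ℝ) = (2 * P + 1) ^ 2 := by
  unfold gbox
  rw [Finset.card_product, Int.card_Icc]
  have : (P + 1 - -(P:ℤ)).toNat = 2 * P + 1 := by omega
  rw [this]
  push_cast
  ring

theorem gi_mem {η L : ℝ} (hη : 0 < η) {z : ℂ} (hz : ‖z‖ ≤ L) : gi η z ∈ gbox (⌊L / η⌋₊ + 1) := by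
  have hL : 0 ≤ L := (norm_nonneg z).trans hz
  have key : ∀ x : ℝ, |x| ≤ L → ⌊x / η⌋ ∈ Finset.Icc (-((⌊L / η⌋₊ + 1 : ℕ):ℤ)) ((⌊L / η⌋₊ + 1 : ℕ) : ℤ) := by
    intro x hx
    rw [abs_le] at hx
    have e : ((⌊L / η⌋₊ : ℕ) : ℤ) = ⌊L / η⌋ := Int.natCast_floor_eq_floor (by positivity)
    rw [Finset.mem_Icc]
    push_cast
    rw [e]
    constructor
    · apply Int.le_floor.2
      push_cast
      have h1 := Int.lt_floor_add_one (L / η)
      have h2 : -(L / η) ≤ x / η := by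
        rw [← neg_div]; exact div_le_div_of_nonneg_right hx.1 hη.le
      linarith
    · have : ⌊x / η⌋ ≤ ⌊L / η⌋ := Int.floor_le_floor (div_le_div_of_nonneg_right hx.2 hη.le)
      omega
  unfold gbox
  rw [Finset.mem_product]
  exact ⟨key _ ((Complex.abs_re_le_norm z).trans hz), key _ ((Complex.abs_im_le_norm z).trans hz)⟩

open Classical in
/-- Number of the grid squares met by a disc. -/
theorem gi_count {η : ℝ} (hη : 0 < η) (Q : Finset (ℤ × ℤ)) (y : ℂ)
    (h : ∀ k ∈ Q, ∃ z : ℂ, dist z y ≤ η ∧ gi η z = k) : (Q.card : ℝ) ≤ 16 := by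
  have hsub : Q ⊆ Finset.Icc ((gi η y).1 - 1) ((gi η y).1 + 2) ×ˢ
      Finset.Icc ((gi η y).2 - 1) ((gi η y).2 + 2) := by
    intro k hk
    obtain ⟨z, hz, rfl⟩ := h k hk
    rw [dist_eq_norm] at hz
    have h1 := (Complex.abs_re_le_norm (z - y)).trans hz
    have h2 := (Complex.abs_im_le_norm (z - y)).trans hz
    rw [Complex.sub_re, abs_le] at h1
    rw [Complex.sub_im, abs_le] at h2
    have key : ∀ s t : ℝ, s - t ≤ η → -η ≤ s - t → ⌊s / η⌋ ∈ Finset.Icc (⌊t / η⌋ - 1) (⌊t / η⌋ + 2) := by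
      intro s t h3 h4
      rw [Finset.mem_Icc]
      constructor
      · apply Int.le_floor.2
        push_cast
        have h5 := Int.floor_le (t / η)
        have h6 : t / η - 1 ≤ s / η := by
          rw [le_div_iff₀ hη, sub_mul, div_mul_cancel₀ _ hη.ne']; linarith
        linarith
      · have h5 : s / η ≤ t / η + 1 := by
          rw [div_le_iff₀ hη, add_mul, div_mul_cancel₀ _ hη.ne']; linarith
        have h6 : ⌊s / η⌋ ≤ ⌊t / η + 1⌋ := Int.floor_le_floor h5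
        rw [Int.floor_add_one] at h6
        omega
    rw [Finset.mem_product]
    exact ⟨key _ _ h1.2 h1.1, key _ _ h2.2 h2.1⟩
  have h1 := Finset.card_le_card hsub
  rw [Finset.card_product, Int.card_Icc, Int.card_Icc] at h1
  have e1 : ((gi η y).1 + 2 + 1 - ((gi η y).1 - 1)).toNat = 4 := by omega
  have e2 : ((gi η y).2 + 2 + 1 - ((gi η y).2 - 1)).toNat = 4 := by omega
  rw [e1, e2] at h1
  exact_mod_cast h1

open Classical in
/-- Nets of a regular set. -/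
theorem net_of {S : Set ℂ} {a K r : ℝ} (hr : 0 < r)
    (h : ∀ (x : ℂ) (h : ℝ), r ≤ h → ∃ T : Finset ℂ, (T.card : ℝ) ≤ K * (h / r) ^ a ∧
      S ∩ closedBall x h ⊆ ⋃ y ∈ T, closedBall y r) (L : ℝ) :
    ∃ N : Finset ℂ, (∀ z ∈ S, ‖z‖ ≤ L → ∃ y ∈ N, dist z y ≤ 2 * r) ∧
      ∀ (x : ℂ) (h : ℝ), r ≤ h →
        ((N.filter (fun y => dist y x ≤ h)).card : ℝ) ≤ 16 * K * (h / r) ^ a := by
  -- choose a point of `S` in every square of the grid
  set B : Finset (ℤ × ℤ) := (gbox (⌊L / r⌋₊ + 1)).filter (fun k => ∃ z ∈ S, gi r z = k) with hB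
  have hch : ∀ k ∈ B, ∃ z ∈ S, gi r z = k := fun k hk => (Finset.mem_filter.1 hk).2
  choose! p hpS hpg using hch
  refine ⟨B.image p, ?_, ?_⟩
  · intro z hz hzL
    have hk : gi r z ∈ B := Finset.mem_filter.2 ⟨gi_mem hr hzL, z, hz, rfl⟩
    exact ⟨p (gi r z), Finset.mem_image_of_mem p hk, gi_dist hr (hpg _ hk).symm⟩
  · intro x h' hh
    obtain ⟨T, hT1, hT2⟩ := h x h' hh
    -- the squares
    set Q : Finset (ℤ × ℤ) := B.filter (fun k => dist (p k) x ≤ h') with hQ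
    have h1 : ((B.image p).filter (fun y => dist y x ≤ h')).card ≤ Q.card := by
      have : (B.image p).filter (fun y => dist y x ≤ h') ⊆ Q.image p := by
        intro y hy
        rw [Finset.mem_filter, Finset.mem_image] at hy
        obtain ⟨⟨k, hk, rfl⟩, hy2⟩ := hy
        exact Finset.mem_image_of_mem p (Finset.mem_filter.2 ⟨hk, hy2⟩)
      exact (Finset.card_le_card this).trans Finset.card_image_le
    have h2 : Q ⊆ T.biUnion (fun y => Q.filter (fun k => dist (p k) y ≤ r)) := by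
      intro k hk
      have hk' := Finset.mem_filter.1 hk
      obtain ⟨y, hy, hky⟩ := mem_iUnion₂.1 (hT2 ⟨hpS k hk'.1, mem_closedBall.2 hk'.2⟩)
      exact Finset.mem_biUnion.2 ⟨y, hy, Finset.mem_filter.2 ⟨hk, mem_closedBall.1 hky⟩⟩
    have h3 : ∀ y ∈ T, ((Q.filter (fun k => dist (p k) y ≤ r)).card : ℝ) ≤ 16 := by
      intro y _
      apply gi_count hr _ y
      intro k hk
      have hk' := Finset.mem_filter.1 hk
      exact ⟨p k, hk'.2, hpg k (Finset.mem_filter.1 hk'.1).1⟩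
    have h4 : (Q.card : ℝ) ≤ T.card * 16 := by
      calc (Q.card : ℝ) ≤ ((T.biUnion (fun y => Q.filter (fun k => dist (p k) y ≤ r))).card : ℝ) := by
            exact_mod_cast Finset.card_le_card h2
        _ ≤ ∑ y ∈ T, ((Q.filter (fun k => dist (p k) y ≤ r)).card : ℝ) := by
            exact_mod_cast Finset.card_biUnion_le
        _ ≤ ∑ y ∈ T, (16:ℝ) := Finset.sum_le_sum h3
        _ = T.card * 16 := by rw [Finset.sum_const, nsmul_eq_mul]
    calc (((B.image p).filter (fun y => dist y x ≤ h')).card : ℝ) ≤ Q.card := by exact_mod_cast h1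
      _ ≤ T.card * 16 := h4
      _ ≤ (K * (h' / r) ^ a) * 16 := by gcongr
      _ = 16 * K * (h' / r) ^ a := by ring

/-- The affine maps of the plane. -/
noncomputable def aff (α γ β z : ℂ) : ℂ := α * z + γ * (starRingEnd ℂ) z + β

theorem aff_sub (α γ β z w : ℂ) :
    aff α γ β z - aff α γ β w = α * (z - w) + γ * (starRingEnd ℂ) (z - w) := by
  unfold aff; rw [map_sub]; ring

theorem aff_up {α γ β z w : ℂ} {m : ℝ} (hα : ‖α‖ ≤ m) (hγ : ‖γ‖ ≤ m) :
    dist (aff α γ β z) (aff α γ β w) ≤ 2 * m * dist z w := by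
  rw [dist_eq_norm, dist_eq_norm, aff_sub]
  refine (norm_add_le _ _).trans ?_
  rw [norm_mul, norm_mul, RCLike.norm_conj]
  have := norm_nonneg (z - w)
  nlinarith

theorem aff_low {α γ β z w : ℂ} {c : ℝ} (h : c ≤ |‖α‖ - ‖γ‖|) :
    c * dist z w ≤ dist (aff α γ β z) (aff α γ β w) := by
  rw [dist_eq_norm, dist_eq_norm, aff_sub]
  have h1 : |‖α * (z - w)‖ - ‖γ * (starRingEnd ℂ) (z - w)‖| ≤
      ‖α * (z - w) + γ * (starRingEnd ℂ) (z - w)‖ := by
    have := abs_norm_sub_norm_le (α * (z - w)) (-(γ * (starRingEnd ℂ) (z - w)))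
    rwa [norm_neg, sub_neg_eq_add] at this
  refine le_trans ?_ h1
  rw [norm_mul, norm_mul, RCLike.norm_conj, ← sub_mul, abs_mul, abs_of_nonneg (norm_nonneg _)]
  exact mul_le_mul_of_nonneg_right h (norm_nonneg _)

theorem aff_par (α γ β α' γ' β' z : ℂ) {η L : ℝ} (h1 : dist α α' ≤ η) (h2 : dist γ γ' ≤ η)
    (h3 : dist β β' ≤ η) (hz : ‖z‖ ≤ L) (hη : 0 ≤ η) :
    dist (aff α γ β z) (aff α' γ' β' z) ≤ η * (2 * L + 1) := by
  rw [dist_eq_norm] at *
  have e : aff α γ β z - aff α' γ' β' z =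
      (α - α') * z + (γ - γ') * (starRingEnd ℂ) z + (β - β') := by
    unfold aff; ring
  rw [e]
  refine (norm_add₃_le).trans ?_
  rw [norm_mul, norm_mul, RCLike.norm_conj]
  have := norm_nonneg z
  have a1 : ‖α - α'‖ * ‖z‖ ≤ η * L := mul_le_mul h1 hz this hη
  have a2 : ‖γ - γ'‖ * ‖z‖ ≤ η * L := mul_le_mul h2 hz this hη
  linarith

/-- Affine copies of `S`, with bounded parameters. -/
def Cop (S : Set ℂ) (m : ℝ) : Set (Set ℂ) :=
  {S' | ∃ α γ β : ℂ, ‖α‖ ≤ m ∧ ‖γ‖ ≤ m ∧ ‖β‖ ≤ m ∧ 1 / m ≤ |‖α‖ - ‖γ‖| ∧ S' = aff α γ β '' S}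

theorem D_norm (R : Rect) {z : ℂ} (hz : z ∈ R.D) : ‖z‖ ≤ R.A + R.B + R.H + 1 := by
  have h : z ∈ Dep R 0 := by
    obtain ⟨h1, h2, h3, h4⟩ := hz
    refine ⟨?_, ?_, ?_, ?_⟩ <;> linarith
  have := dep_zero_norm R h
  rwa [dist_zero_right] at this

theorem cop_ent (R : Rect) {S : Set ℂ} {a m : ℝ} (h : Reg S a) (hm : 1 ≤ m) :
    Ent R (Cop S m) a := by
  classical
  intro ε hε
  obtain ⟨K, hKr⟩ := h ε hε
  have hK : 0 ≤ K := by
    obtain ⟨T, h1, -⟩ := hKr 0 1 1 one_pos le_rfl le_rfl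
    rw [div_one, Real.one_rpow, Real.one_rpow, mul_one, mul_one] at h1
    exact (Nat.cast_nonneg _).trans h1
  obtain ⟨L, hL⟩ : ∃ L : ℝ, L = R.A + R.B + R.H + 1 := ⟨_, rfl⟩
  have hL1 : 1 ≤ L := by have := R.hA; have := R.hB; have := R.hH; linarith
  have hm0 : 0 < m := by linarith
  obtain ⟨L', hL'⟩ : ∃ L' : ℝ, L' = m * (L + m) := ⟨_, rfl⟩
  have hL'm : m ≤ L' := by rw [hL']; nlinarith
  have hL'0 : 0 < L' := by linarith
  obtain ⟨K2, hK2⟩ : ∃ K2 : ℝ, K2 = (8 * m * (2 * L' + 1) + 3) ^ 6 := ⟨_, rfl⟩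
  obtain ⟨K3, hK3⟩ : ∃ K3 : ℝ, K3 = 16 * (K * (8 * (m + 1)) ^ ε) * (32 * m * (m + 1)) ^ a :=
    ⟨_, rfl⟩
  have hK20 : 0 ≤ K2 := by rw [hK2]; positivity
  have hK30 : 0 ≤ K3 := by rw [hK3]; positivity
  refine ⟨K2 + K3, 6, fun r hr hr1 => ?_⟩
  obtain ⟨r', hr'⟩ : ∃ r' : ℝ, r' = r / (8 * (m + 1)) := ⟨_, rfl⟩
  have hr'0 : 0 < r' := by rw [hr']; positivity
  have hr'1 : r' ≤ 1 := by
    rw [hr', div_le_one (by positivity)]; linarith
  have hr'e : r' ^ (-ε) = (8 * (m + 1)) ^ ε * r ^ (-ε) := by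
    rw [hr', Real.div_rpow hr.le (by positivity), Real.rpow_neg (show 0 ≤ 8 * (m + 1) by positivity),
      div_inv_eq_mul, mul_comm]
  obtain ⟨N, hN1, hN2⟩ := net_of hr'0 (fun x h hh => hKr x r' h hr'0 hr'1 hh) L'
  obtain ⟨η, hη⟩ : ∃ η : ℝ, η = r / (4 * (2 * L' + 1)) := ⟨_, rfl⟩
  have hη0 : 0 < η := by rw [hη]; positivity
  have hη1 : 4 * η * (2 * L' + 1) = r := by rw [hη]; field_simp
  have hη2 : 4 * η ≤ 1 / (2 * m) := by
    rw [le_div_iff₀ (by positivity)]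
    have : 4 * η * (2 * m) ≤ 4 * η * (2 * L' + 1) := by gcongr; linarith
    linarith
  have hη3 : 4 * η ≤ 1 := by
    refine hη2.trans ?_
    rw [div_le_one (by positivity)]; linarith
  obtain ⟨P, hP⟩ : ∃ P : ℕ, P = ⌊m / η⌋₊ + 1 := ⟨_, rfl⟩
  obtain ⟨G, hG⟩ : ∃ G : Finset ((ℤ × ℤ) × (ℤ × ℤ) × (ℤ × ℤ)),
    G = (gbox P ×ˢ gbox P ×ˢ gbox P).filter
      (fun k => 1 / (2 * m) ≤ |‖gp η k.1‖ - ‖gp η k.2.1‖|) := ⟨_, rfl⟩
  refine ⟨G.image (fun k => N.image (aff (gp η k.1) (gp η k.2.1) (gp η k.2.2))), ?_, ?_, ?_⟩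
  · have h1 : ((G.image (fun k => N.image (aff (gp η k.1) (gp η k.2.1) (gp η k.2.2)))).card : ℝ) ≤
        ((gbox P ×ˢ gbox P ×ˢ gbox P).card : ℝ) := by
      rw [hG]
      exact_mod_cast Finset.card_image_le.trans (Finset.card_filter_le _ _)
    refine h1.trans ?_
    rw [Finset.card_product, Finset.card_product]
    push_cast
    rw [gbox_card]
    have h2 : (P : ℝ) ≤ m / η + 1 := by
      rw [hP]; push_cast
      have := Nat.floor_le (show 0 ≤ m / η by positivity)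
      linarith
    have h3 : m / η = 4 * m * (2 * L' + 1) / r := by rw [hη]; field_simp
    have h4 : (2 * (P:ℝ) + 1) ≤ (8 * m * (2 * L' + 1) + 3) / r := by
      rw [h3] at h2
      have h5 : 3 ≤ 3 / r := by rw [le_div_iff₀ hr]; linarith
      have h6 : (8 * m * (2 * L' + 1) + 3) / r = 2 * (4 * m * (2 * L' + 1) / r) + 3 / r := by ring
      rw [h6]
      linarith
    calc (2 * (P:ℝ) + 1) ^ 2 * ((2 * (P:ℝ) + 1) ^ 2 * (2 * (P:ℝ) + 1) ^ 2)
        = (2 * (P:ℝ) + 1) ^ 6 := by ring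
      _ ≤ ((8 * m * (2 * L' + 1) + 3) / r) ^ 6 := by gcongr
      _ = K2 * r ^ (-(6:ℝ)) := by
          rw [div_pow, hK2, Real.rpow_neg hr.le, div_eq_mul_inv]
          congr 2
          rw [← Real.rpow_natCast]; norm_num
      _ ≤ (K2 + K3) * r ^ (-(6:ℝ)) := by gcongr; linarith
  · intro A hA z h' hh
    rw [Finset.mem_image] at hA
    obtain ⟨k, hk, rfl⟩ := hA
    rw [hG] at hk
    have hk' := (Finset.mem_filter.1 hk).2
    obtain ⟨φ, hφ⟩ : ∃ φ : ℂ → ℂ, φ = aff (gp η k.1) (gp η k.2.1) (gp η k.2.2) := ⟨_, rfl⟩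
    rw [← hφ]
    have h1 : (((N.image φ).filter (fun y => dist y z ≤ h')).card : ℝ) ≤
        ((N.filter (fun n => dist (φ n) z ≤ h')).card : ℝ) := by
      have : (N.image φ).filter (fun y => dist y z ≤ h') ⊆
          (N.filter (fun n => dist (φ n) z ≤ h')).image φ := by
        intro y hy
        rw [Finset.mem_filter, Finset.mem_image] at hy
        obtain ⟨⟨n, hn, rfl⟩, hy2⟩ := hy
        exact Finset.mem_image_of_mem φ (Finset.mem_filter.2 ⟨hn, hy2⟩)
      exact_mod_cast (Finset.card_le_card this).trans Finset.card_image_le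
    refine h1.trans ?_
    have hh0 : 0 < h' := hr.trans_le hh
    rcases (N.filter (fun n => dist (φ n) z ≤ h')).eq_empty_or_nonempty with h0 | ⟨n0, hn0⟩
    · rw [h0, Finset.card_empty]
      push_cast
      positivity
    · have hn0' := (Finset.mem_filter.1 hn0).2
      have hsub : N.filter (fun n => dist (φ n) z ≤ h') ⊆
          N.filter (fun n => dist n n0 ≤ 4 * m * h') := by
        intro n hn
        have hn' := Finset.mem_filter.1 hn
        refine Finset.mem_filter.2 ⟨hn'.1, ?_⟩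
        have h2 := aff_low (β := gp η k.2.2) (z := n) (w := n0) hk'
        rw [← hφ] at h2
        have h3 : dist (φ n) (φ n0) ≤ 2 * h' := by
          have := dist_triangle_right (φ n) (φ n0) z
          linarith [hn'.2]
        have h4 : 1 / (2 * m) * dist n n0 ≤ 2 * h' := h2.trans h3
        rw [one_div, inv_mul_le_iff₀ (by positivity)] at h4
        linarith
      have h5 := hN2 n0 (4 * m * h') (by
        rw [hr', div_le_iff₀ (by positivity)]
        nlinarith [mul_pos hm0 hh0])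
      calc ((N.filter (fun n => dist (φ n) z ≤ h')).card : ℝ) ≤
            ((N.filter (fun n => dist n n0 ≤ 4 * m * h')).card : ℝ) := by
              exact_mod_cast Finset.card_le_card hsub
        _ ≤ 16 * (K * r' ^ (-ε)) * (4 * m * h' / r') ^ a := h5
        _ = K3 * r ^ (-ε) * (h' / r) ^ a := by
            have : 4 * m * h' / r' = (32 * m * (m + 1)) * (h' / r) := by
              rw [hr']; field_simp; ring
            rw [this, Real.mul_rpow (by positivity) (by positivity), hK3, hr'e]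
            ring
        _ ≤ (K2 + K3) * r ^ (-ε) * (h' / r) ^ a := by gcongr; linarith
  · rintro S' ⟨α, γ, β, hα, hγ, hβ, hdet, rfl⟩
    have p1 := gp_dist hη0 α
    have p2 := gp_dist hη0 γ
    have p3 := gp_dist hη0 β
    have q1 : |‖α‖ - ‖gp η (gi η α)‖| ≤ 2 * η :=
      (abs_norm_sub_norm_le _ _).trans (by rwa [← dist_eq_norm])
    have q2 : |‖γ‖ - ‖gp η (gi η γ)‖| ≤ 2 * η :=
      (abs_norm_sub_norm_le _ _).trans (by rwa [← dist_eq_norm])
    have hdet' : 1 / (2 * m) ≤ |‖gp η (gi η α)‖ - ‖gp η (gi η γ)‖| := by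
      have t : |‖α‖ - ‖γ‖| ≤ |‖gp η (gi η α)‖ - ‖gp η (gi η γ)‖| + 4 * η := by
        have e : ‖α‖ - ‖γ‖ = (‖gp η (gi η α)‖ - ‖gp η (gi η γ)‖) +
          ((‖α‖ - ‖gp η (gi η α)‖) - (‖γ‖ - ‖gp η (gi η γ)‖)) := by ring
        rw [e]
        refine (abs_add_le _ _).trans ?_
        have := abs_sub (‖α‖ - ‖gp η (gi η α)‖) (‖γ‖ - ‖gp η (gi η γ)‖)
        linarith
      have e2 : 1 / m = 1 / (2 * m) + 1 / (2 * m) := by field_simp; norm_num
      linarith
    have m1 : gi η α ∈ gbox P := by rw [hP]; exact gi_mem hη0 hα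
    have m2 : gi η γ ∈ gbox P := by rw [hP]; exact gi_mem hη0 hγ
    have m3 : gi η β ∈ gbox P := by rw [hP]; exact gi_mem hη0 hβ
    have hk : ((gi η α, gi η γ, gi η β) : (ℤ × ℤ) × (ℤ × ℤ) × (ℤ × ℤ)) ∈ G := by
      rw [hG, Finset.mem_filter, Finset.mem_product, Finset.mem_product]
      exact ⟨⟨m1, m2, m3⟩, hdet'⟩
    refine ⟨_, Finset.mem_image_of_mem _ hk, ?_⟩
    rintro _ ⟨⟨w, hw, rfl⟩, hwD⟩
    have hwL : ‖w‖ ≤ L' := by
      have h1 := aff_low (β := β) (z := w) (w := 0) hdet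
      have h2 : aff α γ β 0 = β := by unfold aff; simp
      rw [h2, dist_zero_right] at h1
      have h3 : dist (aff α γ β w) β ≤ L + m := by
        rw [dist_eq_norm]
        exact (norm_sub_le _ _).trans (add_le_add ((D_norm R hwD).trans hL.ge) hβ)
      have h4 : 1 / m * ‖w‖ ≤ L + m := h1.trans h3
      rw [one_div, inv_mul_le_iff₀ hm0] at h4
      rw [hL']
      exact h4
    obtain ⟨n, hn, hwn⟩ := hN1 w hw hwL
    refine ⟨_, Finset.mem_image_of_mem _ hn, ?_⟩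
    have b1 : ‖gp η (gi η α)‖ ≤ m + 1 := by
      have := (abs_le.1 q1).1
      linarith
    have b2 : ‖gp η (gi η γ)‖ ≤ m + 1 := by
      have := (abs_le.1 q2).1
      linarith
    have t1 := aff_par α γ β _ _ _ w p1 p2 p3 hwL (by positivity)
    have t2 := aff_up (β := gp η (gi η β)) (z := w) (w := n) b1 b2
    have t3 : 2 * (m + 1) * dist w n ≤ r / 2 := by
      calc 2 * (m + 1) * dist w n ≤ 2 * (m + 1) * (2 * r') := by gcongr
        _ = r / 2 := by rw [hr']; field_simp; norm_num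
    have t4 := dist_triangle (aff α γ β w) (aff (gp η (gi η α)) (gp η (gi η γ)) (gp η (gi η β)) w)
      (aff (gp η (gi η α)) (gp η (gi η γ)) (gp η (gi η β)) n)
    have t5 : 2 * η * (2 * L' + 1) = r / 2 := by linarith
    linarith

theorem Ent.mono {R : Rect} {𝓢 𝓢' : Set (Set ℂ)} {a : ℝ} (h : Ent R 𝓢' a)
    (hs : ∀ S ∈ 𝓢, ∃ S' ∈ 𝓢', S ∩ R.D ⊆ S') : Ent R 𝓢 a := by
  intro ε hε
  obtain ⟨K, c, hK⟩ := h ε hε
  refine ⟨K, c, fun r hr hr1 => ?_⟩
  obtain ⟨𝒜, h1, h2, h3⟩ := hK r hr hr1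
  refine ⟨𝒜, h1, h2, fun S hS => ?_⟩
  obtain ⟨S', hS', hsub⟩ := hs S hS
  obtain ⟨A, hA, hA'⟩ := h3 S' hS'
  exact ⟨A, hA, fun z hz => hA' z ⟨hsub hz, hz.2⟩⟩

/-- The imaginary axis is regular with exponent one. -/
theorem axis_reg : Reg (ln 1 0) 1 := by
  classical
  intro ε hε
  refine ⟨4, ?_⟩
  intro x r h hr hr1 hh
  refine ⟨(Finset.Icc ⌊(x.im - h) / r⌋ ⌊(x.im + h) / r⌋).image (fun k => gp r (0, k)), ?_, ?_⟩
  · have h1 : (((Finset.Icc ⌊(x.im - h) / r⌋ ⌊(x.im + h) / r⌋).image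
        (fun k => gp r (0, k))).card : ℝ) ≤
        ((Finset.Icc ⌊(x.im - h) / r⌋ ⌊(x.im + h) / r⌋).card : ℝ) := by
      exact_mod_cast Finset.card_image_le
    refine h1.trans ?_
    have h5 : (⌊(x.im - h) / r⌋ : ℤ) ≤ ⌊(x.im + h) / r⌋ + 1 := by
      have : ⌊(x.im - h) / r⌋ ≤ ⌊(x.im + h) / r⌋ :=
        Int.floor_le_floor (div_le_div_of_nonneg_right (by linarith) hr.le)
      omega
    have h6 := Int.card_Icc_of_le _ _ h5
    have h7 : ((Finset.Icc ⌊(x.im - h) / r⌋ ⌊(x.im + h) / r⌋).card : ℝ) =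
        ⌊(x.im + h) / r⌋ + 1 - ⌊(x.im - h) / r⌋ := by exact_mod_cast h6
    rw [h7, Real.rpow_one]
    have h8 := Int.floor_le ((x.im + h) / r)
    have h9 := Int.lt_floor_add_one ((x.im - h) / r)
    have h10 : (x.im + h) / r - (x.im - h) / r = 2 * (h / r) := by ring
    have h11 : 1 ≤ h / r := by rwa [le_div_iff₀ hr, one_mul]
    have h12 : 1 ≤ r ^ (-ε) :=
      Real.one_le_rpow_of_pos_of_le_one_of_nonpos hr hr1 (by linarith)
    have h13 : 4 * (h / r) ≤ 4 * r ^ (-ε) * (h / r) := by nlinarith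
    linarith
  · rintro z ⟨hz, hzx⟩
    have hz0 : z.re = 0 := by
      have : ((starRingEnd ℂ) 1 * z).re = 0 := hz
      rwa [map_one, one_mul] at this
    have h1 : |z.im - x.im| ≤ h := by
      have h2 := Complex.abs_im_le_norm (z - x)
      rw [Complex.sub_im] at h2
      exact h2.trans (by rw [← dist_eq_norm]; exact mem_closedBall.1 hzx)
    rw [abs_le] at h1
    refine mem_iUnion₂.2 ⟨gp r (0, ⌊z.im / r⌋), ?_, ?_⟩
    · refine Finset.mem_image_of_mem _ (Finset.mem_Icc.2 ⟨?_, ?_⟩)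
      · exact Int.floor_le_floor (div_le_div_of_nonneg_right (by linarith) hr.le)
      · exact Int.floor_le_floor (div_le_div_of_nonneg_right (by linarith) hr.le)
    · rw [mem_closedBall, dist_eq_norm]
      have f3 := Int.floor_le (z.im / r)
      have f4 := (Int.lt_floor_add_one (z.im / r)).le
      rw [le_div_iff₀ hr] at f3
      rw [div_le_iff₀ hr] at f4
      refine (Complex.norm_le_abs_re_add_abs_im _).trans ?_
      have e1 : (z - gp r (0, ⌊z.im / r⌋)).re = 0 := by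
        unfold gp; rw [Complex.sub_re, hz0]; simp
      have e2 : (z - gp r (0, ⌊z.im / r⌋)).im = z.im - r * ⌊z.im / r⌋ := by
        unfold gp; rw [Complex.sub_im]
      rw [e1, e2, abs_zero, zero_add, abs_le]
      constructor <;> linarith

theorem lines_ent (R : Rect) : Ent R Lines 1 := by
  set m : ℝ := R.A + R.B + R.H + 1 with hm
  have hm1 : 1 ≤ m := by have := R.hA; have := R.hB; have := R.hH; linarith
  refine (cop_ent R axis_reg hm1).mono ?_
  rintro S ⟨u, x, hu, rfl⟩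
  by_cases hx : |x| ≤ m
  · refine ⟨aff u 0 (x * u) '' ln 1 0, ⟨u, 0, x * u, by rw [hu]; exact hm1, ?_, ?_, ?_, rfl⟩, ?_⟩
    · rw [norm_zero]; linarith
    · rw [norm_mul, hu, mul_one, Complex.norm_real, Real.norm_eq_abs]; exact hx
    · rw [hu, norm_zero, sub_zero, abs_one, div_le_one (by linarith)]; exact hm1
    · rintro z ⟨hz, -⟩
      have hz' : ((starRingEnd ℂ) u * z).re = x := hz
      have huu : u * (starRingEnd ℂ) u = 1 := by
        rw [mul_comm, ← Complex.normSq_eq_conj_mul_self, Complex.normSq_eq_norm_sq, hu]; norm_num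
      refine ⟨(starRingEnd ℂ) u * z - x, ?_, ?_⟩
      · show ((starRingEnd ℂ) 1 * ((starRingEnd ℂ) u * z - x)).re = 0
        rw [map_one, one_mul, Complex.sub_re, hz', Complex.ofReal_re, sub_self]
      · unfold aff
        rw [zero_mul, add_zero, mul_sub, ← mul_assoc, huu, one_mul]
        ring
  · refine ⟨aff 1 0 0 '' ln 1 0, ⟨1, 0, 0, by rw [norm_one]; exact hm1, by rw [norm_zero]; linarith,
      by rw [norm_zero]; linarith, ?_, rfl⟩, ?_⟩
    · rw [norm_one, norm_zero, sub_zero, abs_one, div_le_one (by linarith)]; exact hm1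
    · rintro z ⟨hz, hzD⟩
      exfalso
      apply hx
      have hz' : ((starRingEnd ℂ) u * z).re = x := hz
      rw [← hz']
      refine (Complex.abs_re_le_norm _).trans ?_
      rw [norm_mul, RCLike.norm_conj, hu, one_mul]
      exact D_norm R hzD

end Pool.Agent.N892.AC
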