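import Pool.Agent.N892.UP.Gauge

/-!
Hausdorff dimension of a set from the dimension of its image, when the inverse images of small sets
have small covers.
-/

set_option autoImplicit false

namespace Pool.Agent.N892.AC

open MeasureTheory Metric Set Filter Topology ENNReal NNReal

section
variable {X Y : Type*} [EMetricSpace X] [EMetricSpace Y]
  [MeasurableSpace X] [BorelSpace X] [MeasurableSpace Y] [BorelSpace Y]

theorem gauge_down_on {F : X → Y} {g G : ℝ≥0∞ → ℝ≥0∞} {K : Set X}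
    (h0 : ∀ r : ℝ≥0∞, 0 < r → ∃ d : ℝ≥0∞, 0 < d ∧ ∀ A : Set Y, ediam A ≤ d →
      OuterMeasure.mkMetric'.pre (fun s => g (ediam s)) r (F ⁻¹' A ∩ K) ≤ G (ediam A))
    {E : Set X} (hE : E ⊆ K) :
    Measure.mkMetric g E ≤ Measure.mkMetric G (F '' E) := by
  rw [← OuterMeasure.coe_mkMetric, ← OuterMeasure.coe_mkMetric]
  have h1 : OuterMeasure.mkMetric g E =
      ⨆ (r : ℝ≥0∞) (_ : 0 < r), OuterMeasure.mkMetric'.pre (fun s => g (ediam s)) r E := by
    simp only [OuterMeasure.mkMetric, OuterMeasure.mkMetric', OuterMeasure.iSup_apply, gt_iff_lt]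
  rw [h1]
  refine iSup₂_le fun r hr => ?_
  obtain ⟨d, hd, hA⟩ := h0 r hr
  have h2 : OuterMeasure.map F (OuterMeasure.restrict K
      (OuterMeasure.mkMetric'.pre (fun s => g (ediam s)) r)) ≤ OuterMeasure.mkMetric G := by
    refine OuterMeasure.le_mkMetric _ _ d hd fun s hs => ?_
    rw [OuterMeasure.map_apply, OuterMeasure.restrict_apply]
    exact hA s hs
  refine le_trans ?_ (h2 (F '' E))
  rw [OuterMeasure.map_apply, OuterMeasure.restrict_apply]
  exact (OuterMeasure.mkMetric'.pre (fun s => g (ediam s)) r).mono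
    (subset_inter (subset_preimage_image F E) hE)

end

section
variable {X Y : Type*} [MetricSpace X] [MetricSpace Y]

/-- `B` is covered by at most `n` sets of diameter at most `ℓ`. -/
def Cv (B : Set X) (ℓ n : ℝ) : Prop :=
  ∃ (S : Finset ℤ) (U : ℤ → Set X), B ⊆ ⋃ i ∈ S, U i ∧
    (∀ i ∈ S, ediam (U i) ≤ ENNReal.ofReal ℓ) ∧ (S.card : ℝ) ≤ n

theorem Cv.mono {B B' : Set X} {ℓ ℓ' n n' : ℝ} (h : Cv B ℓ n) (hB : B' ⊆ B) (hℓ : ℓ ≤ ℓ')
    (hn : n ≤ n') : Cv B' ℓ' n' := by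
  obtain ⟨S, U, h1, h2, h3⟩ := h
  exact ⟨S, U, hB.trans h1, fun i hi => (h2 i hi).trans (ENNReal.ofReal_le_ofReal hℓ),
    h3.trans hn⟩

theorem dim_inv {F : X → Y} {K : Set X} {b c C d0 : ℝ} (hb : 0 ≤ b) (hc : 0 < c) (hC : 0 < C)
    (hd0 : 0 < d0)
    (h : ∀ d : ℝ, 0 < d → d ≤ d0 → ∀ J : Set Y, ediam J ≤ ENNReal.ofReal d →
      Cv (F ⁻¹' J ∩ K) (d ^ c) (C * d ^ (-b))) {E : Set X} (hE : E ⊆ K) :
    ENNReal.ofReal c * dimH E ≤ dimH (F '' E) + ENNReal.ofReal b := by
  borelize X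
  borelize Y
  rcases eq_or_ne (dimH (F '' E)) ⊤ with htop | htop
  · rw [htop, top_add]; exact le_top
  -- every larger exponent
  have key : ∀ s : ℝ≥0, dimH (F '' E) < s → dimH E ≤ ((s + b.toNNReal) / c.toNNReal : ℝ≥0) := by
    intro s hs
    have hs0 : 0 < s := by
      have : (0 : ℝ≥0∞) < s := lt_of_le_of_lt (zero_le) hs
      exact_mod_cast this
    set q : ℝ≥0 := (s + b.toNNReal) / c.toNNReal with hq
    have hc' : 0 < c.toNNReal := Real.toNNReal_pos.2 hc
    have hq0 : (0:ℝ) ≤ (q : ℝ) := q.2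
    have hqc : c * (q : ℝ) = s + b := by
      rw [hq, NNReal.coe_div, NNReal.coe_add, Real.coe_toNNReal _ hb, Real.coe_toNNReal _ hc.le]
      field_simp
    have h0 : μH[(s : ℝ)] (F '' E) = 0 := hausdorffMeasure_of_dimH_lt hs
    have hmono : Monotone (fun x : ℝ≥0∞ => x ^ (q : ℝ)) := fun x y hxy =>
      ENNReal.rpow_le_rpow hxy hq0
    have hpre : ∀ (d : ℝ) (J : Set Y) (r : ℝ≥0∞), 0 < d → d ≤ d0 → ediam J ≤ ENNReal.ofReal d →
        ENNReal.ofReal (d ^ c) ≤ r →
        OuterMeasure.mkMetric'.pre (fun s => (ediam s) ^ (q : ℝ)) r (F ⁻¹' J ∩ K) ≤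
          ENNReal.ofReal (C * d ^ (s : ℝ)) := by
      intro d J r hd hdd hJ hr
      obtain ⟨S, U, h1, h2, h3⟩ := h d hd hdd J hJ
      have h4 : (S.card : ℝ≥0∞) ≤ ENNReal.ofReal (C * d ^ (-b)) := by
        rw [← ENNReal.ofReal_natCast]
        exact ENNReal.ofReal_le_ofReal h3
      refine (UP.pre_cover hmono S U h1 h2 hr h4).trans (le_of_eq ?_)
      rw [ENNReal.ofReal_rpow_of_nonneg (by positivity) hq0, ← ENNReal.ofReal_mul (by positivity)]
      congr 1
      rw [← Real.rpow_mul hd.le, hqc, mul_assoc, ← Real.rpow_add hd]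
      congr 2
      ring
    have hle : Measure.mkMetric (fun x : ℝ≥0∞ => x ^ (q : ℝ)) E ≤
        Measure.mkMetric (fun x : ℝ≥0∞ => ENNReal.ofReal C * x ^ (s : ℝ)) (F '' E) := by
      refine gauge_down_on (K := K) (fun r hr => ?_) hE
      obtain ⟨r', hr', hr'r⟩ : ∃ r' : ℝ, 0 < r' ∧ ENNReal.ofReal r' ≤ r := by
        rcases eq_or_ne r ⊤ with rfl | hr2
        · exact ⟨1, one_pos, le_top⟩
        · exact ⟨r.toReal, ENNReal.toReal_pos hr.ne' hr2, ENNReal.ofReal_toReal_le⟩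
      have hpos : 0 < min d0 (r' ^ (1 / c)) := by positivity
      have hsmall : ∀ d : ℝ, 0 < d → d ≤ min d0 (r' ^ (1 / c)) → ENNReal.ofReal (d ^ c) ≤ r := by
        intro d hd hd'
        refine (ENNReal.ofReal_le_ofReal ?_).trans hr'r
        calc d ^ c ≤ (r' ^ (1 / c)) ^ c :=
              Real.rpow_le_rpow hd.le (hd'.trans (min_le_right _ _)) hc.le
          _ = r' := by rw [← Real.rpow_mul hr'.le, one_div_mul_cancel hc.ne', Real.rpow_one]
      refine ⟨ENNReal.ofReal (min d0 (r' ^ (1 / c))), ENNReal.ofReal_pos.2 hpos, fun A hA => ?_⟩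
      have hAtop : ediam A ≠ ⊤ := ne_top_of_le_ne_top ENNReal.ofReal_ne_top hA
      rcases eq_or_ne (ediam A) 0 with hA0 | hA0
      · have h5 : ∀ d : ℝ, 0 < d → d ≤ min d0 (r' ^ (1 / c)) →
            OuterMeasure.mkMetric'.pre (fun s => (ediam s) ^ (q : ℝ)) r (F ⁻¹' A ∩ K) ≤
              ENNReal.ofReal (C * d ^ (s : ℝ)) := fun d hd hd' =>
          hpre d A r hd (hd'.trans (min_le_left _ _)) (by rw [hA0]; exact zero_le)
            (hsmall d hd hd')
        have h6 : Tendsto (fun d : ℝ => ENNReal.ofReal (C * d ^ (s : ℝ))) (𝓝[>] 0) (𝓝 0) := by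
          have h7 : Tendsto (fun d : ℝ => C * d ^ (s : ℝ)) (𝓝[>] 0) (𝓝 (C * 0 ^ (s : ℝ))) := by
            refine ((Real.continuousAt_rpow_const 0 (s:ℝ) (Or.inr ?_)).tendsto.const_mul C).mono_left
              nhdsWithin_le_nhds
            exact s.2
          rw [Real.zero_rpow (by exact_mod_cast hs0.ne'), mul_zero] at h7
          have := ENNReal.tendsto_ofReal h7
          rwa [ENNReal.ofReal_zero] at this
        have h8 : OuterMeasure.mkMetric'.pre (fun s => (ediam s) ^ (q : ℝ)) r (F ⁻¹' A ∩ K) ≤ 0 := by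
          refine ge_of_tendsto h6 ?_
          filter_upwards [Ioc_mem_nhdsGT hpos] with d hd
          exact h5 d hd.1 hd.2
        exact h8.trans (zero_le)
      · set d : ℝ := (ediam A).toReal with hd
        have hd1 : 0 < d := ENNReal.toReal_pos hA0 hAtop
        have hdA : ENNReal.ofReal d = ediam A := ENNReal.ofReal_toReal hAtop
        have hd2 : d ≤ min d0 (r' ^ (1 / c)) := ENNReal.toReal_le_of_le_ofReal hpos.le hA
        refine (hpre d A r hd1 (hd2.trans (min_le_left _ _)) hdA.ge (hsmall d hd1 hd2)).trans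
          (le_of_eq ?_)
        show _ = ENNReal.ofReal C * ediam A ^ (s : ℝ)
        rw [ENNReal.ofReal_mul hC.le, ← hdA,
          ENNReal.ofReal_rpow_of_nonneg hd1.le (NNReal.coe_nonneg s)]
    have hzero : Measure.mkMetric (fun x : ℝ≥0∞ => ENNReal.ofReal C * x ^ (s : ℝ)) (F '' E) = 0 := by
      have h9 : Measure.mkMetric (fun x : ℝ≥0∞ => ENNReal.ofReal C * x ^ (s : ℝ)) ≤
          ENNReal.ofReal C • (Measure.mkMetric (fun x : ℝ≥0∞ => x ^ (s : ℝ)) : Measure Y) := by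
        refine Measure.mkMetric_mono_smul ENNReal.ofReal_ne_top (ENNReal.ofReal_pos.2 hC).ne' ?_
        exact Eventually.of_forall fun x => le_rfl
      have h10 := h9 (F '' E)
      rw [Measure.smul_apply] at h10
      have h11 : (Measure.mkMetric (fun x : ℝ≥0∞ => x ^ (s : ℝ)) : Measure Y) (F '' E) = 0 := h0
      rw [h11, smul_zero] at h10
      exact le_antisymm h10 (zero_le)
    rw [hzero] at hle
    have h12 : μH[(q : ℝ)] E = 0 := le_antisymm hle (zero_le)
    exact dimH_le_of_hausdorffMeasure_ne_top (by rw [h12]; exact ENNReal.zero_ne_top)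
  -- pass to the limit
  have hcc : ENNReal.ofReal c ≠ 0 := (ENNReal.ofReal_pos.2 hc).ne'
  refine ENNReal.le_of_forall_pos_le_add fun ε hε _ => ?_
  obtain ⟨t, ht⟩ : ∃ t : ℝ≥0, (t : ℝ≥0∞) = dimH (F '' E) := ⟨_, ENNReal.coe_toNNReal htop⟩
  have h1 := key (t + ε) (by rw [← ht]; exact_mod_cast lt_add_of_pos_right t hε)
  have hc' : 0 < c.toNNReal := Real.toNNReal_pos.2 hc
  calc ENNReal.ofReal c * dimH E ≤ ENNReal.ofReal c * ((t + ε + b.toNNReal) / c.toNNReal : ℝ≥0) := by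
        gcongr
    _ = ((t + ε + b.toNNReal : ℝ≥0) : ℝ≥0∞) := by
        rw [ENNReal.ofReal, ← ENNReal.coe_mul]
        congr 1
        field_simp
    _ = dimH (F '' E) + ENNReal.ofReal b + ε := by
        rw [← ht, ENNReal.ofReal]
        push_cast
        ring

end

end Pool.Agent.N892.AC
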