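import Pool.Agent.N892.AC.Strip
import Pool.Agent.N892.AC.Inv
import Pool.Agent.N892.UP.Cells

/-!
Deterministic consequences: dimensions of the images of sets of times.
-/

set_option autoImplicit false

namespace Pool.Agent.N892.AC

open H974 H984P H984N H443U H443P MeasureTheory Filter Topology Metric Set
open scoped ENNReal NNReal

theorem cells_cv {ℓ : ℝ} (hℓ : 0 < ℓ) {A B : Set unitInterval}
    (hAB : ∀ s ∈ A, ∀ t, dist s t ≤ ℓ → t ∈ B) {n : ℝ} (hn : 1 + (volume B).toReal / ℓ ≤ n) :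
    Cv A ℓ n := by
  obtain ⟨S, h1, -, h3⟩ := UP.cells_card hℓ A B hAB
  refine ⟨S, UP.cell ℓ, fun s hs => ?_, fun k _ => ?_, h3.trans hn⟩
  · exact mem_iUnion₂.2 ⟨_, h1 s hs, rfl⟩
  · refine ediam_le fun s hs t ht => ?_
    rw [edist_dist]
    exact ENNReal.ofReal_le_ofReal (UP.cell_dist hℓ hs ht)

/-- The properties of the curve which are used. -/
structure Good (R : Rect) (𝓢 : Set (Set ℂ)) (a : ℝ) (f : C(unitInterval, ℂ)) : Prop where
  hol : ∀ β : ℝ, 0 < β → β < 4/7 → ∃ Λ : ℝ, ∀ s t : unitInterval,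
    dist (f s) (f t) ≤ Λ * |(s : ℝ) - t| ^ β
  strip : ∀ κ ε : ℝ, 0 < κ → 0 < ε → ∃ Λ : ℝ, 0 < Λ ∧ ∀ S ∈ 𝓢, ∀ (x : ℂ) (r ρ : ℝ), 0 < r →
    r ≤ ρ → ρ ≤ 1 → (volume (St R κ S x r ρ f)).toReal ≤ Λ * (r ^ (2 - a - ε) * ρ ^ (a - 1/4))

variable {R : Rect} {𝓢 : Set (Set ℂ)} {a : ℝ} {f : C(unitInterval, ℂ)}

/-- Covers by cells from the volume of a neighbourhood. -/
theorem Good.gen (hG : Good R 𝓢 a f) {η : ℝ} (hη : 0 < η) :
    ∃ r1 : ℝ, 0 < r1 ∧ ∀ r : ℝ, 0 < r → r ≤ r1 → ∀ A B : Set unitInterval,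
      (∀ s ∈ A, ∀ t, dist (f t) (f s) ≤ r → t ∈ B) → ∀ n : ℝ,
      1 + (volume B).toReal / r ^ (7/4 + η) ≤ n → Cv A (r ^ (7/4 + η)) n := by
  set β : ℝ := 1 / (7/4 + η/2) with hβ
  have hβ0 : 0 < β := by positivity
  have hβ1 : β < 4/7 := by
    rw [hβ, div_lt_iff₀ (by positivity)]; linarith
  obtain ⟨Λ0, hΛ0⟩ := hG.hol β hβ0 hβ1
  set Λ' : ℝ := max Λ0 1 with hΛ'
  have hΛ'0 : 0 < Λ' := lt_max_of_lt_right one_pos
  have hhol : ∀ s t : unitInterval, dist (f s) (f t) ≤ Λ' * |(s : ℝ) - t| ^ β := fun s t =>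
    (hΛ0 s t).trans (mul_le_mul_of_nonneg_right (le_max_left _ _) (by positivity))
  set e : ℝ := (η/2) / (7/4 + η/2) with he
  have he0 : 0 < e := by positivity
  have hee : (7/4 + η) * β = 1 + e := by
    rw [hβ, he]; field_simp; ring
  refine ⟨Λ' ^ (-(1/e)), by positivity, fun r hr hrr0 A B hAB n hn => ?_⟩
  have hre : Λ' * r ^ e ≤ 1 := by
    have h1 : r ^ e ≤ (Λ' ^ (-(1/e))) ^ e := Real.rpow_le_rpow hr.le hrr0 he0.le
    rw [← Real.rpow_mul hΛ'0.le, show -(1/e) * e = -1 by field_simp, Real.rpow_neg_one] at h1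
    calc Λ' * r ^ e ≤ Λ' * Λ'⁻¹ := mul_le_mul_of_nonneg_left h1 hΛ'0.le
      _ = 1 := mul_inv_cancel₀ hΛ'0.ne'
  have hℓ : 0 < r ^ (7/4 + η) := Real.rpow_pos_of_pos hr _
  have hmove : ∀ s t : unitInterval, dist s t ≤ r ^ (7/4 + η) → dist (f s) (f t) ≤ r := by
    intro s t h
    have h' : |(s : ℝ) - t| ≤ r ^ (7/4 + η) := h
    calc dist (f s) (f t) ≤ Λ' * |(s : ℝ) - t| ^ β := hhol s t
      _ ≤ Λ' * (r ^ (7/4 + η)) ^ β := by
          apply mul_le_mul_of_nonneg_left _ hΛ'0.le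
          exact Real.rpow_le_rpow (abs_nonneg _) h' hβ0.le
      _ = Λ' * r ^ e * r := by
          rw [← Real.rpow_mul hr.le, hee, Real.rpow_add hr, Real.rpow_one]; ring
      _ ≤ 1 * r := mul_le_mul_of_nonneg_right hre hr.le
      _ = r := one_mul r
  refine cells_cv hℓ (B := B) (fun s hs t hst' => hAB s hs t ?_) hn
  rw [dist_comm]
  exact hmove s t hst'

/-- The times near the sets of the family are covered by few cells. -/
theorem Good.cover (hG : Good R 𝓢 a f) (ha : 1/2 < a) {κ η : ℝ} (hκ : 0 < κ) (hη : 0 < η) :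
    ∃ C r0 : ℝ, 0 < C ∧ 0 < r0 ∧ r0 ≤ 1 ∧ ∀ S ∈ 𝓢, ∀ (x : ℂ) (r ρ : ℝ), 0 < r → r ≤ r0 →
      r ≤ ρ → ρ ≤ 1/2 → Cv (St R κ S x r ρ f) (r ^ (7/4 + η))
        (C * (r ^ (1/4 - a - 2 * η) * ρ ^ (a - 1/4))) := by
  obtain ⟨r1, hr1, hgen⟩ := hG.gen hη
  obtain ⟨Λ, hΛ, hst⟩ := hG.strip (κ/2) η (by positivity) hη
  set r0 : ℝ := min r1 (min (κ/2) (1/2)) with hr0
  have hr00 : 0 < r0 := by positivity
  refine ⟨1 + Λ * (2 ^ (2 - a - η) * 2 ^ (a - 1/4)), r0, by positivity, hr00,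
    (min_le_right _ _).trans ((min_le_right _ _).trans (by norm_num)), ?_⟩
  intro S hS x r ρ hr hrr0 hrρ hρ
  have hρ0 : 0 < ρ := hr.trans_le hrρ
  have hrκ : r ≤ κ/2 := hrr0.trans ((min_le_right _ _).trans (min_le_left _ _))
  have hr12 : r ≤ 1/2 := hrr0.trans ((min_le_right _ _).trans (min_le_right _ _))
  have hℓ : 0 < r ^ (7/4 + η) := Real.rpow_pos_of_pos hr _
  apply hgen r hr (hrr0.trans (min_le_left _ _)) _ (St R (κ/2) S x (2 * r) (2 * ρ) f)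
  · rintro s ⟨hs1, hs2, z, hz, hs3⟩ t hm
    refine ⟨?_, ?_, z, hz, ?_⟩
    · apply dep_near R (W := κ/2) (y := f s)
      · rw [add_halves]; exact hs1
      · linarith
    · have := dist_triangle (f t) (f s) x
      linarith
    · have := dist_triangle (f t) (f s) z
      linarith
  · have h1 := hst S hS x (2 * r) (2 * ρ) (by positivity) (by linarith) (by linarith)
    have h2 : (2 * r) ^ (2 - a - η) = 2 ^ (2 - a - η) * r ^ (2 - a - η) :=
      Real.mul_rpow (by norm_num) hr.le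
    have h3 : (2 * ρ) ^ (a - 1/4) = 2 ^ (a - 1/4) * ρ ^ (a - 1/4) :=
      Real.mul_rpow (by norm_num) hρ0.le
    rw [h2, h3] at h1
    have h4 : r ^ (2 - a - η) = r ^ (1/4 - a - 2 * η) * r ^ (7/4 + η) := by
      rw [← Real.rpow_add hr]; congr 1; ring
    have h5 : (volume (St R (κ/2) S x (2 * r) (2 * ρ) f)).toReal / r ^ (7/4 + η) ≤
        Λ * (2 ^ (2 - a - η) * 2 ^ (a - 1/4)) * (r ^ (1/4 - a - 2 * η) * ρ ^ (a - 1/4)) := by
      rw [div_le_iff₀ hℓ]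
      refine h1.trans (le_of_eq ?_)
      rw [h4]; ring
    have h6 : 1 ≤ r ^ (1/4 - a - 2 * η) * ρ ^ (a - 1/4) := by
      calc (1:ℝ) = r ^ (1/4 - a) * r ^ (a - 1/4) := by
            rw [← Real.rpow_add hr, show 1/4 - a + (a - 1/4) = 0 by ring, Real.rpow_zero]
        _ ≤ r ^ (1/4 - a - 2 * η) * ρ ^ (a - 1/4) := by
            apply mul_le_mul _ _ (by positivity) (by positivity)
            · exact Real.rpow_le_rpow_of_exponent_ge hr (by linarith) (by linarith)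
            · exact Real.rpow_le_rpow hr.le hrρ (by linarith)
    linarith

/-- The times in the depth `κ` near `S`. -/
def Sg (R : Rect) (κ : ℝ) (S : Set ℂ) (r : ℝ) (f : C(unitInterval, ℂ)) : Set unitInterval :=
  {s | f s ∈ Dep R κ ∧ ∃ z ∈ S ∩ R.D, dist (f s) z ≤ r}

theorem Good.strip_all (hG : Good R 𝓢 a f) {κ ε : ℝ} (hκ : 0 < κ) (hε : 0 < ε) :
    ∃ Λ : ℝ, 0 < Λ ∧ ∀ S ∈ 𝓢, ∀ r : ℝ, 0 < r → r ≤ 1 →
      (volume (Sg R κ S r f)).toReal ≤ Λ * r ^ (2 - a - ε) := by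
  classical
  obtain ⟨Λ, hΛ, h⟩ := hG.strip κ ε hκ hε
  have hcomp : IsCompact (Set.range f) := isCompact_range f.continuous
  obtain ⟨t, -, ht, hcov⟩ := hcomp.finite_cover_balls (e := 1) (by norm_num)
  set T : Finset ℂ := ht.toFinset with hT
  refine ⟨(T.card + 1) * Λ, by positivity, fun S hS r hr hr1 => ?_⟩
  have hsub : Sg R κ S r f ⊆ ⋃ x ∈ T, St R κ S x r 1 f := by
    rintro s ⟨hs1, hs2⟩
    obtain ⟨x, hx, hsx⟩ := mem_iUnion₂.1 (hcov ⟨s, rfl⟩)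
    exact mem_iUnion₂.2 ⟨x, by rw [hT]; exact ht.mem_toFinset.2 hx, hs1, (mem_ball.1 hsx).le, hs2⟩
  have h1 : volume (Sg R κ S r f) ≤ ENNReal.ofReal (T.card * (Λ * r ^ (2 - a - ε))) := by
    refine (measure_mono hsub).trans ((measure_biUnion_finset_le _ _).trans ?_)
    have h2 : ∀ x ∈ T, volume (St R κ S x r 1 f) ≤ ENNReal.ofReal (Λ * r ^ (2 - a - ε)) := by
      intro x _
      rw [← ENNReal.ofReal_toReal (measure_ne_top volume (St R κ S x r 1 f))]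
      apply ENNReal.ofReal_le_ofReal
      have := h S hS x r 1 hr hr1 le_rfl
      rwa [Real.one_rpow, mul_one] at this
    refine (Finset.sum_le_sum h2).trans ?_
    rw [Finset.sum_const, nsmul_eq_mul]
    exact card_mul le_rfl
  refine (ENNReal.toReal_le_of_le_ofReal (by positivity) h1).trans ?_
  have h3 : 0 < Λ * r ^ (2 - a - ε) := by positivity
  nlinarith

/-- The whole set, without localisation. -/
theorem Good.cover_all (hG : Good R 𝓢 a f) (ha : 1/2 < a) {κ η : ℝ} (hκ : 0 < κ) (hη : 0 < η) :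
    ∃ C r0 : ℝ, 0 < C ∧ 0 < r0 ∧ r0 ≤ 1 ∧ ∀ S ∈ 𝓢, ∀ r : ℝ, 0 < r → r ≤ r0 →
      Cv (Sg R κ S r f) (r ^ (7/4 + η)) (C * r ^ (1/4 - a - 2 * η)) := by
  obtain ⟨r1, hr1, hgen⟩ := hG.gen hη
  obtain ⟨Λ, hΛ, hst⟩ := hG.strip_all (κ := κ/2) (by positivity) hη
  set r0 : ℝ := min r1 (min (κ/2) (1/2)) with hr0
  have hr00 : 0 < r0 := by positivity
  refine ⟨1 + Λ * 2 ^ (2 - a - η), r0, by positivity, hr00,
    (min_le_right _ _).trans ((min_le_right _ _).trans (by norm_num)), ?_⟩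
  intro S hS r hr hrr0
  have hrκ : r ≤ κ/2 := hrr0.trans ((min_le_right _ _).trans (min_le_left _ _))
  have hr12 : r ≤ 1/2 := hrr0.trans ((min_le_right _ _).trans (min_le_right _ _))
  have hℓ : 0 < r ^ (7/4 + η) := Real.rpow_pos_of_pos hr _
  apply hgen r hr (hrr0.trans (min_le_left _ _)) _ (Sg R (κ/2) S (2 * r) f)
  · rintro s ⟨hs1, z, hz, hs3⟩ t hm
    refine ⟨?_, z, hz, ?_⟩
    · apply dep_near R (W := κ/2) (y := f s)
      · rw [add_halves]; exact hs1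
      · linarith
    · have := dist_triangle (f t) (f s) z
      linarith
  · have h1 := hst S hS (2 * r) (by positivity) (by linarith)
    have h2 : (2 * r) ^ (2 - a - η) = 2 ^ (2 - a - η) * r ^ (2 - a - η) :=
      Real.mul_rpow (by norm_num) hr.le
    rw [h2] at h1
    have h4 : r ^ (2 - a - η) = r ^ (1/4 - a - 2 * η) * r ^ (7/4 + η) := by
      rw [← Real.rpow_add hr]; congr 1; ring
    have h5 : (volume (Sg R (κ/2) S (2 * r) f)).toReal / r ^ (7/4 + η) ≤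
        Λ * 2 ^ (2 - a - η) * r ^ (1/4 - a - 2 * η) := by
      rw [div_le_iff₀ hℓ]
      refine h1.trans (le_of_eq ?_)
      rw [h4]; ring
    have h6 : 1 ≤ r ^ (1/4 - a - 2 * η) :=
      Real.one_le_rpow_of_pos_of_le_one_of_nonpos hr (by linarith) (by linarith)
    linarith

end Pool.Agent.N892.AC
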