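import Pool.Agent.N892.AC.Det

/-!
Hausdorff dimensions of the images of sets of times under the projections and their graphs.
-/

set_option autoImplicit false

namespace Pool.Agent.N892.AC

open H974 H984P H984N H443U H443P MeasureTheory Filter Topology Metric Set
open scoped ENNReal NNReal

section
variable {X Y : Type*} [MetricSpace X] [MetricSpace Y]

theorem dim_inv_lim {F : X → Y} {K : Set X} {b c : ℝ} (hb : 0 ≤ b) (hc : 0 < c)
    (h : ∀ η : ℝ, 0 < η → ∃ C d0 : ℝ, 0 < C ∧ 0 < d0 ∧ ∀ d : ℝ, 0 < d → d ≤ d0 → ∀ J : Set Y,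
      ediam J ≤ ENNReal.ofReal d → Cv (F ⁻¹' J ∩ K) (d ^ (c + η)) (C * d ^ (-(b + 3 * η))))
    {E : Set X} (hE : E ⊆ K) :
    ENNReal.ofReal c * dimH E ≤ dimH (F '' E) + ENNReal.ofReal b := by
  refine ENNReal.le_of_forall_pos_le_add fun ε hε _ => ?_
  obtain ⟨C, d0, hC, hd0, hh⟩ := h (ε / 3) (by positivity)
  have h1 := dim_inv (by positivity) (by positivity) hC hd0 hh hE
  calc ENNReal.ofReal c * dimH E ≤ ENNReal.ofReal (c + ε / 3) * dimH E := by
        gcongr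
        have : (0:ℝ) ≤ ε / 3 := by positivity
        linarith
    _ ≤ dimH (F '' E) + ENNReal.ofReal (b + 3 * (ε / 3)) := h1
    _ = dimH (F '' E) + ENNReal.ofReal b + ε := by
        rw [show (b + 3 * ((ε:ℝ) / 3)) = b + ε by ring,
          ENNReal.ofReal_add hb (NNReal.coe_nonneg ε), ENNReal.ofReal_coe_nnreal, add_assoc]

end

theorem dep_sub (R : Rect) {κ : ℝ} (hκ : 0 < κ) : Dep R κ ⊆ R.D := by
  rintro z ⟨h1, h2, h3, h4⟩
  refine ⟨?_, ?_, ?_, ?_⟩ <;> linarith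

theorem dep_union (R : Rect) : R.D ⊆ ⋃ n : ℕ, Dep R (1 / ((n:ℝ) + 1)) := by
  rintro z ⟨h1, h2, h3, h4⟩
  obtain ⟨n, hn⟩ := exists_nat_one_div_lt (K := ℝ)
    (show 0 < min (min (z.re + R.A) (R.B - z.re)) (min z.im (R.H - z.im)) from
      lt_min (lt_min (by linarith) (by linarith)) (lt_min h3 (by linarith)))
  have a1 := hn.trans_le ((min_le_left _ _).trans (min_le_left _ _))
  have a2 := hn.trans_le ((min_le_left _ _).trans (min_le_right _ _))
  have a3 := hn.trans_le ((min_le_right _ _).trans (min_le_left _ _))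
  have a4 := hn.trans_le ((min_le_right _ _).trans (min_le_right _ _))
  refine mem_iUnion.2 ⟨n, ?_, ?_, ?_, ?_⟩ <;> linarith

variable {R : Rect} {𝓢 : Set (Set ℂ)} {a : ℝ} {f : C(unitInterval, ℂ)}

/-- The times at which the curve is in a set of the family. -/
theorem Good.times (hG : Good R 𝓢 a f) (ha : 1/2 < a) {S : Set ℂ} (hS : S ∈ 𝓢) {κ : ℝ}
    (hκ : 0 < κ) :
    ENNReal.ofReal (7/4) * dimH {s : unitInterval | f s ∈ Dep R κ ∧ f s ∈ S} ≤
      ENNReal.ofReal (a - 1/4) := by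
  have h := dim_inv_lim (X := unitInterval) (Y := ℝ) (F := fun _ => 0)
    (K := {s : unitInterval | f s ∈ Dep R κ ∧ f s ∈ S}) (b := a - 1/4) (c := 7/4)
    (by linarith) (by norm_num) (fun η hη => by
      obtain ⟨C, r0, hC, hr0, -, h⟩ := hG.cover_all ha hκ hη
      refine ⟨C, min r0 1, hC, by positivity, fun d hd hd0 J _ => ?_⟩
      refine (h S hS d hd (hd0.trans (min_le_left _ _))).mono ?_ le_rfl ?_
      · rintro s ⟨-, hs1, hs2⟩
        exact ⟨hs1, f s, ⟨hs2, dep_sub R hκ hs1⟩, by rw [dist_self]; exact hd.le⟩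
      · apply mul_le_mul_of_nonneg_left _ hC.le
        exact Real.rpow_le_rpow_of_exponent_ge hd (hd0.trans (min_le_right _ _)) (by linarith))
    (E := {s : unitInterval | f s ∈ Dep R κ ∧ f s ∈ S}) le_rfl
  refine h.trans ?_
  have h0 : dimH ((fun _ : unitInterval => (0:ℝ)) ''
      {s : unitInterval | f s ∈ Dep R κ ∧ f s ∈ S}) = 0 := by
    have hsub : ((fun _ : unitInterval => (0:ℝ)) ''
      {s : unitInterval | f s ∈ Dep R κ ∧ f s ∈ S}) ⊆ {0} := by
      rintro _ ⟨s, -, rfl⟩; exact mem_singleton _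
    exact le_antisymm ((dimH_mono hsub).trans (dimH_singleton (0:ℝ)).le) zero_le
  rw [h0, zero_add]

/-- The line with unit normal `u` at `x`. -/
def ln (u : ℂ) (x : ℝ) : Set ℂ := {z | ((starRingEnd ℂ) u * z).re = x}

/-- All lines. -/
def Lines : Set (Set ℂ) := {S | ∃ (u : ℂ) (x : ℝ), ‖u‖ = 1 ∧ S = ln u x}

/-- The coordinate in the direction `u`. -/
noncomputable def co (u z : ℂ) : ℝ := ((starRingEnd ℂ) u * z).re

theorem co_sub (u z z' : ℂ) : co u z - co u z' = co u (z - z') := by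
  unfold co; rw [mul_sub, Complex.sub_re]

theorem co_le {u : ℂ} (hu : ‖u‖ = 1) (z : ℂ) : |co u z| ≤ ‖z‖ := by
  unfold co
  refine (Complex.abs_re_le_norm _).trans ?_
  rw [norm_mul, RCLike.norm_conj, hu, one_mul]

theorem co_dist {u : ℂ} (hu : ‖u‖ = 1) (z z' : ℂ) : |co u z - co u z'| ≤ dist z z' := by
  rw [co_sub, dist_eq_norm]; exact co_le hu _

/-- The foot of the perpendicular on the line. -/
theorem foot {u : ℂ} (hu : ‖u‖ = 1) (z : ℂ) (x : ℝ) :
    z - ((co u z - x : ℝ) : ℂ) * u ∈ ln u x ∧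
    dist z (z - ((co u z - x : ℝ) : ℂ) * u) = |co u z - x| := by
  constructor
  · show ((starRingEnd ℂ) u * (z - ((co u z - x : ℝ) : ℂ) * u)).re = x
    have h1 : (starRingEnd ℂ) u * (z - ((co u z - x : ℝ) : ℂ) * u) =
        (starRingEnd ℂ) u * z - ((co u z - x : ℝ) : ℂ) * ((starRingEnd ℂ) u * u) := by ring
    have h2 : (starRingEnd ℂ) u * u = 1 := by
      rw [← Complex.normSq_eq_conj_mul_self, Complex.normSq_eq_norm_sq, hu]; norm_num
    rw [h1, h2, mul_one, Complex.sub_re, Complex.ofReal_re]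
    unfold co
    ring
  · rw [dist_eq_norm, sub_sub_cancel, norm_mul, hu, mul_one, Complex.norm_real, Real.norm_eq_abs]

theorem co_inv_sub {u : ℂ} (hu : ‖u‖ = 1) {κ d : ℝ} (hdκ : d < κ) {s s0 : unitInterval}
    (hs : f s ∈ Dep R κ) (h : |co u (f s) - co u (f s0)| ≤ d) :
    ∃ z ∈ ln u (co u (f s0)) ∩ R.D, dist (f s) z ≤ d := by
  obtain ⟨h1, h2⟩ := foot hu (f s) (co u (f s0))
  refine ⟨_, ⟨h1, ?_⟩, by rw [h2]; exact h⟩
  apply dep_sub R (κ := κ - d) (by linarith)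
  apply dep_near R (W := d) (y := f s)
  · rw [sub_add_cancel]; exact hs
  · rw [dist_comm, h2]; exact h

theorem real_ediam {J : Set ℝ} {d : ℝ} (hd : 0 ≤ d) (hJ : ediam J ≤ ENNReal.ofReal d) {x y : ℝ}
    (hx : x ∈ J) (hy : y ∈ J) : |x - y| ≤ d := by
  have h1 := (edist_le_ediam_of_mem hx hy).trans hJ
  rw [edist_dist] at h1
  exact (ENNReal.ofReal_le_ofReal_iff hd).1 h1

/-- Near the level sets of `g` the times in `K` are near the sets of the family `𝓢`. -/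
def Foot (R : Rect) (𝓢 : Set (Set ℂ)) (f : C(unitInterval, ℂ)) (g : ℂ → ℝ) (K : Set unitInterval)
    (d0 : ℝ) : Prop :=
  ∀ s0 ∈ K, ∃ S ∈ 𝓢, ∀ s ∈ K, ∀ d : ℝ, 0 < d → d ≤ d0 → |g (f s) - g (f s0)| ≤ d →
    ∃ z ∈ S ∩ R.D, dist (f s) z ≤ d

/-- Images, from below. -/
theorem Good.proj (hG : Good R 𝓢 1 f) {g : ℂ → ℝ} {κ d1 : ℝ} (hκ : 0 < κ) (hd1 : 0 < d1)
    {K : Set unitInterval} (hK : K ⊆ {s | f s ∈ Dep R κ}) (hfoot : Foot R 𝓢 f g K d1)
    {E : Set unitInterval} (hE : E ⊆ K) :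
    ENNReal.ofReal (7/4) * dimH E ≤ dimH ((fun s => g (f s)) '' E) + ENNReal.ofReal (3/4) := by
  refine dim_inv_lim (X := unitInterval) (Y := ℝ) (F := fun s => g (f s))
    (K := K) (b := 3/4) (c := 7/4)
    (by norm_num) (by norm_num) (fun η hη => ?_) hE
  obtain ⟨C, r0, hC, hr0, -, h⟩ := hG.cover_all (by norm_num) hκ hη
  refine ⟨C, min (min r0 1) d1, hC, by positivity, fun d hd hd0 J hJ => ?_⟩
  have e1 : d ≤ r0 := hd0.trans ((min_le_left _ _).trans (min_le_left _ _))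
  have e2 : d ≤ 1 := hd0.trans ((min_le_left _ _).trans (min_le_right _ _))
  have e3 : d ≤ d1 := hd0.trans (min_le_right _ _)
  rcases ((fun s => g (f s)) ⁻¹' J ∩ K).eq_empty_or_nonempty with h0 | ⟨s0, hs0, hs0K⟩
  · rw [h0]
    refine ⟨∅, fun _ => ∅, empty_subset _, fun i hi => absurd hi (Finset.notMem_empty _), ?_⟩
    rw [Finset.card_empty]
    push_cast
    positivity
  · obtain ⟨S, hS, hft⟩ := hfoot s0 hs0K
    refine (h S hS d hd e1).mono ?_ le_rfl ?_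
    · rintro s ⟨hs, hsK⟩
      exact ⟨hK hsK, hft s hsK d hd e3 (real_ediam hd.le hJ hs hs0)⟩
    · apply mul_le_mul_of_nonneg_left _ hC.le
      exact Real.rpow_le_rpow_of_exponent_ge hd e2 (by linarith)

/-- Graphs, from below. -/
theorem Good.graph (hG : Good R 𝓢 1 f) {g : ℂ → ℝ} {κ d2 : ℝ} (hκ : 0 < κ) (hd2 : 0 < d2)
    {K : Set unitInterval} (hK : K ⊆ {s | f s ∈ Dep R κ}) (hfoot : Foot R 𝓢 f g K d2)
    {E : Set unitInterval} (hE : E ⊆ K) :
    ENNReal.ofReal (7/4) * dimH E ≤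
      dimH ((fun s => (s, g (f s))) '' E) + ENNReal.ofReal (9/28) := by
  refine dim_inv_lim (X := unitInterval) (Y := unitInterval × ℝ) (F := fun s => (s, g (f s)))
    (K := K) (b := 9/28) (c := 7/4)
    (by norm_num) (by norm_num) (fun η hη => ?_) hE
  obtain ⟨C, r0, hC, hr0, -, h⟩ := hG.cover (a := 1) (by norm_num) hκ hη
  set β : ℝ := max (4/7 - η) (1/7) with hβ
  have hβ0 : 0 < β := lt_max_of_lt_right (by norm_num)
  have hβ1 : β < 4/7 := max_lt (by linarith) (by norm_num)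
  have hβ2 : 4/7 - η ≤ β := le_max_left _ _
  obtain ⟨Λ0, hΛ0⟩ := hG.hol β hβ0 hβ1
  set Λ : ℝ := max Λ0 1 with hΛ
  have hΛ1 : 1 ≤ Λ := le_max_right _ _
  have hΛ0' : 0 < Λ := by linarith
  set d1 : ℝ := (1 / (2 * Λ)) ^ (1 / β) with hd1
  refine ⟨C * Λ ^ (3/4 : ℝ), min (min r0 1) (min d2 d1), by positivity, by positivity,
    fun d hd hd0 J hJ => ?_⟩
  have e1 : d ≤ r0 := hd0.trans ((min_le_left _ _).trans (min_le_left _ _))
  have e2 : d ≤ 1 := hd0.trans ((min_le_left _ _).trans (min_le_right _ _))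
  have e3 : d ≤ d2 := hd0.trans ((min_le_right _ _).trans (min_le_left _ _))
  have e4 : d ≤ d1 := hd0.trans ((min_le_right _ _).trans (min_le_right _ _))
  rcases ((fun s => (s, g (f s))) ⁻¹' J ∩ K).eq_empty_or_nonempty with h0 | ⟨s0, hs0, hs0K⟩
  · rw [h0]
    refine ⟨∅, fun _ => ∅, empty_subset _, fun i hi => absurd hi (Finset.notMem_empty _), ?_⟩
    rw [Finset.card_empty]
    push_cast
    positivity
  · have hρ1 : Λ * d ^ β ≤ 1/2 := by
      have h1 := Real.rpow_le_rpow hd.le e4 hβ0.le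
      rw [hd1, ← Real.rpow_mul (by positivity), one_div_mul_cancel hβ0.ne', Real.rpow_one] at h1
      calc Λ * d ^ β ≤ Λ * (1 / (2 * Λ)) := mul_le_mul_of_nonneg_left h1 hΛ0'.le
        _ = 1/2 := by field_simp
    have hρ2 : d ≤ Λ * d ^ β := by
      calc d = d ^ (1:ℝ) := (Real.rpow_one d).symm
        _ ≤ d ^ β := Real.rpow_le_rpow_of_exponent_ge hd e2 (by linarith)
        _ ≤ Λ * d ^ β := by
            have : 0 ≤ d ^ β := by positivity
            nlinarith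
    obtain ⟨S, hS, hft⟩ := hfoot s0 hs0K
    refine (h S hS (f s0) d (Λ * d ^ β) hd e1 hρ2 hρ1).mono ?_ le_rfl ?_
    · rintro s ⟨hs, hsK⟩
      have h1 : edist (s, g (f s)) (s0, g (f s0)) ≤ ENNReal.ofReal d :=
        (edist_le_ediam_of_mem (s := J) hs hs0).trans hJ
      rw [edist_dist] at h1
      have h2 := (ENNReal.ofReal_le_ofReal_iff hd.le).1 h1
      rw [Prod.dist_eq] at h2
      have h3 : |(s:ℝ) - s0| ≤ d := (le_max_left _ _).trans h2
      have h4 : |g (f s) - g (f s0)| ≤ d := (le_max_right _ _).trans h2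
      refine ⟨hK hsK, ?_, hft s hsK d hd e3 h4⟩
      calc dist (f s) (f s0) ≤ Λ0 * |(s : ℝ) - s0| ^ β := hΛ0 s s0
        _ ≤ Λ * d ^ β := by
            apply mul_le_mul (le_max_left _ _) _ (by positivity) hΛ0'.le
            exact Real.rpow_le_rpow (abs_nonneg _) h3 hβ0.le
    · have h5 : (Λ * d ^ β) ^ ((1:ℝ) - 1/4) = Λ ^ (3/4 : ℝ) * d ^ (β * (3/4)) := by
        rw [Real.mul_rpow hΛ0'.le (by positivity), ← Real.rpow_mul hd.le]
        norm_num
      rw [h5]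
      calc C * (d ^ ((1:ℝ)/4 - 1 - 2 * η) * (Λ ^ (3/4 : ℝ) * d ^ (β * (3/4))))
          = C * Λ ^ (3/4 : ℝ) * d ^ (((1:ℝ)/4 - 1 - 2 * η) + β * (3/4)) := by
            rw [Real.rpow_add hd]; ring
        _ ≤ C * Λ ^ (3/4 : ℝ) * d ^ (-(9/28 + 3 * η)) := by
            apply mul_le_mul_of_nonneg_left _ (by positivity)
            exact Real.rpow_le_rpow_of_exponent_ge hd e2 (by linarith)

theorem foot_line {u : ℂ} (hu : ‖u‖ = 1) {κ : ℝ} (_ : 0 < κ) :
    Foot R Lines f (co u) {s | f s ∈ Dep R κ} (κ / 2) := by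
  intro s0 _
  refine ⟨ln u (co u (f s0)), ⟨u, _, hu, rfl⟩, fun s hs d _ hd h => ?_⟩
  exact co_inv_sub hu (by linarith) hs h

end Pool.Agent.N892.AC
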