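import Pool.Agent.N892.AC.Ker

/-!
The time which the scaling limits spend near the sets of a family of finite entropy.
-/

set_option autoImplicit false

namespace Pool.Agent.N892.AC

open Finset H974 H984P H984N H443U H443P MeasureTheory Filter Topology
open scoped ENNReal

open Classical in
/-- The sets of the family `𝓢` are covered in `R.D`, at every scale `r`, by polynomially many nets
which are uniformly regular with exponent `a`, up to a factor `r ^ (-ε)`. -/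
def Ent (R : Rect) (𝓢 : Set (Set ℂ)) (a : ℝ) : Prop :=
  ∀ ε : ℝ, 0 < ε → ∃ K c : ℝ, ∀ r : ℝ, 0 < r → r ≤ 1 → ∃ 𝒜 : Finset (Finset ℂ),
    (𝒜.card : ℝ) ≤ K * r ^ (-c) ∧
    (∀ A ∈ 𝒜, ∀ (z : ℂ) (h : ℝ), r ≤ h →
      ((A.filter (fun y => dist y z ≤ h)).card : ℝ) ≤ K * r ^ (-ε) * (h / r) ^ a) ∧
    (∀ S ∈ 𝓢, ∃ A ∈ 𝒜, ∀ z ∈ S ∩ R.D, ∃ y ∈ A, dist z y ≤ r)

/-- The times at which the curve is in the depth `κ`, close to `x` and very close to `S`. -/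
def St (R : Rect) (κ : ℝ) (S : Set ℂ) (x : ℂ) (r ρ : ℝ) (f : C(unitInterval, ℂ)) :
    Set unitInterval :=
  {s | f s ∈ Dep R κ ∧ dist (f s) x ≤ ρ ∧ ∃ z ∈ S ∩ R.D, dist (f s) z ≤ r}

/-- The constant in the bound of the mean time. -/
noncomputable def Cc (K κ a : ℝ) : ℝ :=
  9 * K * ((6:ℝ) ^ a * (κ / 2) ^ (-(1/4) : ℝ) + (κ / 2) ^ (1/4 : ℝ) * (Ga a * (6:ℝ) ^ (a - 1/2)))

theorem bd_bound {n : ℕ} {K κ a r h : ℝ} (hκ : 0 < κ) (ha : 1/2 < a) (hr : 0 < r)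
    (hh : 0 < h) (hn : (n : ℝ) ≤ K * (6 * h / r) ^ a) :
    Bd n (3 * r) (κ / 2 * h) (K * Ga a * (r ^ (-a) * (6 * h) ^ (a - 1/2))) ≤
      Cc K κ a * (r ^ (2 - a) * h ^ (a - 1/4)) := by
  unfold Bd Cc
  have hG := Ga_pos ha
  have e1 : (κ / 2 * h) ^ (-(1/4) : ℝ) = (κ / 2) ^ (-(1/4) : ℝ) * h ^ (-(1/4) : ℝ) :=
    Real.mul_rpow (by positivity) hh.le
  have e2 : (κ / 2 * h) ^ (1/4 : ℝ) = (κ / 2) ^ (1/4 : ℝ) * h ^ (1/4 : ℝ) :=
    Real.mul_rpow (by positivity) hh.le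
  have e3 : (6 * h) ^ (a - 1/2) = (6:ℝ) ^ (a - 1/2) * h ^ (a - 1/2) :=
    Real.mul_rpow (by norm_num) hh.le
  have e4 : (6 * h / r) ^ a = (6:ℝ) ^ a * h ^ a * r ^ (-a) := by
    rw [Real.div_rpow (by positivity) hr.le, Real.mul_rpow (by norm_num) hh.le,
      Real.rpow_neg hr.le, div_eq_mul_inv]
  have e5 : h ^ (a - 1/4) = h ^ a * h ^ (-(1/4) : ℝ) := by
    rw [← Real.rpow_add hh]; congr 1
  have e6 : h ^ (1/4 : ℝ) * h ^ (a - 1/2) = h ^ (a - 1/4) := by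
    rw [← Real.rpow_add hh]; congr 1; ring
  have e7 : r ^ (2 - a) = r ^ 2 * r ^ (-a) := by
    rw [← Real.rpow_natCast, ← Real.rpow_add hr]; congr 1
  have h1 : (n : ℝ) * (κ / 2 * h) ^ (-(1/4) : ℝ) ≤
      K * ((6:ℝ) ^ a * (κ / 2) ^ (-(1/4) : ℝ)) * (r ^ (-a) * h ^ (a - 1/4)) := by
    refine (mul_le_mul_of_nonneg_right hn (by positivity)).trans (le_of_eq ?_)
    rw [e1, e4, e5]; ring
  have h2 : (κ / 2 * h) ^ (1/4 : ℝ) * (K * Ga a * (r ^ (-a) * (6 * h) ^ (a - 1/2))) =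
      K * ((κ / 2) ^ (1/4 : ℝ) * (Ga a * (6:ℝ) ^ (a - 1/2))) * (r ^ (-a) * h ^ (a - 1/4)) := by
    rw [e2, e3, ← e6]; ring
  rw [h2]
  calc (3 * r) ^ 2 * ((n : ℝ) * (κ / 2 * h) ^ (-(1/4) : ℝ) +
        K * ((κ / 2) ^ (1/4 : ℝ) * (Ga a * (6:ℝ) ^ (a - 1/2))) * (r ^ (-a) * h ^ (a - 1/4)))
      ≤ (3 * r) ^ 2 * (K * ((6:ℝ) ^ a * (κ / 2) ^ (-(1/4) : ℝ)) * (r ^ (-a) * h ^ (a - 1/4)) +
        K * ((κ / 2) ^ (1/4 : ℝ) * (Ga a * (6:ℝ) ^ (a - 1/2))) * (r ^ (-a) * h ^ (a - 1/4))) := by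
        gcongr
    _ = _ := by rw [e7]; ring

theorem nb_mono {Y : Finset ℂ} {w0 c c' : ℝ} (h : c ≤ c') : NB Y w0 c ⊆ NB Y w0 c' :=
  fun _ hp => le_trans hp h

theorem dep_zero_norm (R : Rect) {z : ℂ} (hz : z ∈ Dep R 0) :
    dist z 0 ≤ R.A + R.B + R.H + 1 := by
  obtain ⟨h1, h2, h3, h4⟩ := hz
  have := R.hA
  have := R.hB
  have := R.hH
  rw [dist_zero_right]
  refine (Complex.norm_le_abs_re_add_abs_im z).trans ?_
  have a1 : |z.re| ≤ R.A + R.B := by rw [abs_le]; constructor <;> linarith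
  have a2 : |z.im| ≤ R.H := by rw [abs_le]; constructor <;> linarith
  linarith

theorem dep_anti (R : Rect) {η η' : ℝ} (h : η ≤ η') : Dep R η' ⊆ Dep R η := by
  rintro z ⟨h1, h2, h3, h4⟩
  refine ⟨?_, ?_, ?_, ?_⟩ <;> linarith

theorem card_mul {n : ℕ} {x y : ℝ} (hx : (n : ℝ) ≤ x) :
    (n : ℝ≥0∞) * ENNReal.ofReal y ≤ ENNReal.ofReal (x * y) := by
  rw [ENNReal.ofReal_mul ((Nat.cast_nonneg n).trans hx), ← ENNReal.ofReal_natCast]
  exact mul_le_mul' (ENNReal.ofReal_le_ofReal hx) le_rfl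

open Classical in
/-- The points of a net used at scale `2 ^ (-i)` near `y0`. -/
noncomputable def Yl (R : Rect) (κ : ℝ) (j : ℕ) (A : Finset ℂ) (y0 : ℂ) (i : ℕ) : Finset ℂ :=
  A.filter (fun y => y ∈ Dep R (κ / 2 * (1/2) ^ i + 2 * (3 * (1/2) ^ j)) ∧
    dist y y0 ≤ 6 * (1/2) ^ i)

/-- The level of the time. -/
noncomputable def Lv (K κ a ε : ℝ) (j i : ℕ) : ℝ :=
  2 ^ (ε * j) * (Cc K κ a * ((((1/2 : ℝ)) ^ j) ^ (2 - a) * (((1/2 : ℝ)) ^ i) ^ (a - 1/4)))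

open Classical in
/-- Borel-Cantelli. -/
theorem ev_nets {C : ℝ} (hC : 0 < C) (hU : H342P.TwoUp C (1/4)) (R : Rect) {δ : ℕ → ℝ}
    (hδ : ∀ i, 0 < δ i) (hlim : Tendsto δ atTop (𝓝 0))
    {μ : ProbabilityMeasure X} (hμ : Tendsto (fun i => R.law (δ i)) atTop (𝓝 μ))
    {K c a κ ε : ℝ} (hK : 0 < K) (hκ : 0 < κ) (ha : 1/2 < a) (hε : 0 < ε)
    (𝒜 : ℕ → Finset (Finset ℂ)) (h1 : ∀ j, ((𝒜 j).card : ℝ) ≤ K * ((1/2 : ℝ) ^ j) ^ (-c))
    (h2 : ∀ j, ∀ A ∈ 𝒜 j, ∀ (z : ℂ) (h : ℝ), (1/2 : ℝ) ^ j ≤ h →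
      ((A.filter (fun y => dist y z ≤ h)).card : ℝ) ≤ K * 2 ^ (ε * j) * (h / (1/2 : ℝ) ^ j) ^ a) :
    ∀ᵐ p ∂(μ : Measure X), ∀ᶠ j : ℕ in atTop, ∀ A ∈ 𝒜 j, ∀ y0 ∈ A, y0 ∈ Dep R 0 →
      ∀ i ≤ j, p ∈ NB (Yl R κ j A y0 i) (3 * (1/2) ^ j) (Lv (K * 2 ^ (ε * j)) κ a ε j i) := by
  obtain ⟨k, hk⟩ : ∃ k : ℕ, c + a + 2 + ε ≤ ε * k := by
    obtain ⟨k, hk⟩ := exists_nat_ge ((c + a + 2 + ε) / ε)
    exact ⟨k, by rw [div_le_iff₀ hε] at hk; linarith⟩
  obtain ⟨K', hK', H⟩ := limit_near hC hU k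
  set L : ℝ := R.A + R.B + R.H + 1 with hL
  have hL1 : 1 ≤ L := by have := R.hA; have := R.hB; have := R.hH; linarith
  set bad : ℕ → Set X := fun j => ⋃ A ∈ 𝒜 j, ⋃ y0 ∈ A.filter (fun y => y ∈ Dep R 0),
    ⋃ i ∈ range (j + 1), (NB (Yl R κ j A y0 i) (3 * (1/2) ^ j) (Lv (K * 2 ^ (ε * j)) κ a ε j i))ᶜ with hbad
  -- one set
  have hone : ∀ j, ∀ A ∈ 𝒜 j, ∀ y0 : ℂ, ∀ i ∈ range (j + 1),
      (μ : Measure X) (NB (Yl R κ j A y0 i) (3 * (1/2) ^ j) (Lv (K * 2 ^ (ε * j)) κ a ε j i))ᶜ ≤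
        ENNReal.ofReal (K' * (1 / 2 ^ (ε * j)) ^ k) := by
    intro j A hA y0 i hi
    rw [Finset.mem_range] at hi
    set r : ℝ := (1/2 : ℝ) ^ j with hr
    set h : ℝ := (1/2 : ℝ) ^ i with hh
    have hr0 : 0 < r := by positivity
    have hh0 : 0 < h := by positivity
    have hrh : r ≤ h := pow_le_pow_of_le_one (by norm_num) (by norm_num) (by omega)
    set Y := Yl R κ j A y0 i with hY
    have hYA : Y ⊆ A.filter (fun y => dist y y0 ≤ 6 * h) := by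
      intro y hy
      rw [hY] at hy
      unfold Yl at hy
      rw [Finset.mem_filter] at hy
      exact Finset.mem_filter.2 ⟨hy.1, hy.2.2⟩
    set K1 : ℝ := K * 2 ^ (ε * j) with hK1
    have hK10 : 0 < K1 := by positivity
    have hYc : (Y.card : ℝ) ≤ K1 * (6 * h / r) ^ a := by
      refine le_trans (by exact_mod_cast Finset.card_le_card hYA) (h2 j A hA y0 (6 * h) ?_)
      linarith
    have hreg : ∀ (z : ℂ) (h' : ℝ), r ≤ h' →
        ((Y.filter (fun y => dist y z ≤ h')).card : ℝ) ≤ K1 * (h' / r) ^ a := by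
      intro z h' hh'
      refine le_trans ?_ (h2 j A hA z h' hh')
      have : Y.filter (fun y => dist y z ≤ h') ⊆ A.filter (fun y => dist y z ≤ h') :=
        Finset.filter_subset_filter _ (hYA.trans (Finset.filter_subset _ _))
      exact_mod_cast Finset.card_le_card this
    have hker : ∀ z : ℂ, ∑ y ∈ Y, ker (3 * r) (y - z) ≤
        K1 * Ga a * (r ^ (-a) * (6 * h) ^ (a - 1/2)) := fun z =>
      ker_sum hr0 (by linarith) ha hK10.le Y hYc hreg (by linarith) z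
    have hdep : ∀ y ∈ Y, y ∈ Dep R (κ / 2 * h + 2 * (3 * r)) := by
      intro y hy
      rw [hY] at hy
      unfold Yl at hy
      rw [Finset.mem_filter] at hy
      exact hy.2.1
    have hG := Ga_pos ha
    have := H R hδ hlim hμ Y (3 * r) (κ / 2 * h) (K1 * Ga a * (r ^ (-a) * (6 * h) ^ (a - 1/2)))
      (2 ^ (ε * j)) (by positivity) (by positivity) (by positivity) (by positivity) hdep hker
    refine le_trans (measure_mono ?_) this
    apply Set.compl_subset_compl.2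
    apply nb_mono
    unfold Lv
    exact mul_le_mul_of_nonneg_left (bd_bound hκ ha hr0 hh0 hYc) (by positivity)
  -- all sets of a level
  have hlev : ∀ j, (μ : Measure X) (bad j) ≤ ENNReal.ofReal (K * K * K' * L ^ a * (1/2) ^ j) := by
    intro j
    set r : ℝ := (1/2 : ℝ) ^ j with hr
    have hr0 : 0 < r := by positivity
    have hr1 : r ≤ 1 := pow_le_one₀ (by norm_num) (by norm_num)
    set q : ℝ := K' * (1 / 2 ^ (ε * j)) ^ k with hq
    have hq0 : 0 ≤ q := by positivity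
    have s1 : ∀ A ∈ 𝒜 j, ∀ y0 ∈ A.filter (fun y => y ∈ Dep R 0),
        (μ : Measure X) (⋃ i ∈ range (j + 1),
          (NB (Yl R κ j A y0 i) (3 * (1/2) ^ j) (Lv (K * 2 ^ (ε * j)) κ a ε j i))ᶜ) ≤
        ENNReal.ofReal ((j + 1) * q) := by
      intro A hA y0 _
      refine (measure_biUnion_finset_le _ _).trans ((Finset.sum_le_sum (hone j A hA y0)).trans ?_)
      rw [Finset.sum_const, nsmul_eq_mul, Finset.card_range]
      exact card_mul (by push_cast; exact le_rfl)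
    have s2 : ∀ A ∈ 𝒜 j, (μ : Measure X) (⋃ y0 ∈ A.filter (fun y => y ∈ Dep R 0),
        ⋃ i ∈ range (j + 1), (NB (Yl R κ j A y0 i) (3 * (1/2) ^ j) (Lv (K * 2 ^ (ε * j)) κ a ε j i))ᶜ) ≤
        ENNReal.ofReal (K * 2 ^ (ε * j) * (L / r) ^ a * ((j + 1) * q)) := by
      intro A hA
      refine (measure_biUnion_finset_le _ _).trans ((Finset.sum_le_sum (s1 A hA)).trans ?_)
      rw [Finset.sum_const, nsmul_eq_mul]
      apply card_mul
      refine le_trans ?_ (h2 j A hA 0 L (hr1.trans hL1))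
      have : A.filter (fun y => y ∈ Dep R 0) ⊆ A.filter (fun y => dist y 0 ≤ L) := by
        intro y hy
        rw [Finset.mem_filter] at hy ⊢
        exact ⟨hy.1, dep_zero_norm R hy.2⟩
      exact_mod_cast Finset.card_le_card this
    have s3 : (μ : Measure X) (bad j) ≤
        ENNReal.ofReal (K * r ^ (-c) * (K * 2 ^ (ε * j) * (L / r) ^ a * ((j + 1) * q))) := by
      refine (measure_biUnion_finset_le _ _).trans ((Finset.sum_le_sum s2).trans ?_)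
      rw [Finset.sum_const, nsmul_eq_mul]
      exact card_mul (h1 j)
    refine s3.trans (ENNReal.ofReal_le_ofReal ?_)
    have hr2 : r = 2 ^ (-(j:ℝ)) := by
      rw [hr, Real.rpow_neg (by norm_num), Real.rpow_natCast, one_div, inv_pow]
    have e1 : r ^ (-c) = 2 ^ (c * j) := by
      rw [hr2, ← Real.rpow_mul (by norm_num)]; congr 1; ring
    have e2 : (L / r) ^ a = L ^ a * 2 ^ (a * j) := by
      rw [Real.div_rpow (by positivity) hr0.le, hr2, ← Real.rpow_mul (by norm_num),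
        div_eq_mul_inv, ← Real.rpow_neg (by norm_num)]
      congr 2; ring
    have e3 : (1 / (2:ℝ) ^ (ε * j)) ^ k = 2 ^ (-(ε * k * j)) := by
      rw [one_div, ← Real.rpow_neg (by norm_num), ← Real.rpow_natCast, ← Real.rpow_mul (by norm_num)]
      congr 1; ring
    have e4 : ((j:ℝ) + 1) ≤ 2 ^ (j:ℝ) := by
      rw [Real.rpow_natCast]
      have := Nat.lt_two_pow_self (n := j)
      have h3 : j + 1 ≤ 2 ^ j := this
      exact_mod_cast h3
    rw [hq, e1, e2, e3]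
    calc K * 2 ^ (c * j) * (K * 2 ^ (ε * j) * (L ^ a * 2 ^ (a * j)) *
          ((j + 1) * (K' * 2 ^ (-(ε * k * j)))))
        ≤ K * 2 ^ (c * j) * (K * 2 ^ (ε * j) * (L ^ a * 2 ^ (a * j)) *
          (2 ^ (j:ℝ) * (K' * 2 ^ (-(ε * k * j))))) := by gcongr
      _ = K * K * K' * L ^ a * (2 ^ (c * j) * 2 ^ (ε * j) * 2 ^ (a * j) * 2 ^ (j:ℝ) *
          2 ^ (-(ε * k * j))) := by
          ring
      _ ≤ K * K * K' * L ^ a * r := by
          apply mul_le_mul_of_nonneg_left _ (by positivity)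
          rw [← Real.rpow_add (by norm_num), ← Real.rpow_add (by norm_num),
            ← Real.rpow_add (by norm_num), ← Real.rpow_add (by norm_num), hr2]
          apply Real.rpow_le_rpow_of_exponent_le (by norm_num)
          have hj : (0:ℝ) ≤ j := Nat.cast_nonneg j
          nlinarith
  have hsum : ∑' j, (μ : Measure X) (bad j) ≠ ⊤ := by
    refine ne_top_of_le_ne_top ?_ (ENNReal.tsum_le_tsum hlev)
    rw [← ENNReal.ofReal_tsum_of_nonneg (fun j => by positivity)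
      ((summable_geometric_of_lt_one (by norm_num) (by norm_num)).mul_left _)]
    exact ENNReal.ofReal_ne_top
  have hbc := ae_eventually_notMem hsum
  filter_upwards [hbc] with p hp
  filter_upwards [hp] with j hj A hA y0 hy0 hd i hi
  by_contra hcon
  apply hj
  simp only [hbad, Set.mem_iUnion]
  exact ⟨A, hA, y0, Finset.mem_filter.2 ⟨hy0, hd⟩, i, Finset.mem_range.2 (by omega), hcon⟩

end Pool.Agent.N892.AC
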