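import Pool.Agent.N892.AC.Lim

/-!
Sums of the kernel over uniformly regular nets.
-/

set_option autoImplicit false

namespace Pool.Agent.N892.AC

open Finset

theorem ker_pt {r H : ℝ} (hr : 0 < r) (hH : r ≤ H) (n0 : ℕ) (hn0 : H / r < 2 ^ (n0 + 1)) (t : ℝ) :
    (max t r) ^ (-(1/2) : ℝ) ≤ H ^ (-(1/2) : ℝ) +
      ∑ n ∈ range (n0 + 1), if t ≤ H / 2 ^ n then 2 * (H / 2 ^ n) ^ (-(1/2) : ℝ) else 0 := by
  have hH0 : 0 < H := hr.trans_le hH
  have hsum : ∀ n ∈ range (n0 + 1), 0 ≤ (if t ≤ H / 2 ^ n then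
      2 * (H / 2 ^ n) ^ (-(1/2) : ℝ) else 0) := by
    intro n _
    split_ifs
    · positivity
    · exact le_rfl
  rcases lt_or_ge H t with h | h
  · have h1 : (max t r) ^ (-(1/2) : ℝ) ≤ H ^ (-(1/2) : ℝ) :=
      Real.rpow_le_rpow_of_nonpos hH0 (h.le.trans (le_max_left _ _)) (by norm_num)
    have h2 := Finset.sum_nonneg hsum
    linarith
  · set m : ℝ := max t r with hm
    have hm0 : 0 < m := lt_max_of_lt_right hr
    have hmH : m ≤ H := max_le h hH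
    obtain ⟨n, hn1, hn2⟩ := exists_nat_pow_near (x := H / m) (y := (2:ℝ))
      (by rwa [le_div_iff₀ hm0, one_mul]) one_lt_two
    have hn : n ∈ range (n0 + 1) := by
      rw [Finset.mem_range]
      have h1 : H / m ≤ H / r := div_le_div_of_nonneg_left hH0.le hr (le_max_right _ _)
      have h2 : (2:ℝ) ^ n < 2 ^ (n0 + 1) := hn1.trans_lt (h1.trans_lt hn0)
      exact (pow_lt_pow_iff_right₀ one_lt_two).1 h2
    have h3 : m ≤ H / 2 ^ n := by
      rw [le_div_iff₀ (by positivity)]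
      rw [le_div_iff₀ hm0] at hn1
      linarith
    have h4 := Finset.single_le_sum hsum hn
    rw [if_pos ((le_max_left _ _).trans h3)] at h4
    have h5 : H / 2 ^ n / 2 ≤ m := by
      rw [div_lt_iff₀ hm0, pow_succ] at hn2
      rw [div_div, div_le_iff₀ (by positivity)]
      linarith
    have h6 : m ^ (-(1/2) : ℝ) ≤ (H / 2 ^ n / 2) ^ (-(1/2) : ℝ) :=
      Real.rpow_le_rpow_of_nonpos (by positivity) h5 (by norm_num)
    have h7 : (H / 2 ^ n / 2) ^ (-(1/2) : ℝ) ≤ 2 * (H / 2 ^ n) ^ (-(1/2) : ℝ) := by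
      rw [Real.div_rpow (by positivity) (by norm_num), Real.rpow_neg (by norm_num : (0:ℝ) ≤ 2),
        div_inv_eq_mul, mul_comm]
      have h8 : (2:ℝ) ^ (1/2 : ℝ) ≤ 2 := by
        calc (2:ℝ) ^ (1/2 : ℝ) ≤ 2 ^ (1 : ℝ) :=
              Real.rpow_le_rpow_of_exponent_le (by norm_num) (by norm_num)
          _ = 2 := Real.rpow_one 2
      exact mul_le_mul_of_nonneg_right h8 (by positivity)
    have h9 : 0 ≤ H ^ (-(1/2) : ℝ) := by positivity
    linarith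

/-- The constant in the next bound. -/
noncomputable def Ga (a : ℝ) : ℝ := 1 + 2 / (1 - (2:ℝ) ^ (-(a - 1/2)))

theorem Ga_pos {a : ℝ} (ha : 1/2 < a) : 0 < Ga a := by
  unfold Ga
  have h : (2:ℝ) ^ (-(a - 1/2)) < 1 := Real.rpow_lt_one_of_one_lt_of_neg one_lt_two (by linarith)
  have : 0 < 1 - (2:ℝ) ^ (-(a - 1/2)) := by linarith
  positivity

open Classical in
theorem ker_sum {r H N a : ℝ} (hr : 0 < r) (hH : r ≤ H) (ha : 1/2 < a) (hN : 0 ≤ N)
    (Y : Finset ℂ) (hY : (Y.card : ℝ) ≤ N * (H / r) ^ a)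
    (hreg : ∀ (z : ℂ) (h : ℝ), r ≤ h →
      ((Y.filter (fun y => dist y z ≤ h)).card : ℝ) ≤ N * (h / r) ^ a)
    {W : ℝ} (hW : r ≤ W) (z : ℂ) :
    ∑ y ∈ Y, ker W (y - z) ≤ N * Ga a * (r ^ (-a) * H ^ (a - 1/2)) := by
  have hH0 : 0 < H := hr.trans_le hH
  obtain ⟨n0, hn1, hn2⟩ := exists_nat_pow_near (x := H / r) (y := (2:ℝ))
    (by rwa [le_div_iff₀ hr, one_mul]) one_lt_two
  have h1 : ∀ y ∈ Y, ker W (y - z) ≤ H ^ (-(1/2) : ℝ) +
      ∑ n ∈ range (n0 + 1), if dist y z ≤ H / 2 ^ n then 2 * (H / 2 ^ n) ^ (-(1/2) : ℝ) else 0 := by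
    intro y _
    refine (ker_anti hr hW _).trans ?_
    unfold ker
    rw [dist_eq_norm]
    exact ker_pt hr hH n0 hn2 _
  refine (Finset.sum_le_sum h1).trans ?_
  rw [Finset.sum_add_distrib, Finset.sum_const, nsmul_eq_mul, Finset.sum_comm]
  have h2 : ∀ n ∈ range (n0 + 1), ∑ y ∈ Y, (if dist y z ≤ H / 2 ^ n then
      2 * (H / 2 ^ n) ^ (-(1/2) : ℝ) else 0) ≤
      2 * N * (r ^ (-a) * H ^ (a - 1/2)) * ((2:ℝ) ^ (-(a - 1/2))) ^ n := by
    intro n hn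
    rw [← Finset.sum_filter, Finset.sum_const, nsmul_eq_mul]
    have hnr : r ≤ H / 2 ^ n := by
      rw [Finset.mem_range] at hn
      have h3 : (2:ℝ) ^ n ≤ 2 ^ n0 := pow_le_pow_right₀ one_le_two (by omega)
      have h4 := h3.trans hn1
      rw [le_div_iff₀ hr] at h4
      rw [le_div_iff₀ (by positivity)]
      linarith
    have h5 := hreg z (H / 2 ^ n) hnr
    have h6 : (0:ℝ) ≤ 2 * (H / 2 ^ n) ^ (-(1/2) : ℝ) := by positivity
    refine (mul_le_mul_of_nonneg_right h5 h6).trans (le_of_eq ?_)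
    have hp : (0:ℝ) < 2 ^ n := by positivity
    have e1 : (H / 2 ^ n) ^ (-(1/2) : ℝ) = H ^ (-(1/2) : ℝ) * ((2:ℝ) ^ n) ^ (1/2 : ℝ) := by
      rw [Real.div_rpow hH0.le hp.le, Real.rpow_neg hp.le, div_inv_eq_mul]
    have e2 : (H / 2 ^ n / r) ^ a = H ^ a * r ^ (-a) * ((2:ℝ) ^ n) ^ (-a) := by
      rw [Real.div_rpow (by positivity) hr.le, Real.div_rpow hH0.le hp.le, Real.rpow_neg hr.le,
        Real.rpow_neg hp.le]
      field_simp
    have e3 : ((2:ℝ) ^ (-(a - 1/2))) ^ n = ((2:ℝ) ^ n) ^ (-a) * ((2:ℝ) ^ n) ^ (1/2 : ℝ) := by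
      rw [← Real.rpow_add hp, ← Real.rpow_natCast, ← Real.rpow_mul (by norm_num),
        ← Real.rpow_natCast, ← Real.rpow_mul (by norm_num)]
      congr 1
      ring
    have e4 : H ^ (a - 1/2) = H ^ a * H ^ (-(1/2) : ℝ) := by
      rw [← Real.rpow_add hH0]; congr 1
    rw [e1, e2, e3, e4]
    ring
  have h3 := Finset.sum_le_sum h2
  rw [← Finset.mul_sum] at h3
  have hq0 : (0:ℝ) < 2 ^ (-(a - 1/2)) := by positivity
  have hq1 : (2:ℝ) ^ (-(a - 1/2)) < 1 := Real.rpow_lt_one_of_one_lt_of_neg one_lt_two (by linarith)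
  have h4 : ∑ n ∈ range (n0 + 1), ((2:ℝ) ^ (-(a - 1/2))) ^ n ≤ 1 / (1 - (2:ℝ) ^ (-(a - 1/2))) := by
    have := (summable_geometric_of_lt_one hq0.le hq1).sum_le_tsum (range (n0 + 1))
      (fun n _ => by positivity)
    rw [tsum_geometric_of_lt_one hq0.le hq1, ← one_div] at this
    exact this
  have hX : 0 ≤ 2 * N * (r ^ (-a) * H ^ (a - 1/2)) := by positivity
  have h5 := mul_le_mul_of_nonneg_left h4 hX
  have h6 : (Y.card : ℝ) * H ^ (-(1/2) : ℝ) ≤ N * (r ^ (-a) * H ^ (a - 1/2)) := by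
    refine (mul_le_mul_of_nonneg_right hY (by positivity)).trans (le_of_eq ?_)
    rw [Real.div_rpow hH0.le hr.le, Real.rpow_neg hr.le,
      show a - 1/2 = a + (-(1/2)) by ring, Real.rpow_add hH0]
    field_simp
  calc _ ≤ N * (r ^ (-a) * H ^ (a - 1/2)) +
        2 * N * (r ^ (-a) * H ^ (a - 1/2)) * (1 / (1 - (2:ℝ) ^ (-(a - 1/2)))) := by linarith
    _ = _ := by unfold Ga; ring

end Pool.Agent.N892.AC
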