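import Pool.Agent.N892.AC.Net
import Pool.Agent.H443R3.UD.Lim2

/-!
The time which the exploration path and its scaling limits spend near a finite set of points.
-/

set_option autoImplicit false

namespace Pool.Agent.N892.AC

open H974 Finset H342P H984P H984N H443U H443P MeasureTheory Filter Topology

/-- The points of the rectangle at distance at least `η` from the boundary. -/
def Dep (R : Rect) (η : ℝ) : Set ℂ :=
  {z | -R.A + η ≤ z.re ∧ z.re ≤ R.B - η ∧ η ≤ z.im ∧ z.im ≤ R.H - η}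

theorem bd_dep (R : Rect) {δ η : ℝ} (hδ : 0 < δ) (v : ℤ × ℤ) (h : pv δ v ∈ Dep R (η + δ)) :
    ⌈η / δ⌉ ≤ (R.dm δ).bd v := by
  obtain ⟨h1, h2, h3, h4⟩ := h
  simp only [pv] at h1 h2 h3 h4
  have f1 : ((⌊-(R.A / δ)⌋ : ℤ) : ℝ) ≤ -(R.A / δ) := Int.floor_le _
  have f2 : R.B / δ ≤ ((⌈R.B / δ⌉ : ℤ) : ℝ) := Int.le_ceil _
  have f3 : R.H / δ ≤ ((⌈R.H / δ⌉ : ℤ) : ℝ) := Int.le_ceil _
  have g1 : -(R.A / δ) + η / δ + 1 ≤ v.1 := by
    have : -(R.A / δ) + η / δ + 1 = (-R.A + (η + δ)) / δ := by field_simp; ring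
    rw [this, div_le_iff₀ hδ]; linarith
  have g2 : (v.1 : ℝ) ≤ R.B / δ - η / δ - 1 := by
    have : R.B / δ - η / δ - 1 = (R.B - (η + δ)) / δ := by field_simp; ring
    rw [this, le_div_iff₀ hδ]; linarith
  have g3 : η / δ + 1 ≤ v.2 + 1 := by
    have : η / δ + 1 = (η + δ) / δ := by field_simp
    rw [this, div_le_iff₀ hδ]; linarith
  have g4 : (v.2 : ℝ) + 1 ≤ R.H / δ - η / δ - 1 := by
    have : R.H / δ - η / δ - 1 = (R.H - (η + δ)) / δ := by field_simp; ring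
    rw [this, le_div_iff₀ hδ]; linarith
  have c1 : ⌈η / δ⌉ ≤ v.1 - (⌊-(R.A / δ)⌋ + 1) := by
    apply Int.ceil_le.2; push_cast; linarith
  have c2 : ⌈η / δ⌉ ≤ (⌈R.B / δ⌉ - 1) - v.1 := by
    apply Int.ceil_le.2; push_cast; linarith
  have c3 : ⌈η / δ⌉ ≤ v.2 := by
    apply Int.ceil_le.2; linarith
  have c4 : ⌈η / δ⌉ ≤ (⌈R.H / δ⌉ - 2) - v.2 := by
    apply Int.ceil_le.2; push_cast; linarith
  show ⌈η / δ⌉ ≤ min (min (v.1 - (⌊-(R.A / δ)⌋ + 1)) ((⌈R.B / δ⌉ - 1) - v.1))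
    (min v.2 ((⌈R.H / δ⌉ - 2) - v.2))
  exact le_min (le_min c1 c2) (le_min c3 c4)

theorem dep_near (R : Rect) {η W : ℝ} {y z : ℂ} (hy : y ∈ Dep R (η + W)) (h : dist z y ≤ W) :
    z ∈ Dep R η := by
  obtain ⟨h1, h2, h3, h4⟩ := hy
  rw [dist_eq_norm] at h
  have a1 := (Complex.abs_re_le_norm (z - y)).trans h
  have a2 := (Complex.abs_im_le_norm (z - y)).trans h
  rw [abs_le, Complex.sub_re] at a1
  rw [abs_le, Complex.sub_im] at a2
  refine ⟨?_, ?_, ?_, ?_⟩ <;> linarith [a1.1, a1.2, a2.1, a2.2]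

/-- The times at which a curve is near a finite set of points. -/
def Nr (Y : Finset ℂ) (w0 : ℝ) (f : C(unitInterval, ℂ)) : Set unitInterval :=
  {s | ∃ y ∈ Y, dist (f s) y < w0}

open Classical in
/-- The vertices near a finite set of points. -/
noncomputable def QQ (D : Dm) (δ W : ℝ) (Y : Finset ℂ) : Finset Vtx :=
  (rectV D).filter (fun v => ∃ y ∈ Y, dist (pv δ v) y ≤ W)

/-- The time spent near the points is at most the number of the visited vertices. -/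
theorem time_vol {R : Rect} {δ : ℝ} {F : Finset Edg} (hδ : 0 < δ)
    (hD : (R.dm δ).Ok) (hF : F ⊆ (R.dm δ).edges) (Y : Finset ℂ) {w0 : ℝ} :
    R.time δ F * (volume (Nr Y w0 (R.curve δ F))).toReal ≤
      4 * δ ^ (7/4 : ℝ) * (NQ (R.dm δ) (QQ (R.dm δ) δ (w0 + δ) Y) F : ℝ) := by
  classical
  set D := R.dm δ with hDdef
  set N := D.len F with hN
  have hδp : 0 < δ ^ (7/4 : ℝ) := Real.rpow_pos_of_pos hδ _
  have htime : R.time δ F = δ ^ (7/4 : ℝ) * (N : ℝ) := rfl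
  rcases Nat.eq_zero_or_pos N with h0 | hNpos
  · rw [htime, h0]
    simp only [Nat.cast_zero, mul_zero, zero_mul]
    positivity
  have hNr : (0:ℝ) < N := by exact_mod_cast hNpos
  set p : ℕ → ℂ := fun k => pos δ (D.walk F k) with hp
  have hstep : ∀ k < N, dist (p k) (p (k + 1)) ≤ δ / 2 := by
    intro k _
    have := pos_nxt hδ.le (D.cfg F) (D.walk F k)
    rwa [← walk_succ] at this
  set K : Finset ℕ := (Finset.range N).filter (fun k => ∃ y ∈ Y, dist (p k) y < w0 + δ / 2)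
    with hK
  have hsub : Nr Y w0 (R.curve δ F) ⊆ ⋃ k ∈ K, EnergyC_I N k := by
    intro s hs
    obtain ⟨k, hk, hks⟩ := EnergyC_cover hNpos s
    have h1 := EnergyC_near hstep hk hks
    obtain ⟨y, hy, hs'⟩ := hs
    have hs'' : dist (pl N p s) y < w0 := hs'
    have h2 := dist_triangle (p k) (pl N p s) y
    have h3 : dist (p k) y < w0 + δ / 2 := by
      have h4 : dist (p k) (pl N p s) ≤ δ / 2 := by
        first
          | exact h1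
          | (rw [dist_comm]; exact h1)
      linarith
    simp only [Set.mem_iUnion]
    exact ⟨k, Finset.mem_filter.mpr ⟨Finset.mem_range.mpr hk, y, hy, h3⟩, hks⟩
  have hcN : K.card ≤ 4 * NQ D (QQ D δ (w0 + δ) Y) F := by
    set T : Finset St := ((QQ D δ (w0 + δ) Y).filter (VV D F)) ×ˢ (Finset.univ : Finset Q4)
      with hT
    have hTc : T.card = 4 * NQ D (QQ D δ (w0 + δ) Y) F := by
      rw [hT, Finset.card_product, Finset.card_univ, show Fintype.card Q4 = 4 from rfl,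
        mul_comm]
      rfl
    rw [← hTc]
    refine Finset.card_le_card_of_injOn (fun k => D.walk F k) ?_ ?_
    · intro k hk
      have hk' : k ∈ K := hk
      rw [hK, Finset.mem_filter, Finset.mem_range] at hk'
      obtain ⟨hk1, y, hy, hk2⟩ := hk'
      have hkl : k ≤ D.len F := hk1.le
      have hclu := clu_inR hD hF (walk_clu hD hF hkl).1
      show D.walk F k ∈ T
      rw [hT, Finset.mem_product]
      refine ⟨Finset.mem_filter.mpr ⟨?_, ⟨(D.walk F k).2, k, hkl, rfl⟩⟩, Finset.mem_univ _⟩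
      unfold QQ
      rw [Finset.mem_filter]
      constructor
      · unfold rectV
        rw [Finset.mem_product, Finset.mem_Icc, Finset.mem_Icc]
        exact hclu
      · refine ⟨y, hy, ?_⟩
        have h5 := dist_pos_pv hδ.le (D.walk F k)
        have h6 := dist_triangle (pv δ (D.walk F k).1) (p k) y
        rw [dist_comm (pv δ (D.walk F k).1) (p k)] at h6
        have h7 : dist (p k) (pv δ (D.walk F k).1) ≤ δ / 2 := h5
        linarith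
    · intro i hi j hj hij
      have hi' : i ∈ K := hi
      have hj' : j ∈ K := hj
      rw [hK, Finset.mem_filter, Finset.mem_range] at hi' hj'
      by_contra hne
      rcases Nat.lt_or_gt_of_ne hne with h | h
      · exact walk_inj hD hF h hj'.1.le hij
      · exact walk_inj hD hF h hi'.1.le hij.symm
  have hvol : volume (Nr Y w0 (R.curve δ F)) ≤ ENNReal.ofReal (K.card * (1 / N)) := by
    refine (measure_mono hsub).trans ((measure_biUnion_finset_le _ _).trans ?_)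
    have h1 : ∀ k ∈ K, volume (EnergyC_I N k) ≤ ENNReal.ofReal (1 / N) := by
      intro k _
      have := EnergyC_vol k hNpos
      rw [← ENNReal.ofReal_toReal (measure_ne_top volume (EnergyC_I N k))]
      exact ENNReal.ofReal_le_ofReal this
    refine (Finset.sum_le_sum h1).trans ?_
    rw [Finset.sum_const, nsmul_eq_mul, ENNReal.ofReal_mul (Nat.cast_nonneg _),
      ENNReal.ofReal_natCast]
  have hvol' : (volume (Nr Y w0 (R.curve δ F))).toReal ≤ K.card * (1 / N) := by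
    apply ENNReal.toReal_le_of_le_ofReal (by positivity) hvol
  have hcN' : (K.card : ℝ) ≤ 4 * (NQ D (QQ D δ (w0 + δ) Y) F : ℝ) := by exact_mod_cast hcN
  rw [htime]
  calc δ ^ (7/4 : ℝ) * (N : ℝ) * (volume (Nr Y w0 (R.curve δ F))).toReal
      ≤ δ ^ (7/4 : ℝ) * (N : ℝ) * (K.card * (1 / N)) :=
        mul_le_mul_of_nonneg_left hvol' (by positivity)
    _ = δ ^ (7/4 : ℝ) * K.card := by field_simp
    _ ≤ δ ^ (7/4 : ℝ) * (4 * (NQ D (QQ D δ (w0 + δ) Y) F : ℝ)) :=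
        mul_le_mul_of_nonneg_left hcN' hδp.le
    _ = _ := by ring

theorem ker_anti {W W' : ℝ} (hW : 0 < W) (h : W ≤ W') (z : ℂ) : ker W' z ≤ ker W z := by
  unfold ker
  exact Real.rpow_le_rpow_of_nonpos (lt_max_of_lt_right hW) (max_le_max le_rfl h) (by norm_num)

/-- The scale of the time spent near the points. -/
noncomputable def Bd (n : ℕ) (w0 ρ M : ℝ) : ℝ :=
  w0 ^ 2 * (n * ρ ^ (-(1/4) : ℝ) + ρ ^ (1/4 : ℝ) * M)

open Classical in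
/-- The two sums of weights over the vertices near the points. -/
theorem lat_sums (R : Rect) {δ w0 ρ M : ℝ} (hδ : 0 < δ) (hw0 : 0 < w0) (hρ : 0 < ρ) (hM : 0 < M)
    (hδw : 2 * δ ≤ w0) (hδρ : δ ≤ ρ) (Y : Finset ℂ) (hY : ∀ y ∈ Y, y ∈ Dep R (ρ + 2 * w0))
    (hker : ∀ z : ℂ, ∑ y ∈ Y, ker w0 (y - z) ≤ M) :
    (∑ v ∈ QQ (R.dm δ) δ (w0 + δ) Y, w ((R.dm δ).bd v) +
      (QQ (R.dm δ) δ (w0 + δ) Y).card * w ⌈ρ / δ⌉ ≤
        16384 * Bd Y.card w0 ρ M * δ ^ (-(7/4) : ℝ)) ∧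
    (∀ u ∈ QQ (R.dm δ) δ (w0 + δ) Y,
      (∑ v ∈ QQ (R.dm δ) δ (w0 + δ) Y, w (H443U.sd v u) ^ 2) / w ⌈ρ / δ⌉ ≤
        16384 * Bd Y.card w0 ρ M * δ ^ (-(7/4) : ℝ)) := by
  set D := R.dm δ with hD
  set W : ℝ := w0 + δ with hW
  set Q := QQ D δ W Y with hQ
  have hWδ : δ ≤ W := by rw [hW]; linarith
  have hW0 : 0 < W := by rw [hW]; linarith
  have hW2 : W ≤ 2 * w0 := by rw [hW]; linarith
  have hρδ : 1 ≤ ρ / δ := by rwa [le_div_iff₀ hδ, one_mul]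
  have hr1 : ρ / δ ≤ ((⌈ρ / δ⌉ : ℤ) : ℝ) := Int.le_ceil _
  have hr2 : ((⌈ρ / δ⌉ : ℤ) : ℝ) ≤ 2 * (ρ / δ) := by
    have := Int.ceil_lt_add_one (ρ / δ)
    linarith
  have hr0 : 0 < ⌈ρ / δ⌉ := by
    have : (0:ℝ) < ((⌈ρ / δ⌉ : ℤ) : ℝ) := by linarith
    exact_mod_cast this
  have hwr : w ⌈ρ / δ⌉ = ((⌈ρ / δ⌉ : ℤ) : ℝ) ^ (-(1/4) : ℝ) := by
    unfold w; rw [if_neg (by omega)]
  have hw1 : w ⌈ρ / δ⌉ ≤ (ρ / δ) ^ (-(1/4) : ℝ) := by
    rw [hwr]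
    exact Real.rpow_le_rpow_of_nonpos (by linarith) hr1 (by norm_num)
  have hwpos : 0 < w ⌈ρ / δ⌉ := w_pos _
  have hw2 : 1 / w ⌈ρ / δ⌉ ≤ 2 * (ρ / δ) ^ (1/4 : ℝ) := by
    rw [hwr, Real.rpow_neg (by positivity), one_div, inv_inv]
    have h1 : ((⌈ρ / δ⌉ : ℤ) : ℝ) ^ (1/4 : ℝ) ≤ (2 * (ρ / δ)) ^ (1/4 : ℝ) :=
      Real.rpow_le_rpow (by positivity) hr2 (by norm_num)
    rw [Real.mul_rpow (by norm_num) (by positivity)] at h1
    have h2 : (2:ℝ) ^ (1/4 : ℝ) ≤ 2 := by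
      calc (2:ℝ) ^ (1/4 : ℝ) ≤ 2 ^ (1 : ℝ) :=
            Real.rpow_le_rpow_of_exponent_le (by norm_num) (by norm_num)
        _ = 2 := Real.rpow_one 2
    have h3 : 0 ≤ (ρ / δ) ^ (1/4 : ℝ) := by positivity
    nlinarith
  have hcov : ∀ v ∈ Q, ∃ y ∈ Y, dist (pv δ v) y ≤ W := by
    intro v hv
    rw [hQ] at hv
    unfold QQ at hv
    rw [Finset.mem_filter] at hv
    exact hv.2
  have hcard : (Q.card : ℝ) ≤ Y.card * (16 * (W / δ) ^ 2) := by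
    have h1 := sum_cover Q Y (fun y v => dist (pv δ v) y ≤ W) (fun _ => (1:ℝ))
      (fun _ _ => zero_le_one) hcov
    simp only [Finset.sum_const, nsmul_eq_mul, mul_one] at h1
    refine h1.trans ?_
    have h2 : ∀ y ∈ Y, ((Q.filter (fun v => dist (pv δ v) y ≤ W)).card : ℝ) ≤
        16 * (W / δ) ^ 2 := fun y _ => near_card hδ hWδ y Q
    refine (Finset.sum_le_sum h2).trans ?_
    rw [Finset.sum_const, nsmul_eq_mul]
  have e1 : (W / δ) ^ 2 ≤ 4 * w0 ^ 2 * (δ⁻¹) ^ 2 := by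
    have : (W / δ) ^ 2 ≤ (2 * w0 / δ) ^ 2 := by gcongr
    refine this.trans (le_of_eq ?_)
    field_simp; ring
  have hδi : (δ⁻¹) ^ 2 = δ ^ (-(2:ℝ)) := by
    rw [Real.rpow_neg hδ.le, show (2:ℝ) = ((2:ℕ):ℝ) by norm_num, Real.rpow_natCast, inv_pow]
  have hp1 : (ρ / δ) ^ (-(1/4) : ℝ) = ρ ^ (-(1/4) : ℝ) * δ ^ (1/4 : ℝ) := by
    rw [Real.div_rpow hρ.le hδ.le, Real.rpow_neg hδ.le, div_inv_eq_mul]
  have hp2 : (ρ / δ) ^ (1/4 : ℝ) = ρ ^ (1/4 : ℝ) * δ ^ (-(1/4) : ℝ) := by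
    rw [Real.div_rpow hρ.le hδ.le, Real.rpow_neg hδ.le, div_eq_mul_inv]
  have hq1 : δ ^ (-(2:ℝ)) * δ ^ (1/4 : ℝ) = δ ^ (-(7/4) : ℝ) := by
    rw [← Real.rpow_add hδ]; norm_num
  have hq2 : δ ^ (-(2:ℝ)) * (δ ^ (1/2 : ℝ) * δ ^ (-(1/4) : ℝ)) = δ ^ (-(7/4) : ℝ) := by
    rw [← Real.rpow_add hδ, ← Real.rpow_add hδ]; norm_num
  have hδp : 0 < δ ^ (-(7/4) : ℝ) := Real.rpow_pos_of_pos hδ _
  have hBpos : 0 ≤ w0 ^ 2 * (ρ ^ (1/4 : ℝ) * M) * δ ^ (-(7/4) : ℝ) := by positivity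
  have hBpos' : 0 ≤ w0 ^ 2 * (Y.card * ρ ^ (-(1/4) : ℝ)) * δ ^ (-(7/4) : ℝ) := by positivity
  have hBe : Bd Y.card w0 ρ M * δ ^ (-(7/4) : ℝ) =
      w0 ^ 2 * (Y.card * ρ ^ (-(1/4) : ℝ)) * δ ^ (-(7/4) : ℝ) +
      w0 ^ 2 * (ρ ^ (1/4 : ℝ) * M) * δ ^ (-(7/4) : ℝ) := by unfold Bd; ring
  have hQw : (Q.card : ℝ) * w ⌈ρ / δ⌉ ≤
      64 * (w0 ^ 2 * (Y.card * ρ ^ (-(1/4) : ℝ)) * δ ^ (-(7/4) : ℝ)) := by
    calc (Q.card : ℝ) * w ⌈ρ / δ⌉ ≤ (Y.card * (16 * (4 * w0 ^ 2 * (δ⁻¹) ^ 2))) *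
          (ρ / δ) ^ (-(1/4) : ℝ) := by
            apply mul_le_mul _ hw1 hwpos.le (by positivity)
            refine hcard.trans ?_
            gcongr
      _ = 64 * (w0 ^ 2 * (Y.card * ρ ^ (-(1/4) : ℝ)) * (δ ^ (-(2:ℝ)) * δ ^ (1/4 : ℝ))) := by
          rw [hp1, hδi]; ring
      _ = _ := by rw [hq1]
  constructor
  · have hbd : ∀ v ∈ Q, w (D.bd v) ≤ w ⌈ρ / δ⌉ := by
      intro v hv
      apply w_anti
      obtain ⟨y, hy, hvy⟩ := hcov v hv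
      apply bd_dep R hδ v
      apply dep_near R (W := W) (y := y) _ hvy
      obtain ⟨a1, a2, a3, a4⟩ := hY y hy
      refine ⟨?_, ?_, ?_, ?_⟩ <;> linarith
    have h1 : ∑ v ∈ Q, w (D.bd v) ≤ Q.card * w ⌈ρ / δ⌉ := by
      refine (Finset.sum_le_sum hbd).trans ?_
      rw [Finset.sum_const, nsmul_eq_mul]
    rw [mul_assoc 16384, hBe]
    linarith
  · intro u hu
    have h1 := sum_cover Q Y (fun y v => dist (pv δ v) y ≤ W) (fun v => w (H443U.sd v u) ^ 2)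
      (fun _ _ => sq_nonneg _) hcov
    have h2 : ∀ y ∈ Y, ∑ v ∈ Q.filter (fun v => dist (pv δ v) y ≤ W), w (H443U.sd v u) ^ 2 ≤
        2048 * (W / δ) ^ 2 * (δ ^ (1/2 : ℝ) * ker w0 (y - pv δ u)) := by
      intro y _
      refine (near_sum hδ hWδ y Q u).trans ?_
      have h3 : ker W (y - pv δ u) ≤ ker w0 (y - pv δ u) := ker_anti hw0 (by rw [hW]; linarith) _
      gcongr
    have h4 : ∑ v ∈ Q, w (H443U.sd v u) ^ 2 ≤
        2048 * (4 * w0 ^ 2 * (δ⁻¹) ^ 2) * (δ ^ (1/2 : ℝ) * M) := by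
      refine h1.trans ((Finset.sum_le_sum h2).trans ?_)
      rw [← Finset.mul_sum, ← Finset.mul_sum]
      have h5 := hker (pv δ u)
      have h6 : 0 ≤ ∑ y ∈ Y, ker w0 (y - pv δ u) :=
        Finset.sum_nonneg fun y _ => (ker_pos hw0 _).le
      have h7 : 0 ≤ δ ^ (1/2 : ℝ) * ∑ y ∈ Y, ker w0 (y - pv δ u) :=
        mul_nonneg (by positivity) h6
      gcongr
    rw [div_eq_mul_one_div]
    calc (∑ v ∈ Q, w (H443U.sd v u) ^ 2) * (1 / w ⌈ρ / δ⌉)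
        ≤ (2048 * (4 * w0 ^ 2 * (δ⁻¹) ^ 2) * (δ ^ (1/2 : ℝ) * M)) *
          (2 * (ρ / δ) ^ (1/4 : ℝ)) := by
            apply mul_le_mul h4 hw2 (by positivity) (by positivity)
      _ = 16384 * (w0 ^ 2 * (ρ ^ (1/4 : ℝ) * M) *
          (δ ^ (-(2:ℝ)) * (δ ^ (1/2 : ℝ) * δ ^ (-(1/4) : ℝ)))) := by
          rw [hp2, hδi]; ring
      _ = 16384 * (w0 ^ 2 * (ρ ^ (1/4 : ℝ) * M) * δ ^ (-(7/4) : ℝ)) := by rw [hq2]
      _ ≤ _ := by
          rw [mul_assoc 16384 (Bd _ _ _ _), hBe]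
          linarith

/-- Curves which spend little time near the points. -/
def NB (Y : Finset ℂ) (w0 c : ℝ) : Set X := {p | p.2 * (volume (Nr Y w0 p.1)).toReal ≤ c}

/-- The time spent near the points, at all small meshes. -/
theorem mesh_near {C : ℝ} (hC : 0 < C) (hU : TwoUp C (1/4)) (k : ℕ) :
    ∃ K : ℝ, 0 < K ∧ ∀ (R : Rect) (Y : Finset ℂ) (w0 ρ M t : ℝ), 0 < w0 → 0 < ρ → 0 < M →
      0 < t → (∀ y ∈ Y, y ∈ Dep R (ρ + 2 * w0)) → (∀ z : ℂ, ∑ y ∈ Y, ker w0 (y - z) ≤ M) →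
      ∃ δ0 : ℝ, 0 < δ0 ∧ ∀ δ : ℝ, 0 < δ → δ ≤ δ0 →
        R.prob δ (fun F => (R.curve δ F, R.time δ F) ∉ NB Y w0 (t * Bd Y.card w0 ρ M)) ≤
          K * (1 / t) ^ k := by
  obtain ⟨K, hK, H⟩ := tail hC hU k
  refine ⟨K * 65536 ^ k, by positivity, ?_⟩
  intro R Y w0 ρ M t hw0 hρ hM ht hY hker
  obtain ⟨κ, S, δ3, -, hS0, hδ3, hδ31, H3⟩ := R.shape
  set B : ℝ := Bd Y.card w0 ρ M with hB
  have hB0 : 0 < B := by
    rw [hB]; unfold Bd
    have h1 : 0 < ρ ^ (1/4 : ℝ) * M := by positivity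
    have h2 : 0 ≤ (Y.card : ℝ) * ρ ^ (-(1/4) : ℝ) := by positivity
    positivity
  set q : ℝ := (t * B / (8 * k + 8)) ^ (4/7 : ℝ) with hq
  have hq0 : 0 < q := by positivity
  refine ⟨min (min δ3 q) (min (w0 / 2) ρ), by positivity, fun δ hδ hδm => ?_⟩
  have d3 : δ ≤ δ3 := hδm.trans ((min_le_left _ _).trans (min_le_left _ _))
  have dq : δ ≤ q := hδm.trans ((min_le_left _ _).trans (min_le_right _ _))
  have dw : δ ≤ w0 / 2 := hδm.trans ((min_le_right _ _).trans (min_le_left _ _))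
  have dρ : δ ≤ ρ := hδm.trans ((min_le_right _ _).trans (min_le_right _ _))
  have hok := (H3 δ hδ d3).ok
  obtain ⟨L1, L2⟩ := lat_sums R hδ hw0 hρ hM (by linarith) dρ Y hY hker
  have hδp : 0 < δ ^ (-(7/4) : ℝ) := Real.rpow_pos_of_pos hδ _
  have hδq : 0 < δ ^ (7/4 : ℝ) := Real.rpow_pos_of_pos hδ _
  have hδ1 : δ ^ (7/4 : ℝ) * δ ^ (-(7/4) : ℝ) = 1 := by
    rw [← Real.rpow_add hδ]; norm_num
  have hδ74 : δ ^ (7/4 : ℝ) ≤ t * B / (8 * k + 8) := by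
    have h1 := Real.rpow_le_rpow hδ.le dq (by norm_num : (0:ℝ) ≤ 7/4)
    rwa [hq, ← Real.rpow_mul (by positivity), show (4/7 * (7/4) : ℝ) = 1 by norm_num,
      Real.rpow_one] at h1
  set lam : ℝ := t * B * δ ^ (-(7/4) : ℝ) / 4 with hlam
  have hlam0 : 0 < lam := by positivity
  have hlam2 : 2 * k ≤ lam := by
    rw [le_div_iff₀ (by positivity)] at hδ74
    have h1 := mul_le_mul_of_nonneg_right hδ74 hδp.le
    have h2 : δ ^ (7/4 : ℝ) * (8 * k + 8) * δ ^ (-(7/4) : ℝ) = 8 * k + 8 := by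
      rw [mul_right_comm, hδ1, one_mul]
    rw [h2] at h1
    rw [hlam, le_div_iff₀ (by norm_num)]
    linarith
  have hA := H (R.dm δ) hok ⌈ρ / δ⌉ (QQ (R.dm δ) δ (w0 + δ) Y)
    (16384 * B * δ ^ (-(7/4) : ℝ)) (by positivity) L1 L2 lam hlam2 hlam0
  have hrat : 16384 * B * δ ^ (-(7/4) : ℝ) / lam = 65536 * (1 / t) := by
    rw [hlam]; field_simp; norm_num
  rw [hrat, mul_pow] at hA
  refine le_trans (Pr_mono okh fun F hF h => ?_) (hA.trans (le_of_eq (by ring)))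
  have h' : ¬ (R.time δ F * (volume (Nr Y w0 (R.curve δ F))).toReal ≤ t * B) := h
  push Not at h'
  have h2 := time_vol (R := R) hδ hok hF Y (w0 := w0)
  have h3 : t * B < 4 * δ ^ (7/4 : ℝ) *
      (NQ (R.dm δ) (QQ (R.dm δ) δ (w0 + δ) Y) F : ℝ) := h'.trans_le h2
  have h4 := mul_lt_mul_of_pos_right h3 hδp
  have h5 : 4 * δ ^ (7/4 : ℝ) * (NQ (R.dm δ) (QQ (R.dm δ) δ (w0 + δ) Y) F : ℝ) *
      δ ^ (-(7/4) : ℝ) = 4 * (NQ (R.dm δ) (QQ (R.dm δ) δ (w0 + δ) Y) F : ℝ) := by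
    rw [show 4 * δ ^ (7/4 : ℝ) * (NQ (R.dm δ) (QQ (R.dm δ) δ (w0 + δ) Y) F : ℝ) *
      δ ^ (-(7/4) : ℝ) = 4 * (NQ (R.dm δ) (QQ (R.dm δ) δ (w0 + δ) Y) F : ℝ) *
      (δ ^ (7/4 : ℝ) * δ ^ (-(7/4) : ℝ)) by ring, hδ1, mul_one]
  rw [h5] at h4
  show lam < _
  rw [hlam, div_lt_iff₀ (by norm_num)]
  linarith

theorem nb_closed (Y : Finset ℂ) {w0 c : ℝ} (hc : 0 ≤ c) : IsClosed (NB Y w0 c) := by
  rw [← isSeqClosed_iff_isClosed]
  intro u p hu hup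
  have hf : Tendsto (fun n => (u n).1) atTop (𝓝 p.1) := (continuous_fst.tendsto p).comp hup
  have hT : Tendsto (fun n => (u n).2) atTop (𝓝 p.2) := (continuous_snd.tendsto p).comp hup
  show p.2 * (volume (Nr Y w0 p.1)).toReal ≤ c
  rcases le_or_gt p.2 0 with h0 | h0
  · have : 0 ≤ (volume (Nr Y w0 p.1)).toReal := ENNReal.toReal_nonneg
    nlinarith
  have key : ∀ η : ℝ, 0 < η → (volume (Nr Y (w0 - η) p.1)).toReal ≤ c / p.2 := by
    intro η hη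
    rw [le_div_iff₀ h0, mul_comm]
    have h1 : Tendsto (fun n => (u n).2 * (volume (Nr Y (w0 - η) p.1)).toReal) atTop
        (𝓝 (p.2 * (volume (Nr Y (w0 - η) p.1)).toReal)) := hT.mul_const _
    refine le_of_tendsto h1 ?_
    have h2 : ∀ᶠ n in atTop, dist (u n).1 p.1 < η :=
      (tendsto_iff_dist_tendsto_zero.1 hf).eventually (gt_mem_nhds hη)
    have h3 : ∀ᶠ n in atTop, 0 < (u n).2 := hT.eventually (lt_mem_nhds h0)
    filter_upwards [h2, h3] with n hn hn0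
    have hsub : Nr Y (w0 - η) p.1 ⊆ Nr Y w0 (u n).1 := by
      rintro s ⟨y, hy, hs⟩
      refine ⟨y, hy, ?_⟩
      have h1 : dist ((u n).1 s) (p.1 s) ≤ dist (u n).1 p.1 := ContinuousMap.dist_apply_le_dist s
      have h2 := dist_triangle ((u n).1 s) (p.1 s) y
      linarith
    have h4 : (volume (Nr Y (w0 - η) p.1)).toReal ≤ (volume (Nr Y w0 (u n).1)).toReal :=
      ENNReal.toReal_mono (measure_ne_top _ _) (measure_mono hsub)
    have h5 : (u n).2 * (volume (Nr Y w0 (u n).1)).toReal ≤ c := hu n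
    nlinarith
  have hU : Nr Y w0 p.1 = ⋃ m : ℕ, Nr Y (w0 - 1 / ((m : ℝ) + 1)) p.1 := by
    ext s
    simp only [Set.mem_iUnion]
    constructor
    · rintro ⟨y, hy, hs⟩
      have hs' : 0 < w0 - dist (p.1 s) y := sub_pos.mpr hs
      obtain ⟨m, hm⟩ := exists_nat_one_div_lt hs'
      exact ⟨m, y, hy, by linarith⟩
    · rintro ⟨m, y, hy, hm⟩
      have : (0:ℝ) < 1 / ((m : ℝ) + 1) := by positivity
      exact ⟨y, hy, by linarith⟩
  have hmono : Monotone fun m : ℕ => Nr Y (w0 - 1 / ((m : ℝ) + 1)) p.1 := by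
    rintro m m' hmm s ⟨y, hy, hs⟩
    have : 1 / ((m' : ℝ) + 1) ≤ 1 / ((m : ℝ) + 1) := by
      apply one_div_le_one_div_of_le (by positivity)
      have : (m : ℝ) ≤ m' := by exact_mod_cast hmm
      linarith
    exact ⟨y, hy, by linarith⟩
  have hfin : volume (Nr Y w0 p.1) ≤ ENNReal.ofReal (c / p.2) := by
    rw [hU, hmono.measure_iUnion]
    refine iSup_le fun m => ?_
    rw [← ENNReal.ofReal_toReal (measure_ne_top volume (Nr Y (w0 - 1 / ((m : ℝ) + 1)) p.1))]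
    exact ENNReal.ofReal_le_ofReal (key _ (by positivity))
  have h6 : (volume (Nr Y w0 p.1)).toReal ≤ c / p.2 :=
    ENNReal.toReal_le_of_le_ofReal (by positivity) hfin
  rw [le_div_iff₀ h0] at h6
  linarith

/-- The time spent near the points, for the scaling limits. -/
theorem limit_near {C : ℝ} (hC : 0 < C) (hU : TwoUp C (1/4)) (k : ℕ) :
    ∃ K : ℝ, 0 < K ∧ ∀ (R : Rect) {δ : ℕ → ℝ} (_ : ∀ i, 0 < δ i) (_ : Tendsto δ atTop (𝓝 0))
      {μ : ProbabilityMeasure X} (_ : Tendsto (fun i => R.law (δ i)) atTop (𝓝 μ))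
      (Y : Finset ℂ) (w0 ρ M t : ℝ), 0 < w0 → 0 < ρ → 0 < M →
      0 < t → (∀ y ∈ Y, y ∈ Dep R (ρ + 2 * w0)) → (∀ z : ℂ, ∑ y ∈ Y, ker w0 (y - z) ≤ M) →
      (μ : Measure X) (NB Y w0 (t * Bd Y.card w0 ρ M))ᶜ ≤ ENNReal.ofReal (K * (1 / t) ^ k) := by
  obtain ⟨K, hK, H⟩ := mesh_near hC hU k
  refine ⟨K, hK, ?_⟩
  intro R δ hδ hlim μ hμ Y w0 ρ M t hw0 hρ hM ht hY hker
  obtain ⟨δ0, hδ0, h⟩ := H R Y w0 ρ M t hw0 hρ hM ht hY hker
  have hB : 0 ≤ Bd Y.card w0 ρ M := by unfold Bd; positivity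
  exact limit_closed R hδ hlim hμ (nb_closed Y (by positivity)) (by positivity) hδ0 h

end Pool.Agent.N892.AC
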