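import Pool.Agent.N892.AC.Sum
import Pool.Agent.H443R3.UD.Occ

/-!
Tail bound for the number of the visited vertices in sets of arbitrary shape.
-/

set_option autoImplicit false

namespace Pool.Agent.N892.AC

open H974 Finset H342P H984P H984N H443U H443P

/-- `D.bd` is `1`-Lipschitz. -/
theorem bd_lip (D : Dm) (u v : ℤ × ℤ) : D.bd u ≤ D.bd v + H443U.sd u v := by
  unfold Dm.bd H443U.sd
  rcases max_cases |u.1 - v.1| |u.2 - v.2| with ⟨hm, hm'⟩ | ⟨hm, hm'⟩ <;> rw [hm] <;>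
  rcases abs_cases (u.1 - v.1) with ⟨ha, _⟩ | ⟨ha, _⟩ <;>
  rcases abs_cases (u.2 - v.2) with ⟨ha', _⟩ | ⟨ha', _⟩ <;> omega

/-- Tail of the number of the visited vertices of `Q`. -/
theorem tail {C : ℝ} (hC : 0 < C) (hU : TwoUp C (1/4)) (k : ℕ) :
    ∃ K : ℝ, 0 < K ∧ ∀ (D : Dm), D.Ok → ∀ (r : ℤ) (Q : Finset Vtx) (A : ℝ), 0 < A →
      ∑ v ∈ Q, w (D.bd v) + Q.card * w r ≤ A →
      (∀ u ∈ Q, (∑ v ∈ Q, w (H443U.sd v u) ^ 2) / w r ≤ A) →
      ∀ lam : ℝ, 2 * k ≤ lam → 0 < lam →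
        P D.edges (fun F => lam < (NQ D Q F : ℝ)) ≤ K * (A / lam) ^ k := by
  obtain ⟨C', hC', h⟩ := gs k
  refine ⟨(6 * (4 * C + 1)) ^ k * C' * (2 ^ k * k.factorial), by positivity,
    fun D hD r Q A hA hA1 hA2 lam h2 hlam => ?_⟩
  have h3 : E D.edges (fun F => ((NQ D Q F).choose k : ℝ)) ≤
      (6 * (4 * C + 1)) ^ k * C' * A ^ k := by
    refine (binom_moment hC hU hD r Q k).trans ?_
    rw [mul_assoc]
    exact mul_le_mul_of_nonneg_left (h D.bd r Q A hA.le (bd_lip D) hA1 hA2) (by positivity)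
  set q : ℝ := (lam / 2) ^ k / k.factorial with hq
  have hq0 : 0 < q := by positivity
  have h4 : P D.edges (fun F => lam < (NQ D Q F : ℝ)) * q ≤
      E D.edges (fun F => ((NQ D Q F).choose k : ℝ)) := by
    unfold P Pr E
    rw [← Ex_mul_right]
    refine Ex_mono okh fun F _ => ?_
    by_cases hh : lam < (NQ D Q F : ℝ)
    · rw [ind_of hh, one_mul]
      have hN : 2 * k ≤ NQ D Q F := by
        have : (2 * k : ℝ) ≤ (NQ D Q F : ℝ) := h2.trans hh.le
        exact_mod_cast this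
      refine le_trans ?_ (choose_lower hN)
      rw [hq]
      gcongr
    · rw [ind_not_of hh, zero_mul]
      positivity
  have h5 : P D.edges (fun F => lam < (NQ D Q F : ℝ)) ≤
      (6 * (4 * C + 1)) ^ k * C' * A ^ k / q := by
    rw [le_div_iff₀ hq0]
    exact h4.trans h3
  refine h5.trans (le_of_eq ?_)
  rw [hq, div_pow, div_pow]
  field_simp

end Pool.Agent.N892.AC
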