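import Pool.Agent.N892.AC.Mom
import Pool.Agent.H443R3.UD.Lim

/-!
The lattice vertices near a finite set of points of the plane.
-/

set_option autoImplicit false

namespace Pool.Agent.N892.AC

open H974 Finset H342P H984P H984N H443U H443P

/-- The point of the plane at which a lattice vertex stands. -/
noncomputable def pv (δ : ℝ) (v : ℤ × ℤ) : ℂ := ⟨δ * v.1, δ * (v.2 + 1)⟩

theorem dist_pos_pv {δ : ℝ} (hδ : 0 ≤ δ) (σ : St) : dist (pos δ σ) (pv δ σ.1) ≤ δ / 2 := by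
  rw [dist_eq_norm]
  refine (Complex.norm_le_abs_re_add_abs_im _).trans ?_
  have e4 : |δ| = δ := abs_of_nonneg hδ
  obtain ⟨v, q⟩ := σ
  cases q <;> simp only [pos, pv, Complex.sub_re, Complex.sub_im] <;> ring_nf <;>
    simp only [abs_mul, e4] <;> norm_num <;> linarith

theorem sd_dist (δ : ℝ) (hδ : 0 < δ) (u v : ℤ × ℤ) :
    δ * ((H443U.sd u v : ℤ) : ℝ) ≤ dist (pv δ u) (pv δ v) ∧
    dist (pv δ u) (pv δ v) ≤ 2 * δ * ((H443U.sd u v : ℤ) : ℝ) := by
  have e1 : (pv δ u - pv δ v).re = δ * ((u.1 : ℝ) - v.1) := by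
    simp only [pv, Complex.sub_re]; ring
  have e2 : (pv δ u - pv δ v).im = δ * ((u.2 : ℝ) - v.2) := by
    simp only [pv, Complex.sub_im]; ring
  have hs : ((H443U.sd u v : ℤ) : ℝ) = max |(u.1 : ℝ) - v.1| |(u.2 : ℝ) - v.2| := by
    unfold H443U.sd
    push_cast
    rfl
  have h1 := Complex.abs_re_le_norm (pv δ u - pv δ v)
  have h2 := Complex.abs_im_le_norm (pv δ u - pv δ v)
  have h3 := Complex.norm_le_abs_re_add_abs_im (pv δ u - pv δ v)
  rw [e1, abs_mul, abs_of_pos hδ] at h1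
  rw [e2, abs_mul, abs_of_pos hδ] at h2
  rw [e1, e2, abs_mul, abs_mul, abs_of_pos hδ] at h3
  rw [dist_eq_norm, hs]
  constructor
  · rcases max_choice |(u.1 : ℝ) - v.1| |(u.2 : ℝ) - v.2| with h | h <;> rw [h] <;> assumption
  · have h4 := le_max_left |(u.1 : ℝ) - v.1| |(u.2 : ℝ) - v.2|
    have h5 := le_max_right |(u.1 : ℝ) - v.1| |(u.2 : ℝ) - v.2|
    nlinarith

/-- Subadditivity of sums over sets. -/
theorem sum_cover {α β : Type*} [DecidableEq α] (Q : Finset α) (Y : Finset β)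
    (R : β → α → Prop) [∀ y, DecidablePred (R y)] (f : α → ℝ) (hf : ∀ v ∈ Q, 0 ≤ f v)
    (h : ∀ v ∈ Q, ∃ y ∈ Y, R y v) :
    ∑ v ∈ Q, f v ≤ ∑ y ∈ Y, ∑ v ∈ Q.filter (R y), f v := by
  simp_rw [Finset.sum_filter]
  rw [Finset.sum_comm]
  refine Finset.sum_le_sum fun v hv => ?_
  obtain ⟨y, hy, hR⟩ := h v hv
  have h1 := Finset.single_le_sum (f := fun y => if R y v then f v else 0) (s := Y)
    (fun y _ => by split_ifs; exacts [hf v hv, le_rfl]) hy
  simp only [hR, if_true] at h1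
  exact h1

open Classical in
/-- The vertices near a point are in a small square. -/
theorem near_box {δ W : ℝ} (hδ : 0 < δ) (hW : δ ≤ W) (y : ℂ) (Q : Finset (ℤ × ℤ)) :
    ∃ (c d : ℤ) (m : ℕ), 1 ≤ m ∧ (m : ℝ) ≤ 2 * (W / δ) ∧
      Q.filter (fun v => dist (pv δ v) y ≤ W) ⊆ Icc c (c + m) ×ˢ Icc d (d + m) := by
  have hWδ : 1 ≤ W / δ := by rwa [le_div_iff₀ hδ, one_mul]
  refine ⟨⌈(y.re - W) / δ⌉, ⌈(y.im - W) / δ⌉ - 1, ⌊2 * (W / δ)⌋₊, ?_,
    Nat.floor_le (by positivity), ?_⟩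
  · rw [Nat.one_le_floor_iff]
    linarith
  · intro v hv
    rw [Finset.mem_filter] at hv
    have hv2 := hv.2
    rw [dist_eq_norm] at hv2
    have h1 := (Complex.abs_re_le_norm (pv δ v - y)).trans hv2
    have h2 := (Complex.abs_im_le_norm (pv δ v - y)).trans hv2
    simp only [pv, Complex.sub_re, Complex.sub_im] at h1 h2
    rw [abs_le] at h1 h2
    have hfl : (⌊2 * (W / δ)⌋₊ : ℤ) = ⌊2 * (W / δ)⌋ := by
      rw [← Int.natCast_floor_eq_floor (by positivity)]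
    rw [Finset.mem_product, Finset.mem_Icc, Finset.mem_Icc, hfl]
    have k1 : (y.re - W) / δ ≤ v.1 := by rw [div_le_iff₀ hδ]; linarith
    have k2 : (y.im - W) / δ ≤ v.2 + 1 := by rw [div_le_iff₀ hδ]; linarith
    have k3 : (v.1 : ℝ) ≤ (y.re - W) / δ + 2 * (W / δ) := by
      have : (y.re - W) / δ + 2 * (W / δ) = (y.re + W) / δ := by ring
      rw [this, le_div_iff₀ hδ]; linarith
    have k4 : (v.2 : ℝ) + 1 ≤ (y.im - W) / δ + 2 * (W / δ) := by
      have : (y.im - W) / δ + 2 * (W / δ) = (y.im + W) / δ := by ring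
      rw [this, le_div_iff₀ hδ]; linarith
    have c1 : ⌈(y.re - W) / δ⌉ ≤ v.1 := Int.ceil_le.2 k1
    have c2 : ⌈(y.im - W) / δ⌉ ≤ v.2 + 1 := Int.ceil_le.2 (by push_cast; exact k2)
    have c3 : v.1 - ⌈(y.re - W) / δ⌉ ≤ ⌊2 * (W / δ)⌋ := by
      apply Int.le_floor.2
      push_cast
      have := Int.le_ceil ((y.re - W) / δ)
      linarith
    have c4 : v.2 + 1 - ⌈(y.im - W) / δ⌉ ≤ ⌊2 * (W / δ)⌋ := by
      apply Int.le_floor.2
      push_cast
      have := Int.le_ceil ((y.im - W) / δ)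
      linarith
    omega

open Classical in
theorem near_card {δ W : ℝ} (hδ : 0 < δ) (hW : δ ≤ W) (y : ℂ) (Q : Finset (ℤ × ℤ)) :
    ((Q.filter (fun v => dist (pv δ v) y ≤ W)).card : ℝ) ≤ 16 * (W / δ) ^ 2 := by
  obtain ⟨c, d, m, hm, hm2, hsub⟩ := near_box hδ hW y Q
  have h := H443U.Sum.card_Q c d m hm _ hsub
  have hm0 : (0:ℝ) ≤ m := Nat.cast_nonneg _
  nlinarith

/-- The kernel. -/
noncomputable def ker (W : ℝ) (z : ℂ) : ℝ := (max ‖z‖ W) ^ (-(1/2) : ℝ)

theorem ker_pos {W : ℝ} (hW : 0 < W) (z : ℂ) : 0 < ker W z :=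
  Real.rpow_pos_of_pos (lt_max_of_lt_right hW) _

theorem w_sq {m : ℤ} (hm : 0 < m) : w m ^ 2 = (m : ℝ) ^ (-(1/2) : ℝ) := by
  unfold w
  rw [if_neg (by omega), ← Real.rpow_natCast, ← Real.rpow_mul (by exact_mod_cast hm.le)]
  norm_num

open Classical in
/-- The sum of the two point weights over the vertices near a point. -/
theorem near_sum {δ W : ℝ} (hδ : 0 < δ) (hW : δ ≤ W) (y : ℂ) (Q : Finset (ℤ × ℤ)) (u : ℤ × ℤ) :
    ∑ v ∈ Q.filter (fun v => dist (pv δ v) y ≤ W), w (H443U.sd v u) ^ 2 ≤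
      2048 * (W / δ) ^ 2 * (δ ^ (1/2 : ℝ) * ker W (y - pv δ u)) := by
  have hWδ : 1 ≤ W / δ := by rwa [le_div_iff₀ hδ, one_mul]
  have hW0 : 0 < W := hδ.trans_le hW
  rcases le_or_gt (4 * W) ‖y - pv δ u‖ with hfar | hnear
  · -- far
    have hker : ker W (y - pv δ u) = ‖y - pv δ u‖ ^ (-(1/2) : ℝ) := by
      unfold ker; rw [max_eq_left (by linarith)]
    set L : ℝ := ‖y - pv δ u‖ with hL
    have hL0 : 0 < L := by linarith
    have hterm : ∀ v ∈ Q.filter (fun v => dist (pv δ v) y ≤ W),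
        w (H443U.sd v u) ^ 2 ≤ 2 * (δ ^ (1/2 : ℝ) * L ^ (-(1/2) : ℝ)) := by
      intro v hv
      rw [Finset.mem_filter] at hv
      have h1 : L - W ≤ dist (pv δ v) (pv δ u) := by
        have := dist_triangle y (pv δ v) (pv δ u)
        rw [dist_comm y (pv δ v)] at this
        have e : dist y (pv δ u) = L := by rw [hL, dist_eq_norm]
        linarith [hv.2]
      have h2 := (sd_dist δ hδ v u).2
      have h3 : L / (4 * δ) ≤ ((H443U.sd v u : ℤ) : ℝ) := by
        rw [div_le_iff₀ (by positivity)]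
        nlinarith
      have h4 : 0 < L / (4 * δ) := by positivity
      have h5 : 0 < H443U.sd v u := by
        have : (0:ℝ) < ((H443U.sd v u : ℤ) : ℝ) := lt_of_lt_of_le h4 h3
        exact_mod_cast this
      rw [w_sq h5]
      refine (Real.rpow_le_rpow_of_nonpos h4 h3 (by norm_num)).trans (le_of_eq ?_)
      rw [Real.div_rpow hL0.le (by positivity), Real.mul_rpow (by norm_num) hδ.le,
        Real.rpow_neg hδ.le, Real.rpow_neg (by norm_num : (0:ℝ) ≤ 4)]
      have e4 : (4:ℝ) ^ (1/2 : ℝ) = 2 := by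
        rw [show (4:ℝ) = 2 ^ (2:ℝ) by norm_num, ← Real.rpow_mul (by norm_num)]; norm_num
      rw [e4]
      have : 0 < δ ^ (1/2 : ℝ) := Real.rpow_pos_of_pos hδ _
      field_simp
    refine (Finset.sum_le_sum hterm).trans ?_
    rw [Finset.sum_const, nsmul_eq_mul, hker]
    have h6 := near_card hδ hW y Q
    have h7 : 0 < δ ^ (1/2 : ℝ) * L ^ (-(1/2) : ℝ) := by positivity
    have h8 : 0 ≤ (W / δ) ^ 2 := by positivity
    nlinarith
  · -- near
    set Mx : ℝ := max ‖y - pv δ u‖ W with hMx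
    have hMx1 : Mx ≤ 4 * W := max_le hnear.le (by linarith)
    have hMx0 : 0 < Mx := lt_max_of_lt_right hW0
    set m : ℕ := ⌊5 * (W / δ)⌋₊ with hm
    have hm1 : 1 ≤ m := by
      rw [hm, Nat.one_le_floor_iff]; linarith
    have hm2 : (m : ℝ) ≤ 5 * (W / δ) := Nat.floor_le (by positivity)
    set B : Finset (ℤ × ℤ) := Icc (u.1 - m) (u.1 - m + (2 * m : ℕ)) ×ˢ
      Icc (u.2 - m) (u.2 - m + (2 * m : ℕ)) with hB
    have huB : u ∈ B := by
      rw [hB, Finset.mem_product, Finset.mem_Icc, Finset.mem_Icc]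
      push_cast
      omega
    have hsub : Q.filter (fun v => dist (pv δ v) y ≤ W) ⊆ B := by
      intro v hv
      rw [Finset.mem_filter] at hv
      have h1 : dist (pv δ v) (pv δ u) ≤ 5 * W := by
        have := dist_triangle (pv δ v) y (pv δ u)
        have e : dist y (pv δ u) = ‖y - pv δ u‖ := dist_eq_norm _ _
        linarith [hv.2]
      have h2 := (sd_dist δ hδ v u).1
      have h3 : ((H443U.sd v u : ℤ) : ℝ) ≤ 5 * (W / δ) := by
        rw [← mul_div_assoc, le_div_iff₀ hδ]; linarith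
      have h4 : H443U.sd v u ≤ (m : ℤ) := by
        have e : (m : ℤ) = ⌊5 * (W / δ)⌋ := by
          rw [hm]; exact Int.natCast_floor_eq_floor (by positivity)
        rw [e]
        exact Int.le_floor.2 h3
      unfold H443U.sd at h4
      have h5 := (le_max_left _ _).trans h4
      have h6 := (le_max_right _ _).trans h4
      rw [abs_le] at h5 h6
      rw [hB, Finset.mem_product, Finset.mem_Icc, Finset.mem_Icc]
      push_cast
      omega
    have h1 : ∑ v ∈ Q.filter (fun v => dist (pv δ v) y ≤ W), w (H443U.sd v u) ^ 2 ≤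
        ∑ v ∈ B, w (H443U.sd v u) ^ 2 :=
      Finset.sum_le_sum_of_subset_of_nonneg hsub fun _ _ _ => sq_nonneg _
    have h2 := H443U.Sum.sum_plane (u.1 - m) (u.2 - m) (2 * m) (by omega) B (Finset.Subset.refl _)
      u huB
    refine (h1.trans h2).trans ?_
    have h3 : (((2 * m : ℕ) : ℝ)) ^ (3/2 : ℝ) ≤ (16 * (W / δ)) ^ (3/2 : ℝ) := by
      apply Real.rpow_le_rpow (Nat.cast_nonneg _) _ (by norm_num)
      push_cast
      linarith
    have e16 : (16:ℝ) ^ (3/2 : ℝ) = 64 := by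
      rw [show (16:ℝ) = 4 ^ (2:ℝ) by norm_num, ← Real.rpow_mul (by norm_num)]
      rw [show (2 * (3/2) : ℝ) = ((3:ℕ):ℝ) by norm_num, Real.rpow_natCast]
      norm_num
    rw [Real.mul_rpow (by norm_num) (by positivity), e16] at h3
    have h4 : (W / δ) ^ (3/2 : ℝ) = (W / δ) ^ 2 * (δ ^ (1/2 : ℝ) * W ^ (-(1/2) : ℝ)) := by
      rw [← Real.rpow_natCast (W / δ) 2, show ((2:ℕ):ℝ) = 3/2 + 1/2 by norm_num,
        Real.rpow_add (by positivity), mul_assoc]
      have : (W / δ) ^ (1/2 : ℝ) * (δ ^ (1/2 : ℝ) * W ^ (-(1/2) : ℝ)) = 1 := by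
        rw [Real.div_rpow hW0.le hδ.le, Real.rpow_neg hW0.le]
        have a1 : 0 < δ ^ (1/2 : ℝ) := Real.rpow_pos_of_pos hδ _
        have a2 : 0 < W ^ (1/2 : ℝ) := Real.rpow_pos_of_pos hW0 _
        field_simp
      rw [this, mul_one]
    have h5 : W ^ (-(1/2) : ℝ) ≤ 2 * ker W (y - pv δ u) := by
      unfold ker
      rw [← hMx]
      have h6 : (4 * W) ^ (-(1/2) : ℝ) ≤ Mx ^ (-(1/2) : ℝ) :=
        Real.rpow_le_rpow_of_nonpos hMx0 hMx1 (by norm_num)
      rw [Real.mul_rpow (by norm_num) hW0.le] at h6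
      have e4 : (4:ℝ) ^ (-(1/2) : ℝ) = 1/2 := by
        rw [show (4:ℝ) = 2 ^ (2:ℝ) by norm_num, ← Real.rpow_mul (by norm_num)]
        rw [show (2 * (-(1/2)) : ℝ) = -1 by norm_num, Real.rpow_neg_one]
        norm_num
      rw [e4] at h6
      linarith
    have a1 : 0 < δ ^ (1/2 : ℝ) := Real.rpow_pos_of_pos hδ _
    have a3 : 0 ≤ (W / δ) ^ 2 := by positivity
    calc 16 * (((2 * m : ℕ) : ℝ)) ^ (3/2 : ℝ) ≤ 16 * (64 * (W / δ) ^ (3/2 : ℝ)) :=
          mul_le_mul_of_nonneg_left h3 (by norm_num)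
      _ = 1024 * ((W / δ) ^ 2 * (δ ^ (1/2 : ℝ) * W ^ (-(1/2) : ℝ))) := by rw [h4]; ring
      _ ≤ 2048 * (W / δ) ^ 2 * (δ ^ (1/2 : ℝ) * ker W (y - pv δ u)) := by
          have h7 := mul_le_mul_of_nonneg_left h5 a1.le
          have h8 := mul_le_mul_of_nonneg_left h7 a3
          linarith

end Pool.Agent.N892.AC
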