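import Pool.Agent.N892.AC.Trace
import Pool.Agent.N892.UP.Defs

/-!
Packing dimensions of the intersections.
-/

set_option autoImplicit false

namespace Pool.Agent.N892.AC

open H984N MeasureTheory Metric Set Filter Topology
open scoped ENNReal NNReal

open Classical in
theorem Cv.covBy {X : Type*} [MetricSpace X] {E : Set X} {ℓ n : ℝ} (h : Cv E ℓ n) (hℓ : 0 ≤ ℓ) :
    UP.CovBy E ℓ n := by
  obtain ⟨S, U, h1, h2, h3⟩ := h
  rcases E.eq_empty_or_nonempty with h0 | ⟨x0, -⟩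
  · refine ⟨∅, by rw [h0]; exact empty_subset _, ?_⟩
    rw [Finset.card_empty, Nat.cast_zero]
    exact le_trans (Nat.cast_nonneg _) h3
  have : Nonempty X := ⟨x0⟩
  set S' := S.filter (fun i => (U i ∩ E).Nonempty) with hS'
  have hch : ∀ i ∈ S', ∃ c, c ∈ U i ∩ E := fun i hi => (Finset.mem_filter.1 hi).2
  choose! c hc using hch
  refine ⟨S'.image c, ?_, ?_⟩
  · intro x hx
    obtain ⟨i, hi, hxi⟩ := mem_iUnion₂.1 (h1 hx)
    have hi' : i ∈ S' := Finset.mem_filter.2 ⟨hi, x, hxi, hx⟩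
    refine mem_iUnion₂.2 ⟨c i, Finset.mem_image_of_mem c hi', ?_⟩
    have h4 := (edist_le_ediam_of_mem hxi (hc i hi').1).trans (h2 i hi)
    rw [edist_dist] at h4
    exact (ENNReal.ofReal_le_ofReal_iff hℓ).1 h4
  · refine le_trans ?_ h3
    exact_mod_cast Finset.card_image_le.trans (Finset.card_filter_le _ _)

theorem box_of_cv {E : Set unitInterval} {b : ℝ} (hb : 0 ≤ b)
    (h : ∀ η : ℝ, 0 < η → ∃ C r0 : ℝ, 0 < C ∧ 0 < r0 ∧ ∀ r : ℝ, 0 < r → r ≤ r0 →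
      Cv E (r ^ (7/4 + η)) (C * r ^ (-(b + 2 * η)))) :
    UP.upperBoxDim E ≤ ENNReal.ofReal (4/7 * b) := by
  refine ENNReal.le_of_forall_pos_le_add fun ε hε _ => ?_
  have hε' : (0:ℝ) < ε := hε
  set s : ℝ := 4/7 * b + ε with hs
  have hs0 : 0 < s := by positivity
  set η : ℝ := (7/4 * s - b) / 4 with hη
  have hη0 : 0 < η := by rw [hη, hs]; linarith
  obtain ⟨C, r0, hC, hr0, hcv⟩ := h η hη0
  set e : ℝ := s - (b + 2 * η) / (7/4 + η) with he
  have he0 : 0 < e := by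
    rw [he, sub_pos, div_lt_iff₀ (by positivity)]
    nlinarith
  have hev : ∀ᶠ r in 𝓝[>] (0:ℝ), UP.CovBy E r (r ^ (-((s.toNNReal : ℝ≥0) : ℝ))) := by
    have h1 : ∀ᶠ r in 𝓝[>] (0:ℝ), r < r0 ^ (7/4 + η) := by
      have : (0:ℝ) < r0 ^ (7/4 + η) := by positivity
      filter_upwards [Ioo_mem_nhdsGT this] with r hr using hr.2
    have h2 : ∀ᶠ r in 𝓝[>] (0:ℝ), r < (1 / C) ^ (1 / e) := by
      have : (0:ℝ) < (1 / C) ^ (1 / e) := by positivity
      filter_upwards [Ioo_mem_nhdsGT this] with r hr using hr.2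
    filter_upwards [h1, h2, self_mem_nhdsWithin] with r k1 k2 k3
    have k3 : (0:ℝ) < r := k3
    have hq : (0:ℝ) < 7/4 + η := by positivity
    have k4 := hcv (r ^ (1 / (7/4 + η))) (by positivity) (by
      calc r ^ (1 / (7/4 + η)) ≤ (r0 ^ (7/4 + η)) ^ (1 / (7/4 + η)) :=
            Real.rpow_le_rpow k3.le k1.le (by positivity)
        _ = r0 := by rw [← Real.rpow_mul hr0.le, mul_one_div_cancel hq.ne', Real.rpow_one])
    rw [← Real.rpow_mul k3.le, one_div_mul_cancel hq.ne', Real.rpow_one,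
      ← Real.rpow_mul k3.le] at k4
    obtain ⟨T, t1, t2⟩ := k4.covBy k3.le
    refine ⟨T, t1, t2.trans ?_⟩
    rw [Real.coe_toNNReal _ hs0.le]
    have k5 : C * r ^ e ≤ 1 := by
      calc C * r ^ e ≤ C * ((1 / C) ^ (1 / e)) ^ e := by gcongr
        _ = 1 := by
            rw [← Real.rpow_mul (by positivity), one_div_mul_cancel he0.ne', Real.rpow_one]
            field_simp
    have k6 : 1 / (7/4 + η) * -(b + 2 * η) = e + -s := by rw [he]; ring
    rw [k6, Real.rpow_add k3]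
    have k7 : 0 ≤ r ^ (-s) := by positivity
    nlinarith
  unfold UP.upperBoxDim
  refine (iInf₂_le s.toNNReal hev).trans (le_of_eq ?_)
  have : ((s.toNNReal : ℝ≥0) : ℝ≥0∞) = ENNReal.ofReal s := rfl
  rw [this, hs, ENNReal.ofReal_add (by positivity) hε'.le, ENNReal.ofReal_coe_nnreal]

variable {R : Rect} {𝓢 : Set (Set ℂ)} {a : ℝ} {f : C(unitInterval, ℂ)}

theorem Good.pack (hG : Good R 𝓢 a f) (ha : 1/2 < a) {S : Set ℂ} (hS : S ∈ 𝓢) :
    UP.packDim {s : unitInterval | f s ∈ S ∩ R.D} ≤ ENNReal.ofReal (4/7 * (a - 1/4)) := by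
  unfold UP.packDim
  refine (iInf₂_le (fun n : ℕ => {s : unitInterval | f s ∈ Dep R (1 / ((n:ℝ) + 1)) ∧ f s ∈ S})
    ?_).trans (iSup_le fun n => ?_)
  · intro s hs
    obtain ⟨n, hn⟩ := mem_iUnion.1 (dep_union R hs.2)
    exact mem_iUnion.2 ⟨n, hn, hs.1⟩
  · refine box_of_cv (by linarith) fun η hη => ?_
    have hκ : (0:ℝ) < 1 / ((n:ℝ) + 1) := by positivity
    obtain ⟨C, r0, hC, hr0, -, h⟩ := hG.cover_all ha hκ hη
    refine ⟨C, r0, hC, hr0, fun r hr hr' => (h S hS r hr hr').mono ?_ le_rfl (le_of_eq ?_)⟩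
    · rintro s ⟨hs1, hs2⟩
      exact ⟨hs1, f s, ⟨hs2, dep_sub R hκ hs1⟩, by rw [dist_self]; exact hr.le⟩
    · congr 2; ring

end Pool.Agent.N892.AC
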