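import Pool.Agent.N892.AC.Fam

/-!
The time which the scaling limits spend near the sets of a family of finite entropy: all scales.
-/

set_option autoImplicit false

namespace Pool.Agent.N892.AC

open Finset H974 H984P H984N H443U H443P MeasureTheory Filter Topology
open scoped ENNReal

theorem dyadic_near {r : ℝ} (hr : 0 < r) (hr1 : r ≤ 1) :
    ∃ j : ℕ, r ≤ (1/2 : ℝ) ^ j ∧ (1/2 : ℝ) ^ j < 2 * r := by
  obtain ⟨j, h1, h2⟩ := exists_nat_pow_near (x := 1 / r) (y := (2:ℝ))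
    (by rwa [le_div_iff₀ hr, one_mul]) one_lt_two
  refine ⟨j, ?_, ?_⟩
  · rw [le_div_iff₀ hr] at h1
    rw [one_div, inv_pow, ← one_div, le_div_iff₀ (by positivity)]
    linarith
  · rw [div_lt_iff₀ hr, pow_succ] at h2
    rw [one_div, inv_pow, ← one_div, div_lt_iff₀ (by positivity)]
    linarith

theorem strip {C : ℝ} (hC : 0 < C) (hU : H342P.TwoUp C (1/4)) (R : Rect) {δ : ℕ → ℝ}
    (hδ : ∀ i, 0 < δ i) (hlim : Tendsto δ atTop (𝓝 0))
    {μ : ProbabilityMeasure X} (hμ : Tendsto (fun i => R.law (δ i)) atTop (𝓝 μ))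
    {𝓢 : Set (Set ℂ)} {a κ ε : ℝ} (hE : Ent R 𝓢 a) (hκ : 0 < κ) (ha : 1/2 < a) (ha2 : a ≤ 2)
    (hε : 0 < ε) :
    ∀ᵐ p ∂(μ : Measure X), 0 < p.2 → ∃ Λ : ℝ, 0 < Λ ∧ ∀ S ∈ 𝓢, ∀ (x : ℂ) (r ρ : ℝ), 0 < r →
      r ≤ ρ → ρ ≤ 1 →
      p.2 * (volume (St R κ S x r ρ p.1)).toReal ≤ Λ * (r ^ (2 - a - ε) * ρ ^ (a - 1/4)) := by
  classical
  obtain ⟨K0, c, hKc⟩ := hE (ε / 2) (by positivity)
  have hrpow : ∀ j : ℕ, ((1/2 : ℝ) ^ j) ^ (-(ε / 2)) = 2 ^ (ε / 2 * j) := by
    intro j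
    have : (1/2 : ℝ) ^ j = 2 ^ (-(j:ℝ)) := by
      rw [Real.rpow_neg (by norm_num), Real.rpow_natCast, one_div, inv_pow]
    rw [this, ← Real.rpow_mul (by norm_num)]; congr 1; ring
  set K : ℝ := max K0 1 with hK
  have hK0 : 0 < K := lt_max_of_lt_right one_pos
  have hKK : K0 ≤ K := le_max_left _ _
  have hch : ∀ j : ℕ, ∃ 𝒜 : Finset (Finset ℂ), (𝒜.card : ℝ) ≤ K * ((1/2 : ℝ) ^ j) ^ (-c) ∧
      (∀ A ∈ 𝒜, ∀ (z : ℂ) (h : ℝ), (1/2 : ℝ) ^ j ≤ h →
        ((A.filter (fun y => dist y z ≤ h)).card : ℝ) ≤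
          K * 2 ^ (ε / 2 * j) * (h / (1/2 : ℝ) ^ j) ^ a) ∧
      (∀ S ∈ 𝓢, ∃ A ∈ 𝒜, ∀ z ∈ S ∩ R.D, ∃ y ∈ A, dist z y ≤ (1/2 : ℝ) ^ j) := by
    intro j
    obtain ⟨𝒜, g1, g2, g3⟩ := hKc ((1/2 : ℝ) ^ j) (by positivity)
      (pow_le_one₀ (by norm_num) (by norm_num))
    refine ⟨𝒜, g1.trans ?_, fun A hA z h hh => (g2 A hA z h hh).trans ?_, g3⟩
    · exact mul_le_mul_of_nonneg_right hKK (by positivity)
    · have : 0 < (1/2 : ℝ) ^ j := by positivity
      have h0 : 0 ≤ h / (1/2 : ℝ) ^ j := div_nonneg (this.le.trans hh) this.le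
      rw [hrpow]
      gcongr
  choose 𝒜 g1 g2 g3 using hch
  filter_upwards [ev_nets hC hU R hδ hlim hμ hK0 hκ ha (by positivity : 0 < ε / 2) 𝒜 g1 g2]
    with p hp hT
  obtain ⟨j0, hj0⟩ := Filter.eventually_atTop.1 hp
  obtain ⟨j1, hj1⟩ : ∃ j1 : ℕ, (1/2 : ℝ) ^ j1 < κ / 16 :=
    exists_pow_lt_of_lt_one (by positivity) (by norm_num)
  set J : ℕ := max j0 j1 with hJ
  set Λ1 : ℝ := Cc K κ a * 4 * 4 with hΛ1
  have hG := Ga_pos ha
  have hCc : 0 < Cc K κ a := by unfold Cc; positivity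
  set m0 : ℝ := ((1/2 : ℝ) ^ J) ^ (7/4 : ℝ) with hm0
  have hm00 : 0 < m0 := by positivity
  refine ⟨Λ1 + p.2 / m0, by positivity, ?_⟩
  intro S hS x r ρ hr hrρ hρ1
  have hρ : 0 < ρ := hr.trans_le hrρ
  have hr1 : r ≤ 1 := hrρ.trans hρ1
  have hX0 : 0 < r ^ (2 - a - ε) * ρ ^ (a - 1/4) := by positivity
  rcases le_or_gt r ((1/2 : ℝ) ^ J) with hrJ | hrJ
  · -- small scales
    have hmain : p.2 * (volume (St R κ S x r ρ p.1)).toReal ≤
        Λ1 * (r ^ (2 - a - ε) * ρ ^ (a - 1/4)) := by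
      obtain ⟨j, hj1', hj2'⟩ := dyadic_near hr hr1
      obtain ⟨i, hi1, hi2⟩ := dyadic_near hρ hρ1
      have hJj : J ≤ j := by
        by_contra hcon
        have h1 : j + 1 ≤ J := by omega
        have h2 : (1/2 : ℝ) ^ J ≤ (1/2) ^ (j + 1) :=
          pow_le_pow_of_le_one (by norm_num) (by norm_num) h1
        rw [pow_succ] at h2
        linarith
      have hij : i ≤ j := by
        by_contra hcon
        have h1 : j + 1 ≤ i := by omega
        have h2 : (1/2 : ℝ) ^ i ≤ (1/2) ^ (j + 1) :=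
          pow_le_pow_of_le_one (by norm_num) (by norm_num) h1
        rw [pow_succ] at h2
        linarith
      set rj : ℝ := (1/2 : ℝ) ^ j with hrj
      set hi : ℝ := (1/2 : ℝ) ^ i with hhi
      have hrj0 : 0 < rj := by positivity
      have hhi0 : 0 < hi := by positivity
      have hhi1 : hi ≤ 1 := pow_le_one₀ (by norm_num) (by norm_num)
      have hrjhi : rj ≤ hi := pow_le_pow_of_le_one (by norm_num) (by norm_num) hij
      have hκj : rj < κ / 16 := by
        refine lt_of_le_of_lt ?_ hj1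
        exact pow_le_pow_of_le_one (by norm_num) (by norm_num) ((le_max_right _ _).trans hJj)
      rcases (St R κ S x r ρ p.1).eq_empty_or_nonempty with h0 | ⟨s0, hs0⟩
      · rw [h0, measure_empty, ENNReal.toReal_zero, mul_zero]
        positivity
      obtain ⟨A, hA, hcov⟩ := g3 j S hS
      have hnear : ∀ s ∈ St R κ S x r ρ p.1, ∃ y ∈ A, dist (p.1 s) y ≤ 2 * rj := by
        rintro s ⟨-, -, z, hz, hsz⟩
        obtain ⟨y, hy, hzy⟩ := hcov z hz
        refine ⟨y, hy, ?_⟩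
        have := dist_triangle (p.1 s) z y
        linarith
      obtain ⟨y0, hy0, hd0⟩ := hnear s0 hs0
      have hdep : ∀ s ∈ St R κ S x r ρ p.1, ∀ y, dist (p.1 s) y ≤ 2 * rj →
          y ∈ Dep R (κ - 2 * rj) := by
        intro s hs y hy
        apply dep_near R (W := 2 * rj) (y := p.1 s)
        · rw [sub_add_cancel]; exact hs.1
        · rw [dist_comm]; exact hy
      have hsub : St R κ S x r ρ p.1 ⊆ Nr (Yl R κ j A y0 i) (3 * (1/2) ^ j) p.1 := by
        intro s hs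
        obtain ⟨y, hy, hd⟩ := hnear s hs
        refine ⟨y, ?_, by rw [← hrj]; linarith⟩
        unfold Yl
        rw [Finset.mem_filter]
        refine ⟨hy, dep_anti R ?_ (hdep s hs y hd), ?_⟩
        · rw [← hrj, ← hhi]
          nlinarith
        · have t1 := dist_triangle y (p.1 s) y0
          have t2 := dist_triangle (p.1 s) x y0
          have t3 := dist_triangle x (p.1 s0) y0
          rw [dist_comm y (p.1 s)] at t1
          rw [dist_comm x (p.1 s0)] at t3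
          have t4 := hs.2.1
          have t5 := hs0.2.1
          rw [← hhi]
          linarith
      have hnb := hj0 j ((le_max_left _ _).trans hJj) A hA y0 hy0
        (dep_anti R (by linarith) (hdep s0 hs0 y0 hd0)) i hij
      have hnb' : p.2 * (volume (Nr (Yl R κ j A y0 i) (3 * (1/2) ^ j) p.1)).toReal ≤
        Lv (K * 2 ^ (ε / 2 * j)) κ a (ε / 2) j i := hnb
      have hvol : (volume (St R κ S x r ρ p.1)).toReal ≤
          (volume (Nr (Yl R κ j A y0 i) (3 * (1/2) ^ j) p.1)).toReal :=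
        ENNReal.toReal_mono (measure_ne_top _ _) (measure_mono hsub)
      refine ((mul_le_mul_of_nonneg_left hvol hT.le).trans hnb').trans ?_
      unfold Lv
      rw [← hrj, ← hhi]
      have e1 : (2:ℝ) ^ (ε / 2 * j) * 2 ^ (ε / 2 * j) = rj ^ (-ε) := by
        have : rj = 2 ^ (-(j:ℝ)) := by
          rw [hrj, Real.rpow_neg (by norm_num), Real.rpow_natCast, one_div, inv_pow]
        rw [this, ← Real.rpow_mul (by norm_num), ← Real.rpow_add (by norm_num)]; congr 1; ring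
      have e0 : Cc (K * 2 ^ (ε / 2 * j)) κ a = 2 ^ (ε / 2 * j) * Cc K κ a := by
        unfold Cc; ring
      have e2 : rj ^ (-ε) ≤ r ^ (-ε) := Real.rpow_le_rpow_of_nonpos hr hj1' (by linarith)
      have e3 : rj ^ (2 - a) ≤ 4 * r ^ (2 - a) := by
        calc rj ^ (2 - a) ≤ (2 * r) ^ (2 - a) :=
              Real.rpow_le_rpow hrj0.le hj2'.le (by linarith)
          _ = 2 ^ (2 - a) * r ^ (2 - a) := Real.mul_rpow (by norm_num) hr.le
          _ ≤ 4 * r ^ (2 - a) := by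
              apply mul_le_mul_of_nonneg_right _ (by positivity)
              calc (2:ℝ) ^ (2 - a) ≤ 2 ^ (2:ℝ) :=
                    Real.rpow_le_rpow_of_exponent_le (by norm_num) (by linarith)
                _ = 4 := by norm_num
      have e4 : hi ^ (a - 1/4) ≤ 4 * ρ ^ (a - 1/4) := by
        calc hi ^ (a - 1/4) ≤ (2 * ρ) ^ (a - 1/4) :=
              Real.rpow_le_rpow hhi0.le hi2.le (by linarith)
          _ = 2 ^ (a - 1/4) * ρ ^ (a - 1/4) := Real.mul_rpow (by norm_num) hρ.le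
          _ ≤ 4 * ρ ^ (a - 1/4) := by
              apply mul_le_mul_of_nonneg_right _ (by positivity)
              calc (2:ℝ) ^ (a - 1/4) ≤ 2 ^ (2:ℝ) :=
                    Real.rpow_le_rpow_of_exponent_le (by norm_num) (by linarith)
                _ = 4 := by norm_num
      have e5 : r ^ (2 - a - ε) = r ^ (-ε) * r ^ (2 - a) := by
        rw [← Real.rpow_add hr]; congr 1; ring
      rw [e0, mul_assoc (2 ^ (ε / 2 * (j:ℝ))), ← mul_assoc (2 ^ (ε / 2 * (j:ℝ))), e1]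
      calc rj ^ (-ε) * (Cc K κ a * (rj ^ (2 - a) * hi ^ (a - 1/4)))
          ≤ r ^ (-ε) * (Cc K κ a * ((4 * r ^ (2 - a)) * (4 * ρ ^ (a - 1/4)))) := by
            gcongr
        _ = Λ1 * (r ^ (2 - a - ε) * ρ ^ (a - 1/4)) := by rw [e5, hΛ1]; ring
    refine hmain.trans ?_
    apply mul_le_mul_of_nonneg_right _ hX0.le
    have : 0 < p.2 / m0 := by positivity
    linarith
  · -- large scales
    have h1 : (volume (St R κ S x r ρ p.1)).toReal ≤ 1 := by
      have := prob_le_one (μ := (volume : Measure unitInterval)) (s := St R κ S x r ρ p.1)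
      calc (volume (St R κ S x r ρ p.1)).toReal ≤ (1 : ℝ≥0∞).toReal :=
            ENNReal.toReal_mono ENNReal.one_ne_top this
        _ = 1 := ENNReal.toReal_one
    have h2 : m0 ≤ r ^ (2 - a - ε) * ρ ^ (a - 1/4) := by
      have hq : 0 < (1/2 : ℝ) ^ J := by positivity
      have k1 : ((1/2 : ℝ) ^ J) ^ (2 - a) ≤ r ^ (2 - a - ε) :=
        (Real.rpow_le_rpow hq.le hrJ.le (by linarith)).trans
          (Real.rpow_le_rpow_of_exponent_ge hr hr1 (by linarith))
      have k2 : ((1/2 : ℝ) ^ J) ^ (a - 1/4) ≤ ρ ^ (a - 1/4) :=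
        Real.rpow_le_rpow hq.le (hrJ.le.trans hrρ) (by linarith)
      have k3 : m0 = ((1/2 : ℝ) ^ J) ^ (2 - a) * ((1/2 : ℝ) ^ J) ^ (a - 1/4) := by
        rw [hm0, ← Real.rpow_add hq]; congr 1; ring
      rw [k3]
      exact mul_le_mul k1 k2 (by positivity) (by positivity)
    calc p.2 * (volume (St R κ S x r ρ p.1)).toReal ≤ p.2 * 1 :=
          mul_le_mul_of_nonneg_left h1 hT.le
      _ = p.2 / m0 * m0 := by field_simp
      _ ≤ p.2 / m0 * (r ^ (2 - a - ε) * ρ ^ (a - 1/4)) :=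
          mul_le_mul_of_nonneg_left h2 (by positivity)
      _ ≤ _ := by
          apply mul_le_mul_of_nonneg_right _ hX0.le
          have : 0 < Λ1 := by positivity
          linarith

end Pool.Agent.N892.AC
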