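import Pool.Agent.H443R3.UD.Sum

/-!
Sums over the `k` point subsets of a set of vertices, for sets of arbitrary shape.
-/

set_option autoImplicit false

namespace Pool.Agent.N892.AC

open Finset H443U H443U.Sum

/-- The sum over the `k` point subsets of `Q`. -/
theorem gs (k : ℕ) : ∃ C : ℝ, 0 < C ∧ ∀ (b : ℤ × ℤ → ℤ) (r : ℤ) (Q : Finset (ℤ × ℤ)) (A : ℝ),
    0 ≤ A → (∀ u v : ℤ × ℤ, b u ≤ b v + sd u v) →
    ∑ v ∈ Q, w (b v) + Q.card * w r ≤ A →
    (∀ u ∈ Q, (∑ v ∈ Q, w (sd v u) ^ 2) / w r ≤ A) →
    ∑ S ∈ Q.powersetCard k, ∏ v ∈ S, w (rad b r S v) ≤ C * A ^ k := by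
  classical
  induction k with
  | zero =>
    refine ⟨1, one_pos, ?_⟩
    intro b r Q A hA hb h1 h2
    simp
  | succ k ih =>
    obtain ⟨C, hC, ih⟩ := ih
    refine ⟨2 ^ (k + 1) * (1 + k) * C, by positivity, ?_⟩
    intro b r Q A hA hb hB1 hB2
    have ih' := ih b r Q A hA hb hB1 hB2
    -- choose the removed point
    have hch : ∀ S : Finset (ℤ × ℤ), ∃ v : ℤ × ℤ, S.Nonempty → (v ∈ S ∧
        ∏ u ∈ S, w (rad b r S u) ≤ 2 ^ S.card *
          (hh b r (S.erase v) v * ∏ u ∈ S.erase v, w (rad b r (S.erase v) u))) := by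
      intro S
      by_cases hS : S.Nonempty
      · obtain ⟨v, hv, h⟩ := step b r S hb hS
        exact ⟨v, fun _ => ⟨hv, h⟩⟩
      · exact ⟨(0, 0), fun h => absurd h hS⟩
    choose V hV using hch
    have hne : ∀ S ∈ Q.powersetCard (k + 1), S.Nonempty := by
      intro S hS
      rw [Finset.mem_powersetCard] at hS
      rw [← Finset.card_pos]; omega
    let G : Finset (ℤ × ℤ) × (ℤ × ℤ) → ℝ := fun p =>
      2 ^ (k + 1) * (hh b r p.1 p.2 * ∏ u ∈ p.1, w (rad b r p.1 u))
    have hG0 : ∀ p, 0 ≤ G p := by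
      intro p
      have h1 := hh_nonneg b r p.1 p.2
      have h2 := prod_nonneg' b r p.1
      simp only [G]
      positivity
    have hinj : Set.InjOn (fun S : Finset (ℤ × ℤ) => (S.erase (V S), V S))
        (Q.powersetCard (k + 1) : Set (Finset (ℤ × ℤ))) := by
      intro S hS S' hS' e
      simp only [Prod.mk.injEq] at e
      have h1 := (hV S (hne S hS)).1
      have h2 := (hV S' (hne S' hS')).1
      rw [← Finset.insert_erase h1, ← Finset.insert_erase h2, e.1, e.2]
    have hhh : ∀ S ∈ Q.powersetCard k, ∑ v ∈ Q, hh b r S v ≤ (1 + k) * A := by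
      intro S hS
      rw [Finset.mem_powersetCard] at hS
      unfold hh
      rw [Finset.sum_add_distrib, Finset.sum_add_distrib, Finset.sum_const, nsmul_eq_mul,
        ← Finset.sum_div, Finset.sum_comm, Finset.sum_div]
      have h3 : ∑ u ∈ S, (∑ v ∈ Q, w (sd v u) ^ 2) / w r ≤ ∑ _u ∈ S, A :=
        Finset.sum_le_sum fun u hu => hB2 u (hS.1 hu)
      rw [Finset.sum_const, hS.2, nsmul_eq_mul] at h3
      linarith
    calc ∑ S ∈ Q.powersetCard (k + 1), ∏ v ∈ S, w (rad b r S v)
        ≤ ∑ S ∈ Q.powersetCard (k + 1), G (S.erase (V S), V S) := by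
          apply Finset.sum_le_sum
          intro S hS
          have h := (hV S (hne S hS)).2
          rw [(Finset.mem_powersetCard.1 hS).2] at h
          exact h
      _ = ∑ p ∈ (Q.powersetCard (k + 1)).image (fun S => (S.erase (V S), V S)), G p := by
          rw [Finset.sum_image hinj]
      _ ≤ ∑ p ∈ Q.powersetCard k ×ˢ Q, G p := by
          apply Finset.sum_le_sum_of_subset_of_nonneg
          · intro p hp
            obtain ⟨S, hS, rfl⟩ := Finset.mem_image.1 hp
            have h1 := (hV S (hne S hS)).1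
            rw [Finset.mem_powersetCard] at hS
            rw [Finset.mem_product, Finset.mem_powersetCard]
            refine ⟨⟨(Finset.erase_subset _ _).trans hS.1, ?_⟩, hS.1 h1⟩
            simp only
            rw [Finset.card_erase_of_mem h1, hS.2]
            omega
          · intro p _ _
            exact hG0 p
      _ = ∑ S ∈ Q.powersetCard k, 2 ^ (k + 1) *
          ((∑ v ∈ Q, hh b r S v) * ∏ u ∈ S, w (rad b r S u)) := by
          rw [Finset.sum_product]
          apply Finset.sum_congr rfl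
          intro S _
          simp only [G]
          rw [← Finset.mul_sum, Finset.sum_mul]
      _ ≤ ∑ S ∈ Q.powersetCard k, 2 ^ (k + 1) *
          (((1 + k) * A) * ∏ u ∈ S, w (rad b r S u)) := by
          apply Finset.sum_le_sum
          intro S hS
          apply mul_le_mul_of_nonneg_left _ (by positivity)
          exact mul_le_mul_of_nonneg_right (hhh S hS) (prod_nonneg' b r S)
      _ = 2 ^ (k + 1) * (1 + k) * A * ∑ S ∈ Q.powersetCard k, ∏ u ∈ S, w (rad b r S u) := by
          rw [Finset.mul_sum]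
          apply Finset.sum_congr rfl
          intro S _
          ring
      _ ≤ 2 ^ (k + 1) * (1 + k) * A * (C * A ^ k) := by
          apply mul_le_mul_of_nonneg_left ih' (by positivity)
      _ = 2 ^ (k + 1) * (1 + k) * C * A ^ (k + 1) := by ring

end Pool.Agent.N892.AC
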