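import Pool.Agent.N892.AC.Aff

/-!
The trace of a scaling limit is regular with exponent `7/4`.
-/

set_option autoImplicit false

namespace Pool.Agent.N892.AC

open H984N MeasureTheory Metric Set
open scoped ENNReal NNReal

variable {f : C(unitInterval, ℂ)}

theorem Hol.step (hH : Hol f) {η : ℝ} (hη : 0 < η) :
    ∃ r1 : ℝ, 0 < r1 ∧ ∀ r : ℝ, 0 < r → r ≤ r1 → ∀ s t : unitInterval,
      dist s t ≤ r ^ (7/4 + η) → dist (f s) (f t) ≤ r := by
  set β : ℝ := 1 / (7/4 + η/2) with hβ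
  have hβ0 : 0 < β := by positivity
  have hβ1 : β < 4/7 := by
    rw [hβ, div_lt_iff₀ (by positivity)]; linarith
  obtain ⟨Λ0, hΛ0⟩ := hH β hβ0 hβ1
  set Λ' : ℝ := max Λ0 1 with hΛ'
  have hΛ'0 : 0 < Λ' := lt_max_of_lt_right one_pos
  have hhol : ∀ s t : unitInterval, dist (f s) (f t) ≤ Λ' * |(s : ℝ) - t| ^ β := fun s t =>
    (hΛ0 s t).trans (mul_le_mul_of_nonneg_right (le_max_left _ _) (by positivity))
  set e : ℝ := (η/2) / (7/4 + η/2) with he
  have he0 : 0 < e := by positivity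
  have hee : (7/4 + η) * β = 1 + e := by
    rw [hβ, he]; field_simp; ring
  refine ⟨Λ' ^ (-(1/e)), by positivity, fun r hr hrr0 s t h => ?_⟩
  have hre : Λ' * r ^ e ≤ 1 := by
    have h1 : r ^ e ≤ (Λ' ^ (-(1/e))) ^ e := Real.rpow_le_rpow hr.le hrr0 he0.le
    rw [← Real.rpow_mul hΛ'0.le, show -(1/e) * e = -1 by field_simp, Real.rpow_neg_one] at h1
    calc Λ' * r ^ e ≤ Λ' * Λ'⁻¹ := mul_le_mul_of_nonneg_left h1 hΛ'0.le
      _ = 1 := mul_inv_cancel₀ hΛ'0.ne'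
  have h' : |(s : ℝ) - t| ≤ r ^ (7/4 + η) := h
  calc dist (f s) (f t) ≤ Λ' * |(s : ℝ) - t| ^ β := hhol s t
    _ ≤ Λ' * (r ^ (7/4 + η)) ^ β := by
        apply mul_le_mul_of_nonneg_left _ hΛ'0.le
        exact Real.rpow_le_rpow (abs_nonneg _) h' hβ0.le
    _ = Λ' * r ^ e * r := by
        rw [← Real.rpow_mul hr.le, hee, Real.rpow_add hr, Real.rpow_one]; ring
    _ ≤ 1 * r := mul_le_mul_of_nonneg_right hre hr.le
    _ = r := one_mul r

theorem trace_reg (hH : Hol f) (hocc : ∀ α : ℝ, 0 < α → α < 7/4 → ∃ Λ : ℝ, 0 < Λ ∧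
      ∀ (z : ℂ) (r : ℝ), 0 < r →
        volume {s : unitInterval | dist (f s) z < r} ≤ ENNReal.ofReal (Λ * r ^ α)) :
    Reg (range f) (7/4) := by
  classical
  -- small exponents suffice
  suffices hmain : ∀ ε : ℝ, 0 < ε → ε ≤ 1 → ∃ K : ℝ, ∀ (x : ℂ) (r h : ℝ), 0 < r → r ≤ 1 → r ≤ h →
      ∃ T : Finset ℂ, (T.card : ℝ) ≤ K * r ^ (-ε) * (h / r) ^ (7/4 : ℝ) ∧
        range f ∩ closedBall x h ⊆ ⋃ y ∈ T, closedBall y r by
    intro ε hε
    obtain ⟨K, hK⟩ := hmain (min ε 1) (lt_min hε one_pos) (min_le_right _ _)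
    have hK0 : 0 ≤ K := by
      obtain ⟨T, h1, -⟩ := hK 0 1 1 one_pos le_rfl le_rfl
      rw [div_one, Real.one_rpow, Real.one_rpow, mul_one, mul_one] at h1
      exact (Nat.cast_nonneg _).trans h1
    refine ⟨K, fun x r h hr hr1 hh => ?_⟩
    obtain ⟨T, h1, h2⟩ := hK x r h hr hr1 hh
    refine ⟨T, h1.trans ?_, h2⟩
    have h3 : r ^ (-(min ε 1)) ≤ r ^ (-ε) :=
      Real.rpow_le_rpow_of_exponent_ge hr hr1 (by linarith [min_le_left ε 1])
    have : 0 < h / r := div_pos (hr.trans_le hh) hr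
    gcongr
  intro ε hε hε1
  obtain ⟨r1, hr1, hstep⟩ := hH.step (η := ε / 2) (by positivity)
  obtain ⟨Λ, hΛ, hoc⟩ := hocc (7/4 - ε / 2) (by linarith) (by linarith)
  -- small radii
  set K : ℝ := 1 + Λ * 3 ^ (7/4 - ε / 2) with hK
  have hK0 : 0 < K := by positivity
  have hsmall : ∀ (x : ℂ) (r h : ℝ), 0 < r → r ≤ 1 → r ≤ r1 → r ≤ h →
      ∃ T : Finset ℂ, (T.card : ℝ) ≤ K * r ^ (-ε) * (h / r) ^ (7/4 : ℝ) ∧
        range f ∩ closedBall x h ⊆ ⋃ y ∈ T, closedBall y r := by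
    intro x r h hr hr1' hrr hh
    have hh0 : 0 < h := hr.trans_le hh
    have hℓ : 0 < r ^ (7/4 + ε / 2) := Real.rpow_pos_of_pos hr _
    obtain ⟨S, hS1, hS2, hS3⟩ := UP.cells_card hℓ {s | f s ∈ closedBall x h}
      {s | dist (f s) x < 3 * h} (by
        intro s hs t hst
        have h1 : dist (f t) (f s) ≤ r := hstep r hr hrr t s (by rwa [dist_comm])
        have h2 : dist (f s) x ≤ h := hs
        have h3 := dist_triangle (f t) (f s) x
        show dist (f t) x < 3 * h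
        linarith)
    choose! p hp1 hp2 using hS2
    refine ⟨S.image (fun k => f (p k)), ?_, ?_⟩
    · have h1 : ((S.image (fun k => f (p k))).card : ℝ) ≤ S.card := by
        exact_mod_cast Finset.card_image_le
      refine (h1.trans hS3).trans ?_
      have h2 : (volume {s : unitInterval | dist (f s) x < 3 * h}).toReal ≤
          Λ * (3 * h) ^ (7/4 - ε / 2) :=
        ENNReal.toReal_le_of_le_ofReal (by positivity) (hoc x (3 * h) (by positivity))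
      have h3 : (3 * h) ^ (7/4 - ε / 2) = 3 ^ (7/4 - ε / 2) * h ^ (7/4 - ε / 2) :=
        Real.mul_rpow (by norm_num) hh0.le
      rw [h3] at h2
      have h4 : h ^ (7/4 - ε / 2) / r ^ (7/4 + ε / 2) ≤ r ^ (-ε) * (h / r) ^ (7/4 : ℝ) := by
        rw [div_le_iff₀ hℓ]
        have e1 : h ^ (7/4 - ε / 2) = h ^ (7/4 : ℝ) * h ^ (-(ε / 2)) := by
          rw [← Real.rpow_add hh0]; congr 1
        have e2 : r ^ (-ε) * (h / r) ^ (7/4 : ℝ) * r ^ (7/4 + ε / 2) =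
            h ^ (7/4 : ℝ) * r ^ (-(ε / 2)) := by
          rw [Real.div_rpow hh0.le hr.le, show (7/4 + ε / 2) = 7/4 + ε / 2 from rfl,
            Real.rpow_add hr, show -ε = -(ε/2) + -(ε/2) by ring, Real.rpow_add hr,
            Real.rpow_neg hr.le (ε / 2)]
          field_simp
        rw [e1, e2]
        apply mul_le_mul_of_nonneg_left _ (by positivity)
        exact Real.rpow_le_rpow_of_nonpos hr hh (by linarith)
      have h5 : 1 ≤ r ^ (-ε) * (h / r) ^ (7/4 : ℝ) := by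
        have a1 : 1 ≤ r ^ (-ε) :=
          Real.one_le_rpow_of_pos_of_le_one_of_nonpos hr hr1' (by linarith)
        have a2 : 1 ≤ (h / r) ^ (7/4 : ℝ) :=
          Real.one_le_rpow (by rwa [le_div_iff₀ hr, one_mul]) (by norm_num)
        nlinarith
      calc 1 + (volume {s : unitInterval | dist (f s) x < 3 * h}).toReal / r ^ (7/4 + ε / 2)
          ≤ 1 + Λ * (3 ^ (7/4 - ε / 2) * h ^ (7/4 - ε / 2)) / r ^ (7/4 + ε / 2) := by gcongr
        _ = 1 + Λ * 3 ^ (7/4 - ε / 2) * (h ^ (7/4 - ε / 2) / r ^ (7/4 + ε / 2)) := by ring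
        _ ≤ 1 + Λ * 3 ^ (7/4 - ε / 2) * (r ^ (-ε) * (h / r) ^ (7/4 : ℝ)) := by gcongr
        _ ≤ K * r ^ (-ε) * (h / r) ^ (7/4 : ℝ) := by rw [hK]; nlinarith
    · rintro _ ⟨⟨s, rfl⟩, hs⟩
      have hk := hS1 s hs
      refine mem_iUnion₂.2 ⟨f (p ⌊(s:ℝ) / r ^ (7/4 + ε / 2)⌋), Finset.mem_image_of_mem _ hk, ?_⟩
      rw [mem_closedBall]
      exact hstep r hr hrr _ _ (UP.cell_dist (k := ⌊(s:ℝ) / r ^ (7/4 + ε / 2)⌋) hℓ rfl (hp2 _ hk))
  -- large radii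
  set r2 : ℝ := min r1 1 with hr2
  have hr20 : 0 < r2 := lt_min hr1 one_pos
  refine ⟨K + K * r2 ^ (-ε) * (1 / r2) ^ (7/4 : ℝ), fun x r h hr hr1' hh => ?_⟩
  have hh0 : 0 < h := hr.trans_le hh
  have hB0 : 0 ≤ K * r2 ^ (-ε) * (1 / r2) ^ (7/4 : ℝ) := by positivity
  rcases le_or_gt r r2 with h1 | h1
  · obtain ⟨T, h2, h3⟩ := hsmall x r h hr hr1' (h1.trans (min_le_left _ _)) hh
    refine ⟨T, h2.trans ?_, h3⟩
    have : 0 < h / r := by positivity
    gcongr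
    linarith
  · obtain ⟨T, h2, h3⟩ := hsmall x r2 h hr20 (min_le_right _ _) (min_le_left _ _) (h1.le.trans hh)
    refine ⟨T, h2.trans ?_, h3.trans ?_⟩
    · have e1 : (h / r2) ^ (7/4 : ℝ) ≤ (1 / r2) ^ (7/4 : ℝ) * (h / r) ^ (7/4 : ℝ) := by
        rw [← Real.mul_rpow (by positivity) (by positivity)]
        apply Real.rpow_le_rpow (by positivity) _ (by norm_num)
        rw [div_mul_div_comm, one_mul, div_le_div_iff₀ hr20 (by positivity)]
        nlinarith [mul_pos hh0 hr20]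
      have e2 : 1 ≤ r ^ (-ε) :=
        Real.one_le_rpow_of_pos_of_le_one_of_nonpos hr hr1' (by linarith)
      calc K * r2 ^ (-ε) * (h / r2) ^ (7/4 : ℝ)
          ≤ K * r2 ^ (-ε) * ((1 / r2) ^ (7/4 : ℝ) * (h / r) ^ (7/4 : ℝ)) := by gcongr
        _ = K * r2 ^ (-ε) * (1 / r2) ^ (7/4 : ℝ) * 1 * (h / r) ^ (7/4 : ℝ) := by ring
        _ ≤ (K + K * r2 ^ (-ε) * (1 / r2) ^ (7/4 : ℝ)) * r ^ (-ε) * (h / r) ^ (7/4 : ℝ) := by
            gcongr
            linarith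
    · exact iUnion₂_mono fun y _ => closedBall_subset_closedBall h1.le

end Pool.Agent.N892.AC
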