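import Pool.Agent.N892.AC.Dim

/-!
Upper bounds for the dimensions of images and graphs, and the boundary times.
-/

set_option autoImplicit false

namespace Pool.Agent.N892.AC

open H974 H984P H984N H443U H443P MeasureTheory Filter Topology Metric Set
open scoped ENNReal NNReal

/-- Hölder continuity of every exponent less than `4/7`. -/
def Hol {Y : Type*} [PseudoMetricSpace Y] (G : unitInterval → Y) : Prop :=
  ∀ β : ℝ, 0 < β → β < 4/7 → ∃ Λ : ℝ, ∀ s t : unitInterval,
    dist (G s) (G t) ≤ Λ * |(s : ℝ) - t| ^ β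

theorem dimH_le_one (E : Set unitInterval) : dimH E ≤ 1 := by
  have h1 : dimH ((↑) '' E : Set ℝ) = dimH E := isometry_subtype_coe.dimH_image E
  rw [← h1]
  exact (dimH_mono (subset_univ _)).trans Real.dimH_univ.le

theorem Hol.dim {Y : Type*} [MetricSpace Y] {G : unitInterval → Y} (hG : Hol G)
    (E : Set unitInterval) : dimH (G '' E) ≤ 7 / 4 * dimH E := by
  have h1 : ∀ β : ℝ, 0 < β → β < 4/7 → ENNReal.ofReal β * dimH (G '' E) ≤ dimH E := by
    intro β hβ hβ1
    obtain ⟨Λ, hΛ⟩ := hG β hβ hβ1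
    have hH : HolderWith Λ.toNNReal β.toNNReal G := by
      intro s t
      rw [edist_dist, edist_dist, Real.coe_toNNReal β hβ.le,
        ENNReal.ofReal_rpow_of_nonneg dist_nonneg hβ.le]
      have h2 : ((Λ.toNNReal : ℝ≥0) : ℝ≥0∞) = ENNReal.ofReal Λ := rfl
      rw [h2]
      rcases le_or_gt 0 Λ with h0 | h0
      · rw [← ENNReal.ofReal_mul h0]
        exact ENNReal.ofReal_le_ofReal (hΛ s t)
      · have h3 : dist (G s) (G t) ≤ 0 := (hΛ s t).trans
          (mul_nonpos_of_nonpos_of_nonneg h0.le (by positivity))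
        rw [le_antisymm h3 dist_nonneg]
        simp
    have h4 := hH.dimH_image_le (Real.toNNReal_pos.2 hβ) E
    rw [ENNReal.le_div_iff_mul_le (Or.inl (by
      have := Real.toNNReal_pos.2 hβ
      exact_mod_cast this.ne')) (Or.inl ENNReal.coe_ne_top)] at h4
    rw [mul_comm]
    exact h4
  have h2 : ENNReal.ofReal (4/7) * dimH (G '' E) ≤ dimH E := by
    rcases eq_or_ne (dimH (G '' E)) 0 with h0 | h0
    · rw [h0, mul_zero]; exact zero_le
    have htop : dimH (G '' E) ≠ ⊤ := by
      intro h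
      have := h1 (1/7) (by norm_num) (by norm_num)
      rw [h, ENNReal.mul_top (by simp)] at this
      exact absurd (this.trans (dimH_le_one E)) (by simp)
    have h3 : Tendsto (fun β : ℝ => ENNReal.ofReal β * dimH (G '' E)) (𝓝[<] (4/7))
        (𝓝 (ENNReal.ofReal (4/7) * dimH (G '' E))) := by
      refine ENNReal.Tendsto.mul_const ?_ (Or.inr htop)
      exact (ENNReal.continuous_ofReal.tendsto _).mono_left nhdsWithin_le_nhds
    refine le_of_tendsto h3 ?_
    filter_upwards [Ioo_mem_nhdsLT (show (0:ℝ) < 4/7 by norm_num)] with β hβ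
    exact h1 β hβ.1 hβ.2
  calc dimH (G '' E) = 7 / 4 * (ENNReal.ofReal (4/7) * dimH (G '' E)) := by
        rw [← mul_assoc]
        have h5 : (7 / 4 : ℝ≥0∞) = ENNReal.ofReal (7/4) := by
          rw [ENNReal.ofReal_div_of_pos (by norm_num)]; norm_num
        rw [h5, ← ENNReal.ofReal_mul (by norm_num)]
        norm_num
    _ ≤ 7 / 4 * dimH E := by gcongr

/-- The graph has a dimension at most `3/7` larger. -/
theorem Hol.graph {G : unitInterval → ℝ} (hG : Hol G) (E : Set unitInterval) :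
    dimH ((fun s => (s, G s)) '' E) ≤ dimH E + ENNReal.ofReal (3/7) := by
  refine ENNReal.le_of_forall_pos_le_add fun ε hε _ => ?_
  set β : ℝ := max (4/7 - ε) (1/7) with hβ
  have hβ0 : 0 < β := lt_max_of_lt_right (by norm_num)
  have hβ1 : β < 4/7 := max_lt (by have : (0:ℝ) < ε := hε; linarith) (by norm_num)
  have hβ2 : 4/7 - ε ≤ β := le_max_left _ _
  obtain ⟨Λ0, hΛ0⟩ := hG β hβ0 hβ1
  set Λ : ℝ := max Λ0 1 with hΛ
  have hΛ1 : 1 ≤ Λ := le_max_right _ _
  have hΛ0' : 0 < Λ := by linarith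
  have h := dim_inv (X := unitInterval × ℝ) (Y := unitInterval) (F := Prod.fst)
    (K := Set.range (fun s => (s, G s))) (b := 1 - β) (c := 1) (C := 2 * Λ + 2) (d0 := 1)
    (by linarith) one_pos (by positivity) one_pos (fun d hd hd1 J hJ => by
      rw [Real.rpow_one]
      rcases (Prod.fst ⁻¹' J ∩ Set.range (fun s => (s, G s))).eq_empty_or_nonempty
        with h0 | ⟨_, hs0, s0, rfl⟩
      · rw [h0]
        refine ⟨∅, fun _ => ∅, empty_subset _, fun i hi => absurd hi (Finset.notMem_empty _), ?_⟩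
        rw [Finset.card_empty]
        push_cast
        positivity
      · refine ⟨Finset.Icc ⌊(G s0 - Λ * d ^ β) / d⌋ ⌊(G s0 + Λ * d ^ β) / d⌋,
          fun k => {p | p.1 ∈ J ∧ ⌊p.2 / d⌋ = k}, ?_, ?_, ?_⟩
        · rintro _ ⟨hs, s, rfl⟩
          have hs' : s ∈ J := hs
          have hs0' : s0 ∈ J := hs0
          have h1 := (edist_le_ediam_of_mem hs' hs0').trans hJ
          rw [edist_dist] at h1
          have h2 : |(s:ℝ) - s0| ≤ d := (ENNReal.ofReal_le_ofReal_iff hd.le).1 h1
          have h3 : dist (G s) (G s0) ≤ Λ * d ^ β := by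
            refine (hΛ0 s s0).trans ?_
            apply mul_le_mul (le_max_left _ _) _ (by positivity) hΛ0'.le
            exact Real.rpow_le_rpow (abs_nonneg _) h2 hβ0.le
          rw [Real.dist_eq, abs_le] at h3
          refine mem_iUnion₂.2 ⟨⌊G s / d⌋, Finset.mem_Icc.2 ⟨?_, ?_⟩, hs', rfl⟩
          · exact Int.floor_le_floor (div_le_div_of_nonneg_right (by linarith [h3.1]) hd.le)
          · exact Int.floor_le_floor (div_le_div_of_nonneg_right (by linarith [h3.2]) hd.le)
        · rintro k -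
          refine ediam_le fun p hp q hq => ?_
          rw [Prod.edist_eq]
          refine max_le ((edist_le_ediam_of_mem hp.1 hq.1).trans hJ) ?_
          rw [edist_dist]
          apply ENNReal.ofReal_le_ofReal
          have h4 : |p.2 / d - q.2 / d| < 1 :=
            Int.abs_sub_lt_one_of_floor_eq_floor (hp.2.trans hq.2.symm)
          rw [← sub_div, abs_div, abs_of_pos hd, div_lt_one hd] at h4
          exact h4.le
        · have h5 : (⌊(G s0 - Λ * d ^ β) / d⌋ : ℤ) ≤ ⌊(G s0 + Λ * d ^ β) / d⌋ + 1 := by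
            have : ⌊(G s0 - Λ * d ^ β) / d⌋ ≤ ⌊(G s0 + Λ * d ^ β) / d⌋ :=
              Int.floor_le_floor (div_le_div_of_nonneg_right (by
                have : 0 ≤ Λ * d ^ β := by positivity
                linarith) hd.le)
            omega
          have h6 := Int.card_Icc_of_le _ _ h5
          have h7 : ((Finset.Icc ⌊(G s0 - Λ * d ^ β) / d⌋ ⌊(G s0 + Λ * d ^ β) / d⌋).card : ℝ) =
              ⌊(G s0 + Λ * d ^ β) / d⌋ + 1 - ⌊(G s0 - Λ * d ^ β) / d⌋ := by
            exact_mod_cast h6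
          rw [h7]
          have h8 := Int.floor_le ((G s0 + Λ * d ^ β) / d)
          have h9 := Int.lt_floor_add_one ((G s0 - Λ * d ^ β) / d)
          have h10 : (G s0 + Λ * d ^ β) / d - (G s0 - Λ * d ^ β) / d = 2 * Λ * d ^ (-(1 - β)) := by
            rw [← sub_div, show G s0 + Λ * d ^ β - (G s0 - Λ * d ^ β) = 2 * Λ * d ^ β by ring,
              show -(1 - β) = β + (-1) by ring, Real.rpow_add hd, Real.rpow_neg_one]
            ring
          have h11 : 1 ≤ d ^ (-(1 - β)) :=
            Real.one_le_rpow_of_pos_of_le_one_of_nonpos hd hd1 (by linarith)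
          nlinarith)
    (E := (fun s => (s, G s)) '' E) (image_subset_range _ _)
  rw [ENNReal.ofReal_one, one_mul] at h
  have h1 : Prod.fst '' ((fun s => (s, G s)) '' E) = E := by
    rw [← image_comp]; exact image_id E
  rw [h1] at h
  refine h.trans ?_
  rw [add_assoc]
  gcongr
  have : ENNReal.ofReal (3/7) + (ε : ℝ≥0∞) = ENNReal.ofReal (3/7 + ε) := by
    rw [ENNReal.ofReal_add (by norm_num) (NNReal.coe_nonneg ε), ENNReal.ofReal_coe_nnreal]
  rw [this]
  exact ENNReal.ofReal_le_ofReal (by linarith)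

theorem le_graph {G : unitInterval → ℝ} (E : Set unitInterval) :
    dimH E ≤ dimH ((fun s => (s, G s)) '' E) := by
  have h1 : Prod.fst '' ((fun s => (s, G s)) '' E) = E := by
    rw [← image_comp]; exact image_id E
  calc dimH E = dimH (Prod.fst '' ((fun s => (s, G s)) '' E)) := by rw [h1]
    _ ≤ dimH ((fun s => (s, G s)) '' E) :=
        (LipschitzWith.prod_fst : LipschitzWith 1 (Prod.fst : unitInterval × ℝ → _)).dimH_image_le _

theorem mul_dimH_le {X : Type*} [MetricSpace X] {E B : Set X} {K : ℕ → Set X}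
    (hcov : E ⊆ B ∪ ⋃ n, K n) {c M : ℝ≥0∞} (hc0 : c ≠ 0) (hc : c ≠ ⊤)
    (h1 : c * dimH (E ∩ B) ≤ M) (h2 : ∀ n, c * dimH (E ∩ K n) ≤ M) : c * dimH E ≤ M := by
  have h3 : dimH E ≤ M / c := by
    have hsub : E ⊆ (E ∩ B) ∪ ⋃ n, (E ∩ K n) := by
      intro x hx
      rcases hcov hx with h | h
      · exact Or.inl ⟨hx, h⟩
      · obtain ⟨n, hn⟩ := mem_iUnion.1 h
        exact Or.inr (mem_iUnion.2 ⟨n, hx, hn⟩)
    refine (dimH_mono hsub).trans ?_
    rw [dimH_union, dimH_iUnion]
    refine max_le ?_ (iSup_le fun n => ?_)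
    · rw [ENNReal.le_div_iff_mul_le (Or.inl hc0) (Or.inl hc), mul_comm]; exact h1
    · rw [ENNReal.le_div_iff_mul_le (Or.inl hc0) (Or.inl hc), mul_comm]; exact h2 n
  rw [ENNReal.le_div_iff_mul_le (Or.inl hc0) (Or.inl hc), mul_comm] at h3
  exact h3

theorem e74 : (7 / 4 : ℝ≥0∞) = ENNReal.ofReal (7/4) := by
  rw [ENNReal.ofReal_div_of_pos (by norm_num)]; norm_num

theorem e34 : (3 / 4 : ℝ≥0∞) = ENNReal.ofReal (3/4) := by
  rw [ENNReal.ofReal_div_of_pos (by norm_num)]; norm_num

theorem e37 : (3 / 7 : ℝ≥0∞) = ENNReal.ofReal (3/7) := by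
  rw [ENNReal.ofReal_div_of_pos (by norm_num)]; norm_num

theorem e928 : (9 / 28 : ℝ≥0∞) = ENNReal.ofReal (9/28) := by
  rw [ENNReal.ofReal_div_of_pos (by norm_num)]; norm_num

theorem e821 : (8 / 21 : ℝ≥0∞) = ENNReal.ofReal (8/21) := by
  rw [ENNReal.ofReal_div_of_pos (by norm_num)]; norm_num

theorem e107 : (10 / 7 : ℝ≥0∞) = ENNReal.ofReal (10/7) := by
  rw [ENNReal.ofReal_div_of_pos (by norm_num)]; norm_num

variable {R : Rect} {f : C(unitInterval, ℂ)}

theorem times_cov (hcl : ∀ s, f s ∈ closure R.D) (E : Set unitInterval) :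
    E ⊆ {s | f s ∈ frontier R.D} ∪ ⋃ n : ℕ, {s | f s ∈ Dep R (1 / ((n:ℝ) + 1))} := by
  intro s _
  by_cases h : f s ∈ R.D
  · obtain ⟨n, hn⟩ := mem_iUnion.1 (dep_union R h)
    exact Or.inr (mem_iUnion.2 ⟨n, hn⟩)
  · refine Or.inl ⟨hcl s, fun h' => h (interior_subset h')⟩

theorem proj_all {g : ℂ → ℝ} {B : Set unitInterval} {K : ℕ → Set unitInterval}
    {E : Set unitInterval} (hcov : E ⊆ B ∪ ⋃ n, K n) (hB : dimH B ≤ 8 / 21)
    (hK : ∀ n, ∀ E : Set unitInterval, E ⊆ K n →
      ENNReal.ofReal (7/4) * dimH E ≤ dimH ((fun s => g (f s)) '' E) + ENNReal.ofReal (3/4)) :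
    7 / 4 * dimH E ≤ dimH ((fun s => g (f s)) '' E) + 3 / 4 := by
  refine mul_dimH_le hcov (by simp) (ENNReal.div_ne_top (by simp) (by simp)) ?_ ?_
  · calc 7 / 4 * dimH (E ∩ B) ≤ 7 / 4 * (8 / 21) := by
          gcongr
          exact (dimH_mono inter_subset_right).trans hB
      _ ≤ 3 / 4 := by
          rw [e74, e821, e34, ← ENNReal.ofReal_mul (by norm_num)]
          exact ENNReal.ofReal_le_ofReal (by norm_num)
      _ ≤ _ := le_add_self
  · intro n
    have h := hK n (E ∩ K n) inter_subset_right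
    rw [e74, e34]
    refine h.trans ?_
    gcongr
    exact inter_subset_left

theorem graph_all {g : ℂ → ℝ} {B : Set unitInterval} {K : ℕ → Set unitInterval}
    {E : Set unitInterval} (hcov : E ⊆ B ∪ ⋃ n, K n) (hB : dimH B ≤ 8 / 21)
    (hK : ∀ n, ∀ E : Set unitInterval, E ⊆ K n → ENNReal.ofReal (7/4) * dimH E ≤
      dimH ((fun s => (s, g (f s))) '' E) + ENNReal.ofReal (9/28)) :
    7 / 4 * dimH E ≤ dimH ((fun s => (s, g (f s))) '' E) + 9 / 28 := by
  refine mul_dimH_le hcov (by simp) (ENNReal.div_ne_top (by simp) (by simp)) ?_ ?_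
  · set B' := E ∩ B with hB'
    have h1 : dimH B' ≤ 8 / 21 := (dimH_mono inter_subset_right).trans hB
    calc 7 / 4 * dimH B' = dimH B' + 3 / 4 * dimH B' := by
          nth_rw 2 [← one_mul (dimH B')]
          rw [← add_mul]
          congr 1
          rw [e74, e34, ← ENNReal.ofReal_one, ← ENNReal.ofReal_add (by norm_num) (by norm_num)]
          norm_num
      _ ≤ dimH ((fun s => (s, g (f s))) '' E) + 9 / 28 := by
          apply add_le_add
          · exact (dimH_mono inter_subset_left).trans (le_graph E)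
          · calc 3 / 4 * dimH B' ≤ 3 / 4 * (8 / 21) := by gcongr
              _ ≤ 9 / 28 := by
                rw [e34, e821, e928, ← ENNReal.ofReal_mul (by norm_num)]
                exact ENNReal.ofReal_le_ofReal (by norm_num)
  · intro n
    have h := hK n (E ∩ K n) inter_subset_right
    rw [e74, e928]
    refine h.trans ?_
    gcongr
    exact inter_subset_left

end Pool.Agent.N892.AC
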